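import Mathlib

set_option autoImplicit false

namespace Pool.Agent.Helper741

/-- Alternating product `a b a ⋯` with `m` factors. -/
def alt {G : Type*} [Monoid G] (a b : G) (m : ℕ) : G :=
  ((List.range m).map (fun t => if Even t then a else b)).prod

section alt
variable {G : Type*} [Monoid G]

@[simp] lemma alt_zero (a b : G) : alt a b 0 = 1 := by simp [alt]

lemma alt_succ' (a b : G) (m : ℕ) : alt a b (m + 1) = alt a b m * (if Even m then a else b) := by
  simp [alt, List.range_succ]

lemma alt_succ (a b : G) (m : ℕ) : alt a b (m + 1) = a * alt b a m := by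
  simp only [alt, List.range_succ_eq_map, List.map_cons, List.map_map, List.prod_cons]
  congr 1
  congr 1
  apply List.map_congr_left
  intro t _
  by_cases h : Even t
  · simp [h, Nat.even_add_one]
  · simp [h, Nat.even_add_one]

@[simp] lemma alt_one (a b : G) : alt a b 1 = a := by simp [alt_succ]

lemma alt_two (a b : G) : alt a b 2 = a * b := by simp [alt_succ]

lemma map_alt {H : Type*} [Monoid H] (f : G →* H) (a b : G) (m : ℕ) :
    f (alt a b m) = alt (f a) (f b) m := by
  induction m with
  | zero => simp
  | succ m ih =>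
    rw [alt_succ', alt_succ', map_mul, ih]
    split_ifs <;> rfl

lemma alt_mul_two (a b : G) (m : ℕ) : alt a b (2 * m) = (a * b) ^ m := by
  induction m with
  | zero => simp
  | succ m ih =>
    have h1 : 2 * (m + 1) = (2 * m + 1) + 1 := by ring
    have he : Even (2 * m) := even_two_mul m
    rw [h1, alt_succ', alt_succ', ih, pow_succ]
    simp [he, mul_assoc]

lemma alt_mul_two_add_one (a b : G) (m : ℕ) : alt a b (2 * m + 1) = (a * b) ^ m * a := by
  rw [alt_succ', alt_mul_two]
  simp

end alt

section altinv
variable {G : Type*} [Group G]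

lemma refl_mul_alt {a b : G} (ha : a * a = 1) (hb : b * b = 1) (k : ℕ) :
    (a * b) ^ k * a * alt a b k = alt a b (k + 1) := by
  induction k generalizing a b with
  | zero => simp
  | succ k ih =>
    have h := ih hb ha
    have h1 : (a * b) ^ (k + 1) * a = a * ((b * a) ^ k * b) * a := by
      have : ∀ k : ℕ, (a * b) ^ k * a = a * (b * a) ^ k := by
        intro k
        induction k with
        | zero => simp
        | succ k ih2 => rw [pow_succ', mul_assoc, ih2, pow_succ']; simp only [mul_assoc]
      rw [this, pow_succ]
      simp only [mul_assoc]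
    rw [h1, alt_succ a b (k + 1), ← h, alt_succ a b k]
    calc a * ((b * a) ^ k * b) * a * (a * alt b a k)
        = a * ((b * a) ^ k * b) * (a * a) * alt b a k := by simp only [mul_assoc]
      _ = _ := by rw [ha]; simp only [mul_assoc, one_mul]

lemma alt_conj {a b : G} (ha : a * a = 1) (hb : b * b = 1) (k : ℕ) :
    alt a b k * (if Even k then a else b) * (alt a b k)⁻¹ = (a * b) ^ k * a := by
  rw [← alt_succ', ← refl_mul_alt ha hb]
  group

lemma alt_comm_of_pow {a b : G} (ha : a * a = 1) (hb : b * b = 1) {m : ℕ}
    (hm : (a * b) ^ m = 1) : alt a b m = alt b a m := by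
  rcases Nat.eq_zero_or_pos m with rfl | hpos
  · simp
  obtain ⟨k, rfl⟩ : ∃ k, m = k + 1 := ⟨m - 1, by omega⟩
  -- alt a b (k+1) = (a b)^k a * alt a b k ; (ab)^(k+1) = 1 → (ab)^k a = b⁻¹ = b
  have h1 : (a * b) ^ k * a = b := by
    have : (a * b) ^ k * a * b = 1 := by rw [mul_assoc, ← pow_succ, hm]
    calc (a * b) ^ k * a = (a * b) ^ k * a * (b * b) := by rw [hb, mul_one]
      _ = ((a * b) ^ k * a * b) * b := by simp only [mul_assoc]
      _ = b := by rw [this, one_mul]
  rw [← refl_mul_alt ha hb, h1, alt_succ b a]

end altinv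

/-- The Artin group of a Coxeter matrix (`0` stands for infinity). -/
abbrev Artin {B : Type*} (M : CoxeterMatrix B) : Type _ :=
  PresentedGroup
    (Set.range (fun p : B × B =>
      ((List.range (M p.1 p.2)).map
          (fun t => if Even t then FreeGroup.of p.1 else FreeGroup.of p.2)).prod *
      (((List.range (M p.1 p.2)).map
          (fun t => if Even t then FreeGroup.of p.2 else FreeGroup.of p.1)).prod)⁻¹))

namespace Artin

variable {B : Type*} (M : CoxeterMatrix B)

/-- standard generator -/
def gen (i : B) : Artin M := PresentedGroup.of i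

variable {M}

lemma rel (i j : B) : alt (gen M i) (gen M j) (M i j) = alt (gen M j) (gen M i) (M i j) := by
  have h : (PresentedGroup.mk (Set.range (fun p : B × B =>
      ((List.range (M p.1 p.2)).map
          (fun t => if Even t then FreeGroup.of p.1 else FreeGroup.of p.2)).prod *
      (((List.range (M p.1 p.2)).map
          (fun t => if Even t then FreeGroup.of p.2 else FreeGroup.of p.1)).prod)⁻¹)))
        (alt (FreeGroup.of i) (FreeGroup.of j) (M i j) *
          (alt (FreeGroup.of j) (FreeGroup.of i) (M i j))⁻¹) = 1 := by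
    apply PresentedGroup.one_of_mem
    exact ⟨(i, j), rfl⟩
  rw [map_mul, map_inv, mul_inv_eq_one, map_alt, map_alt] at h
  exact h

/-- Universal property. -/
def lift {G : Type*} [Group G] (f : B → G)
    (hf : ∀ i j, alt (f i) (f j) (M i j) = alt (f j) (f i) (M i j)) : Artin M →* G :=
  PresentedGroup.toGroup (f := f) (by
    rintro _ ⟨⟨i, j⟩, rfl⟩
    have h1 : ∀ a b : B, FreeGroup.lift f (alt (FreeGroup.of a) (FreeGroup.of b) (M i j))
        = alt (f a) (f b) (M i j) := by
      intro a b
      rw [map_alt]; simp
    change FreeGroup.lift f (alt (FreeGroup.of i) (FreeGroup.of j) (M i j) *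
      (alt (FreeGroup.of j) (FreeGroup.of i) (M i j))⁻¹) = 1
    rw [map_mul, map_inv, h1, h1, hf i j, mul_inv_cancel])

@[simp] lemma lift_gen {G : Type*} [Group G] (f : B → G)
    (hf : ∀ i j, alt (f i) (f j) (M i j) = alt (f j) (f i) (M i j)) (i : B) :
    lift f hf (gen M i) = f i := by
  simp [lift, gen]

lemma hom_ext {G : Type*} [Group G] {f g : Artin M →* G}
    (h : ∀ i, f (gen M i) = g (gen M i)) : f = g := by
  apply PresentedGroup.ext
  exact h

lemma closure_range_gen : Subgroup.closure (Set.range (gen M)) = ⊤ :=
  PresentedGroup.closure_range_of _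

lemma induction {p : Artin M → Prop} (one : p 1) (gen : ∀ i, p (gen M i))
    (mul : ∀ x y, p x → p y → p (x * y)) (inv : ∀ x, p x → p x⁻¹) (x : Artin M) : p x := by
  have hx : x ∈ Subgroup.closure (Set.range (Artin.gen M)) := by
    rw [closure_range_gen]; trivial
  induction hx using Subgroup.closure_induction with
  | mem x hx => obtain ⟨i, rfl⟩ := hx; exact gen i
  | one => exact one
  | mul x y _ _ hx hy => exact mul x y hx hy
  | inv x _ hx => exact inv x hx

end Artin

end Pool.Agent.Helper741
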