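import Pool.Agent.Helper741.Irreducible

set_option autoImplicit false

namespace Pool.Agent.Helper741

open CoxeterSystem

lemma dvd_sum_of_invariant {G : Type*} [Group G] [Fintype G] (H : Subgroup G) (g : G → ℤ)
    (hg : ∀ w, ∀ x ∈ H, g (w * x) = g w) : (Nat.card H : ℤ) ∣ ∑ w, g w := by
  classical
  rw [← Finset.sum_fiberwise (s := Finset.univ) (g := fun w => (QuotientGroup.mk w : G ⧸ H))]
  apply Finset.dvd_sum
  intro q _
  obtain ⟨w₀, rfl⟩ := QuotientGroup.mk_surjective q
  have h1 : ∀ w ∈ Finset.univ.filter (fun w => (QuotientGroup.mk w : G ⧸ H) = QuotientGroup.mk w₀),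
      g w = g w₀ := by
    intro w hw
    rw [Finset.mem_filter] at hw
    have h2 : w₀⁻¹ * w ∈ H := QuotientGroup.eq.mp hw.2.symm
    have h3 := hg w₀ _ h2
    rwa [mul_inv_cancel_left] at h3
  rw [Finset.sum_congr rfl h1, Finset.sum_const, nsmul_eq_mul]
  apply dvd_mul_of_dvd_left
  have h4 : Finset.univ.filter (fun w => (QuotientGroup.mk w : G ⧸ H) = QuotientGroup.mk w₀) =
      (Finset.univ : Finset H).map
        ((Function.Embedding.subtype (fun x => x ∈ H)).trans (mulLeftEmbedding w₀)) := by
    ext w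
    rw [Finset.mem_filter, Finset.mem_map]
    constructor
    · rintro ⟨-, hw⟩
      exact ⟨⟨w₀⁻¹ * w, QuotientGroup.eq.mp hw.symm⟩, Finset.mem_univ _, by simp⟩
    · rintro ⟨x, -, rfl⟩
      refine ⟨Finset.mem_univ _, ?_⟩
      rw [eq_comm, QuotientGroup.eq]
      simp
  rw [h4, Finset.card_map, Finset.card_univ, Nat.card_eq_fintype_card]

variable {B : Type*} {M : CoxeterMatrix B}
variable {W : Type*} [Group W] (cs : CoxeterSystem M W)

/-- class functions supported on reflections -/
structure ReflClassFun (v : W → ℤ) : Prop where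
  inv : ∀ w r, v (w * r * w⁻¹) = v r
  supp : ∀ r, v r ≠ 0 → ∃ (i : B) (w : W), r = w * cs.simple i * w⁻¹

section big

variable [Fintype B] [DecidableEq B] [Fintype W]

lemma class_scalar [Nonempty B] (hM : Irr M) (v : W → ℤ) (hv : ∀ w r, v (w * r * w⁻¹) = v r) :
    ∃ μ : ℝ, ∑ w : W, (v w : ℝ) • geo cs w = μ • (1 : Module.End ℝ (B → ℝ)) := by
  apply commutant hM
  intro i
  rw [← geo_simple cs, Finset.sum_mul, Finset.mul_sum]
  rw [← Equiv.sum_comp (MulAut.conj (cs.simple i)).toEquiv
    (fun w => ((v w : ℝ) • geo cs w) * geo cs (cs.simple i))]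
  apply Finset.sum_congr rfl
  intro w _
  simp only [MulEquiv.toEquiv_eq_coe, EquivLike.coe_coe, MulAut.conj_apply]
  rw [hv, smul_mul_assoc, mul_smul_comm, ← map_mul, ← map_mul]
  congr 2
  group

lemma trace_conj_simple (i : B) (w : W) :
    LinearMap.trace ℝ _ (geo cs (w * cs.simple i * w⁻¹)) = (Fintype.card B : ℝ) - 2 := by
  rw [map_mul, LinearMap.trace_mul_comm, ← map_mul]
  have : w⁻¹ * (w * cs.simple i) = cs.simple i := by group
  rw [this, geo_simple, trace_sg]

theorem card_dvd_class_sum [Nonempty B] (hM : Irr M) (v : W → ℤ) (hv : ReflClassFun cs v) :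
    (Fintype.card B : ℤ) ∣ 2 * ∑ w, v w := by
  obtain ⟨μ, hμ⟩ := class_scalar cs hM v hv.inv
  have i₀ : B := Classical.arbitrary B
  -- integrality
  have hint : IsIntegral ℤ μ := by
    let N : Submodule ℤ (B → ℝ) := Submodule.span ℤ (Set.range (fun w : W => geo cs w (ee i₀)))
    apply isIntegral_of_smul_mem_submodule N
    · intro h
      have h1 : geo cs 1 (ee i₀) ∈ N := Submodule.subset_span ⟨1, rfl⟩
      rw [h, Submodule.mem_bot] at h1
      exact geo_ee_ne_zero cs 1 i₀ h1
    · exact Submodule.fg_span (Set.finite_range _)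
    · intro n hn
      induction hn using Submodule.span_induction with
      | mem x hx =>
        obtain ⟨u, rfl⟩ := hx
        have h1 := congrArg (fun S : Module.End ℝ (B → ℝ) => S (geo cs u (ee i₀))) hμ
        simp only [LinearMap.smul_apply, Module.End.one_apply, LinearMap.sum_apply] at h1
        simp only
        rw [← h1]
        apply Submodule.sum_mem
        intro w _
        rw [← Module.End.mul_apply, ← map_mul]
        have h2 : geo cs (w * u) (ee i₀) ∈ N := Submodule.subset_span ⟨w * u, rfl⟩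
        have h3 := N.smul_mem (v w) h2
        rwa [← Int.cast_smul_eq_zsmul ℝ] at h3
      | zero => rw [smul_zero]; exact N.zero_mem
      | add x y _ _ hx hy => rw [smul_add]; exact N.add_mem hx hy
      | smul a x _ hx =>
        rw [smul_comm]
        exact N.smul_mem a hx
  -- trace
  have htr : ((Fintype.card B : ℝ) - 2) * ∑ w, (v w : ℝ) = μ * (Fintype.card B : ℝ) := by
    have h1 := congrArg (LinearMap.trace ℝ (B → ℝ)) hμ
    rw [map_sum, map_smul, LinearMap.trace_one, smul_eq_mul] at h1
    rw [Finset.mul_sum]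
    have h2 : ∀ w : W, LinearMap.trace ℝ (B → ℝ) ((v w : ℝ) • geo cs w) =
        ((Fintype.card B : ℝ) - 2) * (v w : ℝ) := by
      intro w
      rw [map_smul, smul_eq_mul]
      by_cases h0 : v w = 0
      · rw [h0]; simp
      · obtain ⟨i, u, hu⟩ := hv.supp w h0
        rw [hu, trace_conj_simple]
        ring
    rw [Finset.sum_congr rfl (fun w _ => h2 w)] at h1
    rw [h1]
    congr 1
    simp
  have hn : (Fintype.card B : ℝ) ≠ 0 := by
    have : 0 < Fintype.card B := Fintype.card_pos
    exact_mod_cast this.ne'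
  set n : ℕ := Fintype.card B with hnn
  set S : ℤ := ∑ w, v w with hS
  have hμ2 : μ = algebraMap ℚ ℝ ((((n : ℤ) - 2) * S : ℤ) / (n : ℤ) : ℚ) := by
    have : μ = ((n : ℝ) - 2) * (S : ℝ) / n := by
      rw [eq_div_iff hn, ← htr, hS]
      push_cast
      rfl
    rw [this]
    simp
  rw [hμ2, isIntegral_algebraMap_iff (algebraMap ℚ ℝ).injective, IsIntegrallyClosed.isIntegral_iff]
    at hint
  obtain ⟨z, hz⟩ := hint
  have hnq : ((n : ℤ) : ℚ) ≠ 0 := by
    have : 0 < n := Fintype.card_pos
    exact_mod_cast this.ne'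
  have hz2 : (z * (n : ℤ) : ℤ) = ((n : ℤ) - 2) * S := by
    rw [eq_div_iff hnq] at hz
    have h3 : ((z * (n : ℤ) : ℤ) : ℚ) = ((((n : ℤ) - 2) * S : ℤ) : ℚ) := by
      rw [← hz]
      simp
    exact_mod_cast h3
  exact ⟨S - z, by linarith⟩

end big

section dihedral

lemma liftable_sgn (M : CoxeterMatrix B) : M.IsLiftable (fun _ => (-1 : ℤˣ)) := by
  intro i j; simp

/-- sign character -/
def sgn : W →* ℤˣ := cs.lift ⟨fun _ => -1, liftable_sgn M⟩

lemma sgn_simple (i : B) : sgn cs (cs.simple i) = -1 :=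
  cs.lift_apply_simple (liftable_sgn M) i

lemma conj_rot {i j : B} (hB : ∀ k : B, k = i ∨ k = j) (w : W) :
    w * (cs.simple i * cs.simple j) * w⁻¹ =
      (cs.simple i * cs.simple j) ^ ((sgn cs w : ℤˣ) : ℤ) := by
  have hinv : (cs.simple i * cs.simple j)⁻¹ = cs.simple j * cs.simple i := by
    rw [mul_inv_rev, cs.inv_simple, cs.inv_simple]
  have hs : ∀ k : B, cs.simple k * (cs.simple i * cs.simple j) * (cs.simple k)⁻¹ =
      (cs.simple i * cs.simple j)⁻¹ := by
    intro k
    rw [hinv, cs.inv_simple]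
    rcases hB k with rfl | rfl
    · rw [← mul_assoc, cs.simple_mul_simple_self, one_mul]
    · rw [mul_assoc, mul_assoc, cs.simple_mul_simple_self, mul_one]
  induction w using cs.simple_induction_left with
  | one => simp
  | mul_simple_left w k ih =>
    have h1 : cs.simple k * w * (cs.simple i * cs.simple j) * (cs.simple k * w)⁻¹ =
        cs.simple k * (w * (cs.simple i * cs.simple j) * w⁻¹) * (cs.simple k)⁻¹ := by group
    rw [h1, ih, ← conj_zpow, hs, map_mul, sgn_simple, inv_zpow']
    simp

theorem order_dvd_class_sum [Fintype W] {i j : B} (hB : ∀ k : B, k = i ∨ k = j) (v : W → ℤ)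
    (hv : ReflClassFun cs v) :
    (orderOf (cs.simple i * cs.simple j) : ℤ) ∣ 2 * ∑ w, v w := by
  set ρ := cs.simple i * cs.simple j with hρ
  have hsgnρ : sgn cs ρ = 1 := by
    rw [hρ, map_mul, sgn_simple, sgn_simple]
    simp
  have hrefl : ∀ w, sgn cs w = 1 → v w = 0 := by
    intro w hw
    by_contra h0
    obtain ⟨k, u, hu⟩ := hv.supp w h0
    rw [hu, map_mul, map_mul, sgn_simple, map_inv] at hw
    have : sgn cs u * -1 * (sgn cs u)⁻¹ = -1 := by
      rw [mul_comm (sgn cs u), mul_assoc, mul_inv_cancel, mul_one]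
    rw [this] at hw
    exact absurd hw (by decide)
  have h2 : ∀ w, v (ρ * (ρ * w)) = v w := by
    intro w
    rcases Int.units_eq_one_or (sgn cs w) with h | h
    · rw [hrefl w h, hrefl]
      rw [map_mul (sgn cs) ρ (ρ * w), map_mul (sgn cs) ρ w, hsgnρ, h]
      simp
    · have h3 := conj_rot cs hB w
      rw [← hρ, h] at h3
      have h4 : ρ * w = w * ρ⁻¹ := by
        have : w * ρ * w⁻¹ = ρ⁻¹ := by simpa using h3
        have h5 : w * ρ = ρ⁻¹ * w := by
          rw [← this]; group
        calc ρ * w = ρ * (w * ρ) * ρ⁻¹ := by group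
          _ = ρ * (ρ⁻¹ * w) * ρ⁻¹ := by rw [h5]
          _ = w * ρ⁻¹ := by group
      rw [h4, ← mul_assoc, hv.inv]
  set g : W → ℤ := fun w => v w⁻¹ + v (ρ * w⁻¹) with hg
  have hg1 : ∀ w, g (w * ρ⁻¹) = g w := by
    intro w
    simp only [hg, mul_inv_rev, inv_inv]
    rw [h2]
    ring
  have hg2 : ∀ w, ∀ x ∈ Subgroup.zpowers ρ⁻¹, g (w * x) = g w := by
    intro w x hx
    obtain ⟨k, rfl⟩ := Subgroup.mem_zpowers_iff.mp hx
    induction k using Int.induction_on generalizing w with
    | zero => simp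
    | succ k ih =>
      rw [zpow_add, zpow_one, ← mul_assoc, hg1]
      exact ih w (Subgroup.zpow_mem _ (Subgroup.mem_zpowers _) _)
    | pred k ih =>
      rw [zpow_sub, zpow_one, ← hg1 (w * _), ← mul_assoc, inv_mul_cancel_right]
      exact ih w (Subgroup.zpow_mem _ (Subgroup.mem_zpowers _) _)
  have h3 := dvd_sum_of_invariant (Subgroup.zpowers ρ⁻¹) g hg2
  rw [Nat.card_zpowers, orderOf_inv] at h3
  have h4 : ∑ w, g w = 2 * ∑ w, v w := by
    simp only [hg, Finset.sum_add_distrib]
    have e1 : ∑ w, v w⁻¹ = ∑ w, v w := Equiv.sum_comp (Equiv.inv W) v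
    have e2 : ∑ w, v (ρ * w⁻¹) = ∑ w, v w := by
      have e3 : ∑ w, v (ρ * w⁻¹) = ∑ w, v (ρ * w) :=
        Equiv.sum_comp (Equiv.inv W) (fun w => v (ρ * w))
      have e4 : ∑ w, v (ρ * w) = ∑ w, v w := Equiv.sum_comp (Equiv.mulLeft ρ) v
      rw [e3, e4]
    rw [e1, e2]
    ring
  rwa [h4] at h3

end dihedral

section final

variable [Fintype B] [DecidableEq B]

theorem exists_dvd_class_sum [Fintype W] (hM : Irr M) (hB : 2 ≤ Fintype.card B) :
    ∃ p : ℕ, 2 ≤ p ∧ ∀ v : W → ℤ, ReflClassFun cs v → (p : ℤ) ∣ ∑ w, v w := by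
  have hne : Nonempty B := Fintype.card_pos_iff.mp (by omega)
  obtain ⟨q, hq3, hq⟩ : ∃ q : ℕ, 3 ≤ q ∧
      ∀ v : W → ℤ, ReflClassFun cs v → (q : ℤ) ∣ 2 * ∑ w, v w := by
    by_cases h3 : 3 ≤ Fintype.card B
    · exact ⟨Fintype.card B, h3, fun v hv => card_dvd_class_sum cs hM v hv⟩
    · have h2 : Fintype.card B = 2 := by omega
      obtain ⟨i, j, hij, huniv⟩ := Finset.card_eq_two.mp (Finset.card_univ.trans h2)
      have hB' : ∀ k : B, k = i ∨ k = j := by
        intro k
        have : k ∈ ({i, j} : Finset B) := by rw [← huniv]; exact Finset.mem_univ k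
        simpa using this
      refine ⟨orderOf (cs.simple i * cs.simple j), ?_, fun v hv =>
        order_dvd_class_sum cs hB' v hv⟩
      have hpos : 0 < orderOf (cs.simple i * cs.simple j) := orderOf_pos _
      have hM2 : M i j ≠ 2 := by
        intro hM2
        rcases hM {i} (by
          intro a ha b hb
          rw [Set.mem_singleton_iff] at ha
          rw [Set.mem_singleton_iff] at hb
          subst ha
          have := (hB' b).resolve_left hb
          rw [this, hM2]) with h | h
        · exact Set.singleton_ne_empty _ h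
        · have : j ∈ ({i} : Set B) := by rw [h]; trivial
          exact hij (Set.mem_singleton_iff.mp this).symm
      have h1 : orderOf (cs.simple i * cs.simple j) ≠ 1 := by
        intro h
        rw [orderOf_eq_one_iff] at h
        apply hij
        apply simple_injective cs
        have := eq_inv_of_mul_eq_one_left h
        rw [this, cs.inv_simple]
      have h2' : orderOf (cs.simple i * cs.simple j) ≠ 2 := by
        intro h
        have hp := pow_orderOf_eq_one (cs.simple i * cs.simple j)
        rw [h, pow_two] at hp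
        have h3 : cs.simple i * cs.simple j = cs.simple j * cs.simple i := by
          have := eq_inv_of_mul_eq_one_left hp
          rw [this, mul_inv_rev, cs.inv_simple, cs.inv_simple]
        have h4 := congrArg (fun w => geo cs w (ee i)) h3
        simp only [map_mul, Module.End.mul_apply, geo_simple] at h4
        rw [sg_ee, map_add, map_smul, sg_ee_self, sg_ee, map_neg, sg_ee] at h4
        have h5 := congrFun h4 i
        simp only [ee, Pi.add_apply, Pi.neg_apply, Pi.smul_apply, Pi.single_apply, smul_eq_mul,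
          if_neg hij, if_true, mul_zero, mul_one, add_zero, zero_add, cc_symm M j i] at h5
        have h6 : cc M i j ^ 2 = 0 := by nlinarith
        exact cc_ne_zero hij hM2 (pow_eq_zero_iff (two_ne_zero) |>.mp h6)
      omega
  rcases Nat.even_or_odd q with he | ho
  · obtain ⟨m, hm⟩ := he
    refine ⟨m, by omega, fun v hv => ?_⟩
    have h := hq v hv
    rw [hm] at h
    have : ((m + m : ℕ) : ℤ) = 2 * (m : ℤ) := by push_cast; ring
    rw [this] at h
    exact (mul_dvd_mul_iff_left (by norm_num : (2 : ℤ) ≠ 0)).mp h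
  · refine ⟨q, by omega, fun v hv => ?_⟩
    have h := hq v hv
    apply IsCoprime.dvd_of_dvd_mul_left _ h
    rw [Int.isCoprime_iff_gcd_eq_one]
    have : Int.gcd (q : ℤ) 2 = Nat.gcd q 2 := rfl
    rw [this]
    exact Nat.coprime_two_right.mpr ho |>.gcd_eq_one

end final

end Pool.Agent.Helper741
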