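import Pool.Agent.Helper741.PureCenter

set_option autoImplicit false

namespace Pool.Agent.Helper741

open CoxeterSystem

variable {B : Type*} {M : CoxeterMatrix B} [Fintype B] [DecidableEq B]
variable {W : Type*} [Group W] (cs : CoxeterSystem M W)

/-- bounded length implies finite -/
lemma finite_of_length_le (N : ℕ) (h : ∀ w, cs.length w ≤ N) : Finite W := by
  have hf : Set.Finite {l : List B | l.length ≤ N} := List.finite_length_le B N
  have : Finite {l : List B | l.length ≤ N} := hf
  apply Finite.of_surjective (fun l : {l : List B | l.length ≤ N} => cs.wordProd l.1)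
  intro w
  exact ⟨⟨rword cs w, by
    change (rword cs w).length ≤ N
    rw [rword_length]; exact h w⟩, rword_prod cs w⟩

lemma length_add_of_neg {w₀ : W} (h : ∀ v : B → ℝ, 0 ≤ v → geo cs w₀ v ≤ 0) (w : W) :
    cs.length (w₀ * w) + cs.length w = cs.length w₀ := by
  induction hn : cs.length w using Nat.strong_induction_on generalizing w with
  | _ n ih =>
  by_cases hw : w = 1
  · subst hw
    rw [mul_one, ← hn, cs.length_one, add_zero]
  obtain ⟨i, hi⟩ := cs.exists_rightDescent_of_ne_one hw
  have hi' : cs.length (w * cs.simple i) + 1 = cs.length w := cs.isRightDescent_iff.mp hi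
  have h1 := ih (cs.length (w * cs.simple i)) (by omega) (w * cs.simple i) rfl
  have h2 : 0 ≤ geo cs (w * cs.simple i) (ee i) := by
    apply geo_nonneg
    rw [cs.simple_mul_simple_cancel_right]
    omega
  have h3 : geo cs (w₀ * (w * cs.simple i)) (ee i) ≤ 0 := by
    rw [map_mul, Module.End.mul_apply]
    exact h _ h2
  rw [geo_nonpos_iff, ← mul_assoc, cs.simple_mul_simple_cancel_right, mul_assoc] at h3
  rcases cs.length_mul_simple (w₀ * w) i with h4 | h4
  · rw [mul_assoc] at h4
    omega
  · rw [mul_assoc] at h4
    omega

/-- The centre of an infinite irreducible Coxeter group of finite rank is trivial. -/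
theorem center_trivial (hM : Irr M) (hinf : Infinite W) {w : W}
    (hw : ∀ i, w * cs.simple i = cs.simple i * w) : w = 1 := by
  by_cases hB : Nonempty B
  · have i₀ : B := Classical.arbitrary B
    have hU := hM {i | geo cs w (ee i) = ee i} (by
      intro i hi j hj
      simp only [Set.mem_ofPred_eq] at hi hj
      by_contra h2
      have hij : i ≠ j := by rintro rfl; exact hj hi
      have hc := cc_ne_zero hij h2
      have hj' : geo cs w (ee j) = - ee j := (geo_eq_smul_of_commute cs (hw j)).resolve_left hj
      have h := congrArg (fun u => geo cs u (ee i)) (hw j)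
      simp only [map_mul, Module.End.mul_apply, geo_simple] at h
      rw [sg_ee, map_add, map_smul, hi, hj', sg_ee] at h
      have h3 := congrFun h j
      simp only [ee, Pi.add_apply, Pi.neg_apply, Pi.smul_apply, Pi.single_apply, smul_eq_mul,
        if_neg hij.symm, if_true, mul_one, zero_add] at h3
      apply hc
      linarith)
    rcases hU with h | h
    · exfalso
      have hneg : ∀ i, geo cs w (ee i) = - ee i := by
        intro i
        apply (geo_eq_smul_of_commute cs (hw i)).resolve_left
        intro hcon
        have : i ∈ ({i | geo cs w (ee i) = ee i} : Set B) := hcon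
        rw [h] at this
        exact this
      have hneg' : ∀ v : B → ℝ, 0 ≤ v → geo cs w v ≤ 0 := by
        intro v hv
        have h1 : v = ∑ i, v i • ee i := by
          ext j
          simp [ee, Finset.sum_apply, Pi.single_apply]
        rw [h1, map_sum]
        apply Finset.sum_nonpos
        intro i _
        rw [map_smul, hneg]
        apply smul_nonpos_of_nonneg_of_nonpos (hv i)
        exact neg_nonpos.mpr (ee_nonneg i)
      have hfin : Finite W := by
        apply finite_of_length_le cs (cs.length w)
        intro u
        have := length_add_of_neg cs hneg' u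
        omega
      exact not_finite W
    · apply eq_one_of_geo cs
      intro i
      have : i ∈ ({i | geo cs w (ee i) = ee i} : Set B) := by rw [h]; trivial
      have h2 : geo cs w (ee i) = ee i := this
      rw [h2]
      exact ee_nonneg i
  · rw [not_nonempty_iff] at hB
    apply eq_one_of_geo cs
    intro i
    exact hB.elim i

/-- all reflection classes are infinite in an irreducible infinite Coxeter group -/
lemma classes_infinite (hM : Irr M) (hinf : Infinite W) (i : B) :
    (Set.range (fun w : W => w * cs.simple i * w⁻¹)).Infinite := by
  have hU := hM {i | (Set.range (fun w : W => w * cs.simple i * w⁻¹)).Finite} (by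
    intro i hi j hj
    by_contra h2
    have hij : i ≠ j := by rintro rfl; exact hj hi
    exact hj (class_finite_of_adj cs hij h2 hi))
  intro hfin
  rcases hU with h | h
  · have : i ∈ ({i | (Set.range (fun w : W => w * cs.simple i * w⁻¹)).Finite} : Set B) := hfin
    rw [h] at this
    exact this
  · have : Finite W := finite_of_classes_finite cs (by
      intro j
      have : j ∈ ({i | (Set.range (fun w : W => w * cs.simple i * w⁻¹)).Finite} : Set B) := by
        rw [h]; trivial
      exact this)
    exact not_finite W

/-- **The centre of an irreducible Artin group of infinite type lies in the commutator subgroup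
of the pure Artin group.** -/
theorem center_le (hM : Irr M) (hinf : Infinite W) :
    Subgroup.center (Artin M) ≤ PP cs := by
  intro z hz
  have hz' : ∀ y, z * y = y * z := fun y => ((Subgroup.mem_center_iff.mp hz) y).symm
  have hw : Artin.toCox cs z = 1 := by
    apply center_trivial cs hM hinf
    intro i
    rw [← Artin.toCox_gen cs i, ← map_mul, hz', map_mul]
  have h0 : (uc cs z).v = 0 := by
    ext r
    by_contra hr
    obtain ⟨i, w, hi, hw⟩ := cocyc_support cs _ z r hr
    apply classes_infinite cs hM hinf i
    apply Set.Finite.subset (Finsupp.hasFiniteSupport (uc cs z).v)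
    rintro _ ⟨u, rfl⟩
    have h1 := cocyc_central cs (lenHom M) z hz (u * w⁻¹) r
    have h2 : u * w⁻¹ * r * (u * w⁻¹)⁻¹ = u * cs.simple i * u⁻¹ := by
      rw [hw]; group
    rw [h2] at h1
    simp only [Function.mem_support]
    rw [h1]
    exact hr
  exact mem_PP_of_uc cs hw h0

end Pool.Agent.Helper741
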