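import Pool.Agent.Helper741.FiniteClass

set_option autoImplicit false

namespace Pool.Agent.Helper741

open CoxeterSystem TExt

variable {B : Type*} {M : CoxeterMatrix B} {W : Type*} [Group W] (cs : CoxeterSystem M W)

lemma liftable_el : M.IsLiftable (fun i => (el 1 (cs.simple i) : TExt (ZMod 2) W)) := by
  intro i j
  rw [← alt_mul_two]
  apply TExt.ext
  · rw [alt_el_v (cs.simple_mul_simple_self i) (cs.simple_mul_simple_self j), two_mul,
      Finset.sum_range_add]
    have h : ∀ t, (cs.simple i * cs.simple j) ^ (M i j + t) = (cs.simple i * cs.simple j) ^ t := by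
      intro t
      rw [pow_add, cs.simple_mul_simple_pow, one_mul]
    simp only [h, ite_self]
    rw [← two_nsmul]
    ext r
    rw [one_v, Finsupp.smul_apply, Finsupp.zero_apply]
    rw [nsmul_eq_mul]
    have : ((2 : ℕ) : ZMod 2) = 0 := rfl
    rw [this, zero_mul]
  · rw [alt_w, el_w, el_w, alt_mul_two, cs.simple_mul_simple_pow, one_w]

/-- The mod 2 inversion cocycle. -/
noncomputable def invc : W →* TExt (ZMod 2) W :=
  cs.lift ⟨fun i => el 1 (cs.simple i), liftable_el cs⟩

@[simp] lemma invc_simple (i : B) : invc cs (cs.simple i) = el 1 (cs.simple i) :=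
  cs.lift_apply_simple (liftable_el cs) i

@[simp] lemma invc_w (w : W) : (invc cs w).w = w := by
  have : (TExt.toW).comp (invc cs) = MonoidHom.id W := by
    apply cs.ext_simple
    intro i
    simp
  exact DFunLike.congr_fun this w

lemma mem_leftInvSeq_of_invc (ω : List B) (t : W) (h : (invc cs (cs.wordProd ω)).v t ≠ 0) :
    t ∈ cs.leftInvSeq ω := by
  classical
  induction ω generalizing t with
  | nil => simp at h
  | cons i ω ih =>
    rw [cs.wordProd_cons, map_mul, mul_v, Finsupp.add_apply, invc_simple, el_v, el_w, act_apply,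
      Finsupp.single_apply] at h
    rw [leftInvSeq, List.mem_cons]
    by_cases h1 : cs.simple i = t
    · left; exact h1.symm
    · right
      rw [if_neg h1, zero_add] at h
      rw [List.mem_map]
      refine ⟨_, ih _ h, ?_⟩
      simp only [MulAut.conj_apply]
      group

/-- Exchange, in terms of the inversion sequence. -/
lemma simple_mem_leftInvSeq (ω : List B) (i : B)
    (h : cs.length (cs.simple i * cs.wordProd ω) < cs.length (cs.wordProd ω)) :
    cs.simple i ∈ cs.leftInvSeq ω := by
  classical
  apply mem_leftInvSeq_of_invc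
  intro h0
  obtain ⟨ω', hred, hω'⟩ := cs.exists_isReduced (cs.simple i * cs.wordProd ω)
  have h1 : (invc cs (cs.wordProd ω')).v (cs.simple i) ≠ 0 := by
    rw [← hω', map_mul, mul_v, Finsupp.add_apply, invc_simple, el_v, el_w, act_apply,
      Finsupp.single_apply, if_pos rfl]
    have : (cs.simple i)⁻¹ * cs.simple i * cs.simple i = cs.simple i := by group
    rw [this, h0, add_zero]
    exact one_ne_zero
  have h2 := mem_leftInvSeq_of_invc cs ω' _ h1
  have h3 := (cs.isLeftInversion_of_mem_leftInvSeq hred h2).2
  rw [← hω', cs.simple_mul_simple_cancel_left] at h3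
  omega

/-- Exchange condition. -/
theorem exchange (ω : List B) (i : B)
    (h : cs.length (cs.simple i * cs.wordProd ω) < cs.length (cs.wordProd ω)) :
    ∃ j, j < ω.length ∧ cs.simple i * cs.wordProd ω = cs.wordProd (ω.eraseIdx j) := by
  have h1 := simple_mem_leftInvSeq cs ω i h
  obtain ⟨j, hj, hji⟩ := List.mem_iff_getElem.mp h1
  refine ⟨j, by simpa using hj, ?_⟩
  rw [← hji, ← List.getD_eq_getElem _ 1 hj, cs.getD_leftInvSeq_mul_wordProd]

end Pool.Agent.Helper741
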