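import Pool.Agent.Helper741.Tits

set_option autoImplicit false

namespace Pool.Agent.Helper741

open CoxeterSystem

variable {B : Type*} {M : CoxeterMatrix B} [Fintype B] [DecidableEq B]

variable (M) in
/-- twice the symmetric form -/
noncomputable def bil (v v' : B → ℝ) : ℝ := ∑ i, v i * coroot M i v'

lemma coroot_apply (i : B) (v : B → ℝ) : coroot M i v = ∑ j, -2 * cc M i j * v j := by
  simp [coroot, LinearMap.sum_apply]

lemma bil_symm (v v' : B → ℝ) : bil M v v' = bil M v' v := by
  unfold bil
  simp only [coroot_apply, Finset.mul_sum]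
  rw [Finset.sum_comm]
  apply Finset.sum_congr rfl
  intro i _
  apply Finset.sum_congr rfl
  intro j _
  rw [cc_symm M j i]
  ring

lemma bil_sub_left (v v' u : B → ℝ) : bil M (v - v') u = bil M v u - bil M v' u := by
  simp [bil, sub_mul, Finset.sum_sub_distrib]

lemma bil_smul_left (a : ℝ) (v u : B → ℝ) : bil M (a • v) u = a * bil M v u := by
  simp [bil, Finset.mul_sum, mul_assoc]

lemma bil_sub_right (v v' u : B → ℝ) : bil M u (v - v') = bil M u v - bil M u v' := by
  rw [bil_symm, bil_sub_left, bil_symm v, bil_symm v']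

lemma bil_smul_right (a : ℝ) (v u : B → ℝ) : bil M u (a • v) = a * bil M u v := by
  rw [bil_symm, bil_smul_left, bil_symm v]

lemma bil_ee_left (i : B) (v : B → ℝ) : bil M (ee i) v = coroot M i v := by
  simp [bil, ee, Pi.single_apply]

lemma bil_ee_right (i : B) (v : B → ℝ) : bil M v (ee i) = coroot M i v := by
  rw [bil_symm, bil_ee_left]

lemma bil_sg (i : B) (v v' : B → ℝ) : bil M (sg M i v) (sg M i v') = bil M v v' := by
  simp only [sg_apply, bil_sub_left, bil_sub_right, bil_smul_left, bil_smul_right, bil_ee_left,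
    bil_ee_right, map_sub, map_smul, smul_eq_mul, coroot_ee, cc_self]
  ring

variable {W : Type*} [Group W] (cs : CoxeterSystem M W)

lemma bil_geo (w : W) (v v' : B → ℝ) : bil M (geo cs w v) (geo cs w v') = bil M v v' := by
  induction w using cs.simple_induction_left generalizing v v' with
  | one => simp
  | mul_simple_left w i ih =>
    rw [map_mul, Module.End.mul_apply, Module.End.mul_apply, geo_simple, bil_sg, ih]

lemma geo_conj_simple (w : W) (j : B) (v : B → ℝ) :
    geo cs (w * cs.simple j * w⁻¹) v = v - bil M (geo cs w (ee j)) v • geo cs w (ee j) := by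
  rw [map_mul, map_mul, Module.End.mul_apply, Module.End.mul_apply, geo_simple, sg_apply, map_sub,
    geo_apply_inv, map_smul, ← bil_ee_left, ← bil_geo cs w, geo_apply_inv]

lemma conj_eq_of_geo_eq {w w' : W} {j : B} (h : geo cs w (ee j) = geo cs w' (ee j)) :
    w * cs.simple j * w⁻¹ = w' * cs.simple j * w'⁻¹ := by
  apply geo_injective cs
  apply LinearMap.ext
  intro v
  rw [geo_conj_simple, geo_conj_simple, h]

lemma geo_eq_smul_of_commute {g : W} {i : B} (h : g * cs.simple i = cs.simple i * g) :
    geo cs g (ee i) = ee i ∨ geo cs g (ee i) = - ee i := by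
  have h1 : sg M i (geo cs g (ee i)) = - geo cs g (ee i) := by
    rw [← geo_simple cs, ← Module.End.mul_apply, ← map_mul, ← h, map_mul, Module.End.mul_apply,
      geo_simple, sg_ee_self, map_neg]
  rw [sg_apply] at h1
  set κ : ℝ := coroot M i (geo cs g (ee i)) / 2 with hκ
  have h2 : geo cs g (ee i) = κ • ee i := by
    calc geo cs g (ee i) = (1 / 2 : ℝ) • ((geo cs g (ee i) -
          coroot M i (geo cs g (ee i)) • ee i) + geo cs g (ee i) +
          coroot M i (geo cs g (ee i)) • ee i) := by module
      _ = (1 / 2 : ℝ) • ((- geo cs g (ee i)) + geo cs g (ee i) +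
          coroot M i (geo cs g (ee i)) • ee i) := by rw [h1]
      _ = κ • ee i := by rw [hκ]; module
  have h3 := bil_geo cs g (ee i) (ee i)
  rw [h2, bil_smul_left, bil_smul_right, bil_ee_left, coroot_ee, cc_self] at h3
  have h4 : (κ - 1) * (κ + 1) = 0 := by nlinarith
  rcases mul_eq_zero.mp h4 with h5 | h5
  · left
    rw [h2, sub_eq_zero.mp h5, one_smul]
  · right
    rw [h2, eq_neg_of_add_eq_zero_left h5, neg_one_smul]

lemma finite_range_of_factor {α β γ : Type*} (h : α → β) (c : α → γ) (hf : (Set.range h).Finite)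
    (hc : ∀ x y, h x = h y → c x = c y) : (Set.range c).Finite := by
  classical
  by_cases hne : Nonempty α
  · apply Set.Finite.subset (hf.image (fun p => c (Function.invFun h p)))
    rintro _ ⟨x, rfl⟩
    refine ⟨h x, ⟨x, rfl⟩, ?_⟩
    apply hc
    exact Function.invFun_eq ⟨x, rfl⟩
  · rw [not_nonempty_iff] at hne
    rw [Set.range_eq_empty]
    exact Set.finite_empty

/-- finite class of reflections implies finite orbit of roots -/
lemma orbit_finite_of_class_finite {i : B}
    (h : (Set.range (fun w : W => w * cs.simple i * w⁻¹)).Finite) :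
    (Set.range (fun w : W => geo cs w (ee i))).Finite := by
  classical
  have key : ∀ w w' : W, w * cs.simple i * w⁻¹ = w' * cs.simple i * w'⁻¹ →
      geo cs w (ee i) = geo cs w' (ee i) ∨ geo cs w (ee i) = - geo cs w' (ee i) := by
    intro w w' hw
    have hcomm : (w'⁻¹ * w) * cs.simple i = cs.simple i * (w'⁻¹ * w) := by
      calc (w'⁻¹ * w) * cs.simple i = w'⁻¹ * (w * cs.simple i * w⁻¹) * w := by group
        _ = w'⁻¹ * (w' * cs.simple i * w'⁻¹) * w := by rw [hw]
        _ = _ := by group
    have hw2 : w = w' * (w'⁻¹ * w) := by group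
    rcases geo_eq_smul_of_commute cs hcomm with h1 | h1
    · left
      conv_lhs => rw [hw2]
      rw [map_mul, Module.End.mul_apply, h1]
    · right
      conv_lhs => rw [hw2]
      rw [map_mul, Module.End.mul_apply, h1, map_neg]
  set c : W → W := fun w => w * cs.simple i * w⁻¹ with hc
  apply Set.Finite.subset
    ((h.image (fun r => geo cs (Function.invFun c r) (ee i))).union
      (h.image (fun r => - geo cs (Function.invFun c r) (ee i))))
  rintro _ ⟨w, rfl⟩
  have h1 : c (Function.invFun c (c w)) = c w := Function.invFun_eq ⟨w, rfl⟩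
  rcases key w (Function.invFun c (c w)) h1.symm with h2 | h2
  · left
    exact ⟨c w, ⟨w, rfl⟩, h2.symm⟩
  · right
    exact ⟨c w, ⟨w, rfl⟩, h2.symm⟩

lemma cc_ne_zero {i j : B} (hij : i ≠ j) (h2 : M i j ≠ 2) : cc M i j ≠ 0 := by
  by_cases h0 : M i j = 0
  · rw [cc_of_zero M h0]; norm_num
  · have h3 : 3 ≤ M i j := by
      have := two_le_of_ne M hij h0
      omega
    have h3' : (3 : ℝ) ≤ (M i j : ℝ) := by exact_mod_cast h3
    apply ne_of_gt
    apply Real.cos_pos_of_mem_Ioo
    constructor
    · have : 0 ≤ Real.pi / (M i j : ℝ) := by positivity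
      linarith [Real.pi_pos]
    · rw [div_lt_div_iff₀ (by linarith) (by norm_num)]
      nlinarith [Real.pi_pos]

/-- Finiteness of reflection classes propagates along edges. -/
theorem class_finite_of_adj {i j : B} (hij : i ≠ j) (h2 : M i j ≠ 2)
    (h : (Set.range (fun w : W => w * cs.simple i * w⁻¹)).Finite) :
    (Set.range (fun w : W => w * cs.simple j * w⁻¹)).Finite := by
  have ho := orbit_finite_of_class_finite cs h
  have hf : (Set.range (fun w : W => (geo cs w (ee i), geo cs (w * cs.simple j) (ee i)))).Finite := by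
    apply Set.Finite.subset (ho.prod ho)
    rintro _ ⟨w, rfl⟩
    exact ⟨⟨w, rfl⟩, ⟨w * cs.simple j, rfl⟩⟩
  apply finite_range_of_factor _ _ hf
  intro w w' hww
  simp only [Prod.mk.injEq] at hww
  obtain ⟨h1, h3⟩ := hww
  apply conj_eq_of_geo_eq
  rw [map_mul, Module.End.mul_apply, map_mul, Module.End.mul_apply, geo_simple, sg_ee, map_add,
    map_add, map_smul, map_smul, h1] at h3
  have h4 := add_left_cancel h3
  exact smul_right_injective _ (mul_ne_zero two_ne_zero (cc_ne_zero hij h2)) h4

/-- If all reflection classes are finite the group is finite. -/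
theorem finite_of_classes_finite
    (h : ∀ i : B, (Set.range (fun w : W => w * cs.simple i * w⁻¹)).Finite) : Finite W := by
  have ho : ∀ i : B, Finite (Set.range (fun w : W => geo cs w (ee i))) := fun i =>
    (orbit_finite_of_class_finite cs (h i)).to_subtype
  let F : W → (∀ i : B, Set.range (fun w : W => geo cs w (ee i))) := fun w i => ⟨_, ⟨w, rfl⟩⟩
  apply Finite.of_injective F
  intro w w' hww
  apply geo_injective cs
  apply LinearMap.pi_ext'
  intro i
  apply LinearMap.ext_ring
  have := congrArg Subtype.val (congrFun hww i)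
  simpa [F, ee] using this

end Pool.Agent.Helper741
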