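import Pool.Agent.Helper741.Matsumoto

set_option autoImplicit false

namespace Pool.Agent.Helper741

open CoxeterSystem

variable {B : Type*} {M : CoxeterMatrix B} [Fintype B] [DecidableEq B]
variable {W : Type*} [Group W] (cs : CoxeterSystem M W)

/-- a chosen reduced word -/
noncomputable def rword (w : W) : List B := (cs.exists_isReduced w).choose

lemma rword_reduced (w : W) : cs.IsReduced (rword cs w) := (cs.exists_isReduced w).choose_spec.1

lemma rword_prod (w : W) : cs.wordProd (rword cs w) = w :=
  (cs.exists_isReduced w).choose_spec.2.symm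

lemma rword_length (w : W) : (rword cs w).length = cs.length w := by
  rw [← (rword_reduced cs w).eq, rword_prod]

/-- the positive section -/
noncomputable def sec (w : W) : Artin M := ((rword cs w).map (Artin.gen M)).prod

lemma sec_eq (ω : List B) (h : cs.IsReduced ω) :
    sec cs (cs.wordProd ω) = (ω.map (Artin.gen M)).prod := by
  apply matsumoto cs (Artin.gen M) (fun i j => Artin.rel i j) _ _ (rword_reduced cs _) h
  rw [rword_prod]

lemma sec_mul_simple (w : W) (i : B) (h : cs.length w < cs.length (w * cs.simple i)) :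
    sec cs (w * cs.simple i) = sec cs w * Artin.gen M i := by
  have hl : cs.length (w * cs.simple i) = cs.length w + 1 := by
    rcases cs.length_mul_simple w i with h1 | h1 <;> omega
  have hred : cs.IsReduced (rword cs w ++ [i]) := by
    unfold CoxeterSystem.IsReduced
    rw [cs.wordProd_append, rword_prod, cs.wordProd_singleton, hl, List.length_append, rword_length]
    rfl
  have h2 := sec_eq cs _ hred
  rw [cs.wordProd_append, rword_prod, cs.wordProd_singleton] at h2
  rw [h2, List.map_append, List.prod_append]
  simp [sec]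

lemma sec_simple_mul (w : W) (i : B) (h : cs.length w < cs.length (cs.simple i * w)) :
    sec cs (cs.simple i * w) = Artin.gen M i * sec cs w := by
  have hl : cs.length (cs.simple i * w) = cs.length w + 1 := by
    rcases cs.length_simple_mul w i with h1 | h1 <;> omega
  have hred : cs.IsReduced (i :: rword cs w) := by
    unfold CoxeterSystem.IsReduced
    rw [cs.wordProd_cons, rword_prod, hl, List.length_cons, rword_length]
  have h2 := sec_eq cs _ hred
  rw [cs.wordProd_cons, rword_prod] at h2
  rw [h2, List.map_cons, List.prod_cons]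
  rfl

/-- length homomorphism -/
def lenHom (M : CoxeterMatrix B) : Artin M →* Multiplicative ℤ :=
  Artin.lift (fun _ => Multiplicative.ofAdd (1 : ℤ)) (fun _ _ => rfl)

@[simp] lemma lenHom_gen (i : B) : lenHom M (Artin.gen M i) = Multiplicative.ofAdd (1 : ℤ) := by
  simp [lenHom]

lemma lenHom_sec (w : W) : lenHom M (sec cs w) = Multiplicative.ofAdd (cs.length w : ℤ) := by
  rw [← rword_length, sec]
  generalize rword cs w = ω
  induction ω with
  | nil => simp
  | cons i ω ih =>
    rw [List.map_cons, List.prod_cons, map_mul, ih, lenHom_gen, ← ofAdd_add, List.length_cons]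
    congr 1
    push_cast
    ring

lemma exists_longest [Finite W] : ∃ w₀ : W, ∀ w, cs.length w ≤ cs.length w₀ :=
  Finite.exists_max cs.length

variable {cs} in
lemma longest_neg {w₀ : W} (h : ∀ w, cs.length w ≤ cs.length w₀) (v : B → ℝ) (hv : 0 ≤ v) :
    geo cs w₀ v ≤ 0 := by
  have h1 : v = ∑ i, v i • ee i := by
    ext j
    simp [ee, Finset.sum_apply, Pi.single_apply]
  rw [h1, map_sum]
  apply Finset.sum_nonpos
  intro i _
  rw [map_smul]
  apply smul_nonpos_of_nonneg_of_nonpos (hv i)
  rw [geo_nonpos_iff]
  have := h (w₀ * cs.simple i)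
  rcases cs.length_mul_simple w₀ i with h1 | h1 <;> omega

variable {cs} in
lemma longest_mul {w₀ : W} (h : ∀ w, cs.length w ≤ cs.length w₀) (w : W) :
    cs.length (w₀ * w) + cs.length w = cs.length w₀ := by
  induction hn : cs.length w using Nat.strong_induction_on generalizing w with
  | _ n ih =>
  by_cases hw : w = 1
  · subst hw
    rw [mul_one, ← hn, cs.length_one, add_zero]
  obtain ⟨i, hi⟩ := cs.exists_rightDescent_of_ne_one hw
  have hi' : cs.length (w * cs.simple i) + 1 = cs.length w := cs.isRightDescent_iff.mp hi
  have h1 := ih (cs.length (w * cs.simple i)) (by omega) (w * cs.simple i) rfl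
  have h2 : 0 ≤ geo cs (w * cs.simple i) (ee i) := by
    apply geo_nonneg
    rw [cs.simple_mul_simple_cancel_right]
    omega
  have h3 : geo cs (w₀ * (w * cs.simple i)) (ee i) ≤ 0 := by
    rw [map_mul, Module.End.mul_apply]
    exact longest_neg h _ h2
  rw [geo_nonpos_iff, ← mul_assoc, cs.simple_mul_simple_cancel_right, mul_assoc] at h3
  rcases cs.length_mul_simple (w₀ * w) i with h4 | h4
  · rw [mul_assoc] at h4
    omega
  · rw [mul_assoc] at h4
    omega

variable {cs} in
lemma longest_sq {w₀ : W} (h : ∀ w, cs.length w ≤ cs.length w₀) : w₀ * w₀ = 1 := by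
  have := longest_mul h w₀
  rw [← cs.length_eq_zero_iff]
  omega

variable {cs} in
lemma longest_conj {w₀ : W} (h : ∀ w, cs.length w ≤ cs.length w₀) (i : B) :
    ∃ j, w₀ * cs.simple i * w₀ = cs.simple j := by
  rw [← cs.length_eq_one_iff]
  have h1 := longest_mul h (cs.simple i * w₀)
  have h2 := longest_mul h (cs.simple i)
  have h3 : cs.length (cs.simple i * w₀) = cs.length (w₀ * cs.simple i) := by
    rw [← cs.length_inv, mul_inv_rev, cs.inv_simple, inv_eq_of_mul_eq_one_left (longest_sq h)]
  rw [cs.length_simple] at h2
  rw [mul_assoc]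
  omega

variable {cs} in
lemma delta_comm {w₀ : W} (h : ∀ w, cs.length w ≤ cs.length w₀) {i j : B}
    (hij : w₀ * cs.simple i * w₀ = cs.simple j) :
    sec cs w₀ * Artin.gen M i = Artin.gen M j * sec cs w₀ := by
  have h2 := longest_mul h (cs.simple i)
  rw [cs.length_simple] at h2
  have e1 : w₀ = (w₀ * cs.simple i) * cs.simple i := by
    rw [cs.simple_mul_simple_cancel_right]
  have e2 : w₀ = cs.simple j * (w₀ * cs.simple i) := by
    rw [← hij]
    have := longest_sq h
    calc w₀ = (w₀ * cs.simple i) * cs.simple i := e1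
      _ = (w₀ * cs.simple i) * (w₀ * w₀) * cs.simple i := by rw [this, mul_one]
      _ = _ := by simp only [mul_assoc]
  have s1 : sec cs w₀ = sec cs (w₀ * cs.simple i) * Artin.gen M i := by
    conv_lhs => rw [e1]
    apply sec_mul_simple
    rw [← e1]
    omega
  have s2 : sec cs w₀ = Artin.gen M j * sec cs (w₀ * cs.simple i) := by
    conv_lhs => rw [e2]
    apply sec_simple_mul
    rw [← e2]
    omega
  calc sec cs w₀ * Artin.gen M i
      = Artin.gen M j * sec cs (w₀ * cs.simple i) * Artin.gen M i := by rw [← s2]
    _ = Artin.gen M j * (sec cs (w₀ * cs.simple i) * Artin.gen M i) := by rw [mul_assoc]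
    _ = _ := by rw [← s1]

variable {cs} in
lemma delta_sq_center {w₀ : W} (h : ∀ w, cs.length w ≤ cs.length w₀) :
    sec cs w₀ * sec cs w₀ ∈ Subgroup.center (Artin M) := by
  rw [Subgroup.mem_center_iff]
  intro x
  have key : ∀ i : B, Artin.gen M i * (sec cs w₀ * sec cs w₀) =
      (sec cs w₀ * sec cs w₀) * Artin.gen M i := by
    intro i
    obtain ⟨j, hj⟩ := longest_conj h i
    have hi : w₀ * cs.simple j * w₀ = cs.simple i := by
      rw [← hj]
      have := longest_sq h
      calc w₀ * (w₀ * cs.simple i * w₀) * w₀ = (w₀ * w₀) * cs.simple i * (w₀ * w₀) := by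
            simp only [mul_assoc]
        _ = _ := by rw [this, one_mul, mul_one]
    have h1 := delta_comm h hj
    have h2 := delta_comm h hi
    rw [mul_assoc (sec cs w₀) (sec cs w₀) (Artin.gen M i), h1, ← mul_assoc (sec cs w₀), h2,
      mul_assoc]
  have hx : x ∈ Subgroup.centralizer {sec cs w₀ * sec cs w₀} := by
    have : (⊤ : Subgroup (Artin M)) ≤ Subgroup.centralizer {sec cs w₀ * sec cs w₀} := by
      rw [← Artin.closure_range_gen, Subgroup.closure_le]
      rintro _ ⟨i, rfl⟩
      rw [SetLike.mem_coe, Subgroup.mem_centralizer_iff]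
      rintro _ rfl
      exact (key i).symm
    exact this trivial
  rw [Subgroup.mem_centralizer_iff] at hx
  exact (hx _ rfl).symm

include cs in
/-- In a spherical Artin group some central element has nonzero length. -/
theorem exists_central_len [Finite W] [Nonempty B] :
    ∃ z ∈ Subgroup.center (Artin M), lenHom M z ≠ 1 := by
  obtain ⟨w₀, h⟩ := exists_longest cs
  refine ⟨_, delta_sq_center h, ?_⟩
  rw [map_mul, lenHom_sec, ← ofAdd_add]
  intro hcon
  have h1 : (cs.length w₀ : ℤ) + cs.length w₀ = 0 := by
    have := congrArg Multiplicative.toAdd hcon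
    simpa using this
  have i : B := Classical.arbitrary B
  have h2 := h (cs.simple i)
  rw [cs.length_simple] at h2
  omega

end Pool.Agent.Helper741
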