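import Pool.Agent.Helper741.Garside

set_option autoImplicit false

namespace Pool.Agent.Helper741

open CoxeterSystem

variable {B : Type*}

/-- Irreducibility of a Coxeter matrix. -/
def Irr (M : CoxeterMatrix B) : Prop :=
  ∀ U : Set B, (∀ i ∈ U, ∀ j ∉ U, M i j = 2) → U = ∅ ∨ U = Set.univ

variable {M : CoxeterMatrix B} [Fintype B] [DecidableEq B]

lemma commutant [Nonempty B] (hM : Irr M) (T : Module.End ℝ (B → ℝ))
    (hT : ∀ i, T * sg M i = sg M i * T) : ∃ μ : ℝ, T = μ • (1 : Module.End ℝ (B → ℝ)) := by
  have h1 : ∀ i, ∃ μ : ℝ, T (ee i) = μ • ee i := by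
    intro i
    have h := congrArg (fun S : Module.End ℝ (B → ℝ) => S (ee i)) (hT i)
    simp only [Module.End.mul_apply] at h
    rw [sg_ee_self, map_neg, sg_apply] at h
    refine ⟨coroot M i (T (ee i)) / 2, ?_⟩
    calc T (ee i) = (1 / 2 : ℝ) • ((T (ee i) - coroot M i (T (ee i)) • ee i) + T (ee i) +
          coroot M i (T (ee i)) • ee i) := by module
      _ = (1 / 2 : ℝ) • ((- T (ee i)) + T (ee i) +
          coroot M i (T (ee i)) • ee i) := by rw [h]
      _ = _ := by module
  choose μ hμ using h1
  have i₀ : B := Classical.arbitrary B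
  have hU := hM {i | μ i = μ i₀} (by
    intro i hi j hj
    simp only [Set.mem_ofPred_eq] at hi hj
    by_contra h2
    have hij : i ≠ j := by rintro rfl; exact hj hi
    have hc := cc_ne_zero hij h2
    have h := congrArg (fun S : Module.End ℝ (B → ℝ) => S (ee i)) (hT j)
    simp only [Module.End.mul_apply] at h
    rw [sg_ee, map_add, map_smul, hμ i, hμ j, map_smul, sg_ee] at h
    have h3 := congrFun h j
    simp only [ee, Pi.add_apply, Pi.smul_apply, Pi.single_apply, smul_eq_mul, if_neg hij.symm,
      if_true, mul_zero, mul_one, zero_add] at h3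
    apply hj
    have h4 : (2 * cc M i j) * (μ j - μ i) = 0 := by linear_combination h3
    rcases mul_eq_zero.mp h4 with h5 | h5
    · exact absurd h5 (mul_ne_zero two_ne_zero hc)
    · linarith)
  have hU' : {i | μ i = μ i₀} = Set.univ := by
    rcases hU with h | h
    · exfalso
      have : i₀ ∈ ({i | μ i = μ i₀} : Set B) := rfl
      rw [h] at this
      exact this
    · exact h
  refine ⟨μ i₀, ?_⟩
  apply LinearMap.pi_ext'
  intro i
  apply LinearMap.ext_ring
  have hi : μ i = μ i₀ := by
    have : i ∈ ({i | μ i = μ i₀} : Set B) := by rw [hU']; trivial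
    exact this
  have := hμ i
  simp only [LinearMap.comp_apply, LinearMap.single_apply, LinearMap.smul_apply,
    Module.End.one_apply]
  rw [← hi]
  exact this

lemma trace_mul_sg (T : Module.End ℝ (B → ℝ)) (i : B) :
    LinearMap.trace ℝ _ (T * sg M i) = LinearMap.trace ℝ _ T - coroot M i (T (ee i)) := by
  have h : T * sg M i = T - (coroot M i).smulRight (T (ee i)) := by
    apply LinearMap.ext
    intro v
    rw [Module.End.mul_apply, sg_apply, map_sub, map_smul]
    rfl
  rw [h, map_sub, LinearMap.trace_smulRight]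

lemma trace_sg (i : B) : LinearMap.trace ℝ _ (sg M i) = (Fintype.card B : ℝ) - 2 := by
  have h := trace_mul_sg (M := M) 1 i
  rw [one_mul, LinearMap.trace_one, Module.End.one_apply, coroot_ee, cc_self] at h
  rw [h]
  simp

lemma eq_one_of_involution (T : Module.End ℝ (B → ℝ)) (h : T * T = 1)
    (ht : LinearMap.trace ℝ _ T = (Fintype.card B : ℝ)) : T = 1 := by
  set E : Module.End ℝ (B → ℝ) := (1 / 2 : ℝ) • (1 - T) with hE
  have hi : IsIdempotentElem E := by
    unfold IsIdempotentElem
    rw [hE, smul_mul_smul_comm, mul_sub, sub_mul, sub_mul, h, one_mul, mul_one, one_mul]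
    module
  have h0 : E = 0 := by
    apply LinearMap.IsIdempotentElem.eq_zero_of_trace_eq_zero hi
    rw [hE, map_smul, map_sub, LinearMap.trace_one, ht]
    simp
  have h1 : (1 : Module.End ℝ (B → ℝ)) - T = 0 := by
    have : (1 : Module.End ℝ (B → ℝ)) - T = (2 : ℝ) • E := by rw [hE]; module
    rw [this, h0, smul_zero]
  exact (sub_eq_zero.mp h1).symm

lemma apply_eq_of_involution (T : Module.End ℝ (B → ℝ)) (h : T * T = 1)
    (ht : LinearMap.trace ℝ _ T = (Fintype.card B : ℝ)) (v : B → ℝ) : T v = v := by
  rw [eq_one_of_involution T h ht, Module.End.one_apply]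

lemma apply_eq_neg_of_involution (T : Module.End ℝ (B → ℝ)) (h : T * T = 1)
    (ht : LinearMap.trace ℝ _ T = - (Fintype.card B : ℝ)) (v : B → ℝ) : T v = - v := by
  have hT : ∀ v, T (T v) = v := by
    intro v
    rw [← Module.End.mul_apply, h, Module.End.one_apply]
  have h0 : ((-1 : ℝ) • T) * ((-1 : ℝ) • T) = 1 := by
    apply LinearMap.ext
    intro v
    rw [Module.End.mul_apply, LinearMap.smul_apply, LinearMap.smul_apply, map_smul, smul_smul, hT,
      Module.End.one_apply]
    norm_num
  have h1 := eq_one_of_involution ((-1 : ℝ) • T) h0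
    (by rw [map_smul, ht, smul_eq_mul]; ring)
  have h2 := congrArg (fun S : Module.End ℝ (B → ℝ) => S v) h1
  simp only [LinearMap.smul_apply, Module.End.one_apply, neg_one_smul] at h2
  rw [← neg_neg (T v), h2]

variable {W : Type*} [Group W] (cs : CoxeterSystem M W)

/-- acting as a scalar `±1` -/
def Scal (w : W) : Prop := (∀ v, geo cs w v = v) ∨ (∀ v, geo cs w v = - v)

lemma Scal.one : Scal cs 1 := Or.inl (fun v => by rw [map_one, Module.End.one_apply])

variable {cs} in
lemma Scal.mul {w w' : W} (h : Scal cs w) (h' : Scal cs w') : Scal cs (w * w') := by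
  unfold Scal at *
  simp only [map_mul, Module.End.mul_apply]
  rcases h with h | h <;> rcases h' with h' | h'
  · left; intro v; rw [h', h]
  · right; intro v; rw [h', h]
  · right; intro v; rw [h', h]
  · left; intro v; rw [h', h, neg_neg]

variable {cs} in
lemma Scal.inv {w : W} (h : Scal cs w) : Scal cs w⁻¹ := by
  rcases h with h | h
  · left
    intro v
    conv_lhs => rw [← h v]
    rw [geo_inv_apply]
  · right
    intro v
    conv_lhs => rw [← neg_neg v, ← h v]
    rw [map_neg, geo_inv_apply]

variable {cs} in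
lemma Scal.comm {w : W} (h : Scal cs w) (u : W) : w * u = u * w := by
  apply geo_injective cs
  rw [map_mul, map_mul]
  apply LinearMap.ext
  intro v
  rw [Module.End.mul_apply, Module.End.mul_apply]
  rcases h with h | h
  · rw [h, h]
  · rw [h, h, map_neg]

/-- an element commuting with all simple reflections acts by a scalar -/
lemma central_scalar [Nonempty B] (hM : Irr M) {w : W}
    (hw : ∀ i, w * cs.simple i = cs.simple i * w) :
    ∃ μ : ℝ, geo cs w = μ • (1 : Module.End ℝ (B → ℝ)) := by
  apply commutant hM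
  intro i
  rw [← geo_simple cs, ← map_mul, hw, map_mul]

section fintypeW
variable [Fintype W]

/-- class sums act by scalars -/
lemma sum_conj_scalar [Nonempty B] (hM : Irr M) (x : W) :
    ∃ μ : ℝ, ∑ w : W, geo cs (w * x * w⁻¹) = μ • (1 : Module.End ℝ (B → ℝ)) := by
  apply commutant hM
  intro i
  rw [← geo_simple cs, Finset.sum_mul, Finset.mul_sum]
  rw [← Equiv.sum_comp (Equiv.mulLeft (cs.simple i)) (fun w => geo cs (w * x * w⁻¹) *
    geo cs (cs.simple i))]
  apply Finset.sum_congr rfl
  intro w _
  rw [← map_mul, ← map_mul]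
  congr 1
  simp only [Equiv.coe_mulLeft]
  group

/-- multiplicativity of normalized traces -/
lemma trace_mul_of_commute [Nonempty B] (hM : Irr M) (Φ Ψ : Artin M →* W)
    (hcomm : ∀ x y, Φ x * Ψ y = Ψ y * Φ x) (hprod : ∀ x, Φ x * Ψ x = Artin.toCox cs x)
    (x y : Artin M) :
    (Fintype.card B : ℝ) * LinearMap.trace ℝ _ (geo cs (Φ x * Ψ y)) =
      LinearMap.trace ℝ _ (geo cs (Φ x)) * LinearMap.trace ℝ _ (geo cs (Ψ y)) := by
  obtain ⟨μ, hμ⟩ := sum_conj_scalar cs hM (Φ x)
  have h1 : (Fintype.card W : ℝ) * LinearMap.trace ℝ _ (geo cs (Φ x)) =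
      μ * (Fintype.card B : ℝ) := by
    have := congrArg (LinearMap.trace ℝ (B → ℝ)) hμ
    rw [map_sum, map_smul, LinearMap.trace_one, smul_eq_mul] at this
    have h2 : ∀ w : W, LinearMap.trace ℝ (B → ℝ) (geo cs (w * Φ x * w⁻¹)) =
        LinearMap.trace ℝ _ (geo cs (Φ x)) := by
      intro w
      rw [map_mul, LinearMap.trace_mul_comm, ← map_mul]
      congr 2
      group
    simp only [h2, Finset.sum_const, Finset.card_univ, nsmul_eq_mul] at this
    simpa using this
  have h3 : (Fintype.card W : ℝ) * LinearMap.trace ℝ _ (geo cs (Φ x * Ψ y)) =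
      μ * LinearMap.trace ℝ _ (geo cs (Ψ y)) := by
    have := congrArg (fun S : Module.End ℝ (B → ℝ) =>
      LinearMap.trace ℝ (B → ℝ) (S * geo cs (Ψ y))) hμ
    simp only [Finset.sum_mul, map_sum] at this
    rw [smul_mul_assoc, one_mul, map_smul, smul_eq_mul] at this
    rw [← this]
    have h2 : ∀ w : W, LinearMap.trace ℝ (B → ℝ) (geo cs (w * Φ x * w⁻¹) * geo cs (Ψ y)) =
        LinearMap.trace ℝ _ (geo cs (Φ x * Ψ y)) := by
      intro w
      obtain ⟨z, rfl⟩ := Artin.toCox_surjective cs w
      have e1 : Artin.toCox cs z * Φ x * (Artin.toCox cs z)⁻¹ = Φ z * Φ x * (Φ z)⁻¹ := by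
        rw [← hprod z, mul_assoc (Φ z) (Ψ z) (Φ x), ← hcomm x z]
        group
      have e2 : Φ z * Φ x * (Φ z)⁻¹ * Ψ y = Φ z * (Φ x * Ψ y) * (Φ z)⁻¹ := by
        have : (Φ z)⁻¹ * Ψ y = Ψ y * (Φ z)⁻¹ := by
          rw [inv_mul_eq_iff_eq_mul, ← mul_assoc, hcomm z y]
          group
        rw [mul_assoc _ (Φ z)⁻¹ (Ψ y), this]
        simp only [mul_assoc]
      rw [← map_mul, e1, e2, map_mul, LinearMap.trace_mul_comm, ← map_mul]
      congr 2
      group
    simp only [h2, Finset.sum_const, Finset.card_univ, nsmul_eq_mul]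
  have hW : (Fintype.card W : ℝ) ≠ 0 := by
    have : 0 < Fintype.card W := Fintype.card_pos
    exact_mod_cast this.ne'
  apply mul_left_cancel₀ hW
  calc (Fintype.card W : ℝ) * ((Fintype.card B : ℝ) * LinearMap.trace ℝ _ (geo cs (Φ x * Ψ y)))
      = (Fintype.card B : ℝ) * ((Fintype.card W : ℝ) *
          LinearMap.trace ℝ _ (geo cs (Φ x * Ψ y))) := by ring
    _ = (μ * (Fintype.card B : ℝ)) * LinearMap.trace ℝ _ (geo cs (Ψ y)) := by rw [h3]; ring
    _ = _ := by rw [← h1]; ring

lemma scal_or_scal_gen [Nonempty B] (hM : Irr M) (Φ Ψ : Artin M →* W)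
    (hcomm : ∀ x y, Φ x * Ψ y = Ψ y * Φ x) (hprod : ∀ x, Φ x * Ψ x = Artin.toCox cs x) (i : B) :
    Scal cs (Φ (Artin.gen M i)) ∨ Scal cs (Ψ (Artin.gen M i)) := by
  set a := Φ (Artin.gen M i) with ha
  set b := Ψ (Artin.gen M i) with hb
  have hab : a * b = cs.simple i := by rw [ha, hb, hprod, Artin.toCox_gen]
  have hba : a * b = b * a := hcomm _ _
  have hcs : a * cs.simple i = cs.simple i * a := by
    rw [← hab]
    conv_lhs => rw [hba, ← mul_assoc]
  have hsq : (a * a) * (b * b) = 1 := by
    calc (a * a) * (b * b) = a * (a * b) * b := by simp only [mul_assoc]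
      _ = a * (b * a) * b := by rw [hba]
      _ = (a * b) * (a * b) := by simp only [mul_assoc]
      _ = 1 := by rw [hab, cs.simple_mul_simple_self]
  have haa : a * a = (b * b)⁻¹ := eq_inv_of_mul_eq_one_left hsq
  have hcent : ∀ j, (a * a) * cs.simple j = cs.simple j * (a * a) := by
    intro j
    have h1 : ∀ x, (a * a) * Φ x = Φ x * (a * a) := by
      intro x
      have h2 : Φ x * (b * b) = (b * b) * Φ x := by
        rw [← mul_assoc, hcomm, mul_assoc, hcomm, mul_assoc]
      rw [haa, inv_mul_eq_iff_eq_mul, ← mul_assoc, ← h2]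
      group
    have h3 : ∀ x, (a * a) * Ψ x = Ψ x * (a * a) := by
      intro x
      rw [mul_assoc, hcomm, ← mul_assoc, hcomm, mul_assoc]
    rw [← Artin.toCox_gen cs j, ← hprod, ← mul_assoc, h1, mul_assoc, h3, mul_assoc]
  obtain ⟨μ, hμ⟩ := central_scalar cs hM hcent
  have haa1 : a * a = 1 := by
    apply geo_injective cs
    rw [map_one]
    have h1 : geo cs (a * a) (ee i) = ee i := by
      rw [map_mul, Module.End.mul_apply]
      rcases geo_eq_smul_of_commute cs hcs with h | h
      · rw [h, h]
      · rw [h, map_neg, h, neg_neg]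
    rw [hμ] at h1 ⊢
    have h2 := congrFun h1 i
    simp [ee] at h2
    rw [h2, one_smul]
  have hbb1 : b * b = 1 := by rw [haa1, one_mul] at hsq; exact hsq
  have hb' : b = a * cs.simple i := by rw [← hab, ← mul_assoc, haa1, one_mul]
  have hn := trace_mul_of_commute cs hM Φ Ψ hcomm hprod (Artin.gen M i) (Artin.gen M i)
  rw [← ha, ← hb, hab, geo_simple, trace_sg] at hn
  have hTa : geo cs a * geo cs a = 1 := by rw [← map_mul, haa1, map_one]
  have hTb : geo cs b * geo cs b = 1 := by rw [← map_mul, hbb1, map_one]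
  have htb : LinearMap.trace ℝ _ (geo cs b) = LinearMap.trace ℝ _ (geo cs a) -
      coroot M i (geo cs a (ee i)) := by
    rw [hb', map_mul, geo_simple, trace_mul_sg]
  set n : ℝ := (Fintype.card B : ℝ) with hnn
  set χ : ℝ := LinearMap.trace ℝ _ (geo cs a) with hχ
  rcases geo_eq_smul_of_commute cs hcs with h | h
  · rw [h, coroot_ee, cc_self] at htb
    have htb' : LinearMap.trace ℝ _ (geo cs b) = χ - 2 := by rw [htb]; ring
    rw [htb'] at hn
    have h0 : (χ - n) * (χ + n - 2) = 0 := by linear_combination -hn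
    rcases mul_eq_zero.mp h0 with h1 | h1
    · left
      left
      exact apply_eq_of_involution _ hTa (by linarith)
    · right
      right
      exact apply_eq_neg_of_involution _ hTb (by rw [htb']; linarith)
  · rw [h, map_neg, coroot_ee, cc_self] at htb
    have htb' : LinearMap.trace ℝ _ (geo cs b) = χ + 2 := by rw [htb]; ring
    rw [htb'] at hn
    have h0 : (χ + n) * (χ - n + 2) = 0 := by linear_combination -hn
    rcases mul_eq_zero.mp h0 with h1 | h1
    · left
      right
      exact apply_eq_neg_of_involution _ hTa (by linarith)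
    · right
      left
      exact apply_eq_of_involution _ hTb (by rw [htb']; linarith)

/-- In an irreducible finite Coxeter group, one of two commuting factors is central. -/
theorem scal_or_scal [Nonempty B] (hM : Irr M) (Φ Ψ : Artin M →* W)
    (hcomm : ∀ x y, Φ x * Ψ y = Ψ y * Φ x) (hprod : ∀ x, Φ x * Ψ x = Artin.toCox cs x) :
    (∀ x, Scal cs (Φ x)) ∨ (∀ x, Scal cs (Ψ x)) := by
  have hgen := scal_or_scal_gen cs hM Φ Ψ hcomm hprod
  have hU := hM {i | Scal cs (Ψ (Artin.gen M i))} (by
    intro i hi j hj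
    simp only [Set.mem_ofPred_eq] at hi hj
    have hj' : Scal cs (Φ (Artin.gen M j)) := (hgen j).resolve_right hj
    by_contra h2
    have hij : i ≠ j := by rintro rfl; exact hj hi
    have hc := cc_ne_zero hij h2
    -- s_i and s_j commute
    have h3 : cs.simple i * cs.simple j = cs.simple j * cs.simple i := by
      rw [← Artin.toCox_gen cs i, ← Artin.toCox_gen cs j, ← hprod, ← hprod]
      have e1 := hi.comm
      have e2 := hj'.comm
      have e3 := hcomm (Artin.gen M i) (Artin.gen M j)
      set a := Φ (Artin.gen M i)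
      set b := Ψ (Artin.gen M i)
      set c := Φ (Artin.gen M j)
      set d := Ψ (Artin.gen M j)
      calc a * b * (c * d) = a * (b * (c * d)) := by simp only [mul_assoc]
        _ = a * ((c * d) * b) := by rw [e1]
        _ = (a * c) * d * b := by simp only [mul_assoc]
        _ = (c * a) * d * b := by rw [e2]
        _ = c * (a * d) * b := by simp only [mul_assoc]
        _ = c * (d * a) * b := by rw [e3]
        _ = _ := by simp only [mul_assoc]
    have h4 := congrArg (fun w => geo cs w (ee i)) h3
    simp only [map_mul, Module.End.mul_apply, geo_simple] at h4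
    rw [sg_ee, map_add, map_smul, sg_ee_self, sg_ee, map_neg, sg_ee] at h4
    have h5 := congrFun h4 i
    simp only [ee, Pi.add_apply, Pi.neg_apply, Pi.smul_apply, Pi.single_apply, smul_eq_mul,
      if_neg hij, if_true, mul_zero, mul_one, add_zero, zero_add, cc_symm M j i] at h5
    have h6 : cc M i j ^ 2 = 0 := by nlinarith
    exact hc (pow_eq_zero_iff (two_ne_zero) |>.mp h6))
  rcases hU with h | h
  · left
    have hall : ∀ i, Scal cs (Φ (Artin.gen M i)) := by
      intro i
      apply (hgen i).resolve_right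
      intro hcon
      have : i ∈ ({i | Scal cs (Ψ (Artin.gen M i))} : Set B) := hcon
      rw [h] at this
      exact this
    intro x
    induction x using Artin.induction with
    | one => rw [map_one]; exact Scal.one cs
    | gen i => exact hall i
    | mul x y hx hy => rw [map_mul]; exact hx.mul hy
    | inv x hx => rw [map_inv]; exact hx.inv
  · right
    have hall : ∀ i, Scal cs (Ψ (Artin.gen M i)) := by
      intro i
      have : i ∈ ({i | Scal cs (Ψ (Artin.gen M i))} : Set B) := by rw [h]; trivial
      exact this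
    intro x
    induction x using Artin.induction with
    | one => rw [map_one]; exact Scal.one cs
    | gen i => exact hall i
    | mul x y hx hy => rw [map_mul]; exact hx.mul hy
    | inv x hx => rw [map_inv]; exact hx.inv

end fintypeW

end Pool.Agent.Helper741
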