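import Mathlib

namespace Pool.Agent.Helper741.NegCircles

open Finset Equiv

variable {n : ℕ}

/-- Edge set `{ {v, c v} : v moved by c }` of a permutation. -/
def edges (c : Perm (Fin n)) : Finset (Sym2 (Fin n)) := c.support.image (fun v => s(v, c v))

open Classical in
/-- The circles of length `l` of the complete graph on `Fin n`, as sets of edges. -/
noncomputable def circles (n l : ℕ) : Finset (Finset (Sym2 (Fin n))) :=
  (univ.filter (fun c : Perm (Fin n) => c.IsCycle ∧ c.support.card = l)).image edges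

open Classical in
/-- The number of negative circles of length `l` for the signature `σ`. -/
noncomputable def negCount (n l : ℕ) (σ : Sym2 (Fin n) → ℤˣ) : ℕ :=
  ((circles n l).filter (fun C => ∏ e ∈ C, σ e = -1)).card

/-- Vertices of an edge set. -/
def verts (C : Finset (Sym2 (Fin n))) : Finset (Fin n) := univ.filter (fun v => ∃ e ∈ C, v ∈ e)

theorem mem_verts {C : Finset (Sym2 (Fin n))} {v : Fin n} : v ∈ verts C ↔ ∃ e ∈ C, v ∈ e := by
  simp [verts]

theorem mem_edges {c : Perm (Fin n)} {e : Sym2 (Fin n)} :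
    e ∈ edges c ↔ ∃ v ∈ c.support, s(v, c v) = e := by
  simp [edges]

theorem verts_edges (c : Perm (Fin n)) : verts (edges c) = c.support := by
  ext v
  rw [mem_verts]
  constructor
  · rintro ⟨e, he, hv⟩
    obtain ⟨w, hw, rfl⟩ := mem_edges.1 he
    rcases Sym2.mem_iff.1 hv with rfl | rfl
    · exact hw
    · exact Perm.apply_mem_support.2 hw
  · intro hv
    exact ⟨s(v, c v), mem_edges.2 ⟨v, hv, rfl⟩, Sym2.mem_mk_left _ _⟩

theorem verts_mono {C D : Finset (Sym2 (Fin n))} (h : C ⊆ D) : verts C ⊆ verts D := by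
  intro v hv
  obtain ⟨e, he, hve⟩ := mem_verts.1 hv
  exact mem_verts.2 ⟨e, h he, hve⟩

theorem card_verts_le (S : Finset (Sym2 (Fin n))) : (verts S).card ≤ 2 * S.card := by
  have h : verts S ⊆ S.biUnion (fun e => univ.filter (fun v => v ∈ e)) := by
    intro v hv
    obtain ⟨e, he, hve⟩ := mem_verts.1 hv
    exact mem_biUnion.2 ⟨e, he, by simpa using hve⟩
  refine le_trans (card_le_card h) ?_
  refine le_trans (card_biUnion_le_card_mul S _ 2 ?_) (by rw [mul_comm])
  intro e _
  induction e with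
  | _ a b =>
    have : (univ.filter (fun v => v ∈ s(a, b))) ⊆ ({a, b} : Finset (Fin n)) := by
      intro v hv
      have := (mem_filter.1 hv).2
      rcases Sym2.mem_iff.1 this with rfl | rfl
      · simp
      · simp
    exact le_trans (card_le_card this) card_le_two

/-- Action of a permutation on edge sets. -/
def act (g : Perm (Fin n)) (C : Finset (Sym2 (Fin n))) : Finset (Sym2 (Fin n)) :=
  C.image (Sym2.map g)

theorem act_one (C : Finset (Sym2 (Fin n))) : act 1 C = C := by
  unfold act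
  have : Sym2.map (⇑(1 : Perm (Fin n))) = id := by
    funext e
    induction e with
    | _ a b => simp
  rw [this, image_id]

theorem act_mul (g h : Perm (Fin n)) (C : Finset (Sym2 (Fin n))) :
    act (g * h) C = act g (act h C) := by
  unfold act
  rw [image_image]
  congr 1
  funext e
  induction e with
  | _ a b => simp

theorem act_edges (g c : Perm (Fin n)) : act g (edges c) = edges (g * c * g⁻¹) := by
  ext e
  unfold act
  rw [mem_image]
  constructor
  · rintro ⟨f, hf, rfl⟩
    obtain ⟨v, hv, rfl⟩ := mem_edges.1 hf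
    refine mem_edges.2 ⟨g v, ?_, ?_⟩
    · rw [Perm.mem_support] at hv ⊢
      simpa using hv
    · simp
  · intro he
    obtain ⟨v, hv, rfl⟩ := mem_edges.1 he
    refine ⟨s(g⁻¹ v, c (g⁻¹ v)), mem_edges.2 ⟨g⁻¹ v, ?_, rfl⟩, ?_⟩
    · rw [Perm.mem_support] at hv ⊢
      intro h
      apply hv
      show g (c (g⁻¹ v)) = v
      rw [h]
      simp
    · simp [Perm.mul_apply]

theorem mem_circles {l : ℕ} {C : Finset (Sym2 (Fin n))} :
    C ∈ circles n l ↔ ∃ c : Perm (Fin n), c.IsCycle ∧ c.support.card = l ∧ edges c = C := by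
  classical
  unfold circles
  simp only [mem_image, mem_filter, mem_univ, true_and, and_assoc]

theorem act_circles {l : ℕ} {C : Finset (Sym2 (Fin n))} (g : Perm (Fin n))
    (h : C ∈ circles n l) : act g C ∈ circles n l := by
  obtain ⟨c, hc, hl, rfl⟩ := mem_circles.1 h
  refine mem_circles.2 ⟨g * c * g⁻¹, hc.conj, ?_, (act_edges g c).symm⟩
  rw [Perm.card_support_conj, hl]

theorem mem_verts_act {g : Perm (Fin n)} {C : Finset (Sym2 (Fin n))} {v : Fin n} :
    v ∈ verts (act g C) ↔ g⁻¹ v ∈ verts C := by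
  rw [mem_verts, mem_verts]
  unfold act
  constructor
  · rintro ⟨e, he, hv⟩
    obtain ⟨f, hf, rfl⟩ := mem_image.1 he
    refine ⟨f, hf, ?_⟩
    obtain ⟨w, hw, rfl⟩ := Sym2.mem_map.1 hv
    simpa using hw
  · rintro ⟨f, hf, hv⟩
    refine ⟨Sym2.map g f, mem_image_of_mem _ hf, Sym2.mem_map.2 ⟨g⁻¹ v, hv, by simp⟩⟩

/-- A permutation fixing an edge set of a circle and two consecutive vertices fixes all its
vertices. -/
theorem fix_all {l : ℕ} (hl : 3 ≤ l) {c g : Perm (Fin n)} (hc : c.IsCycle)
    (hcl : c.support.card = l) (hg : act g (edges c) = edges c) {v : Fin n} (hv : v ∈ c.support)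
    (h0 : g v = v) (h1 : g (c v) = c v) : ∀ w ∈ c.support, g w = w := by
  have hne : ∀ a ∈ c.support, c (c a) ≠ a := by
    intro a ha h
    have h2 : c ^ 2 = 1 := by
      rw [hc.pow_eq_one_iff]
      exact ⟨a, Perm.mem_support.1 ha, by rw [pow_two]; exact h⟩
    have h3 := orderOf_dvd_of_pow_eq_one h2
    rw [hc.orderOf, hcl] at h3
    have := Nat.le_of_dvd (by norm_num) h3
    omega
  have key : ∀ i : ℕ, g ((c ^ i) v) = (c ^ i) v ∧ g ((c ^ (i + 1)) v) = (c ^ (i + 1)) v := by
    intro i
    induction i with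
    | zero => exact ⟨by simpa using h0, by simpa using h1⟩
    | succ i ih =>
      refine ⟨ih.2, ?_⟩
      set a := (c ^ i) v with ha
      set b := (c ^ (i + 1)) v with hb
      have hba : c a = b := by
        rw [ha, hb, pow_succ', Perm.mul_apply]
      have hcb : (c ^ (i + 1 + 1)) v = c b := by
        rw [hb, pow_succ' c (i + 1), Perm.mul_apply]
      rw [hcb]
      have has : a ∈ c.support := by
        rw [ha]
        exact Perm.pow_apply_mem_support.2 hv
      have hbs : b ∈ c.support := by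
        rw [hb]
        exact Perm.pow_apply_mem_support.2 hv
      have hmem : s(b, g (c b)) ∈ edges c := by
        rw [← hg]
        unfold act
        refine mem_image.2 ⟨s(b, c b), mem_edges.2 ⟨b, hbs, rfl⟩, ?_⟩
        rw [Sym2.map_mk]
        simp [ih.2]
      obtain ⟨x, hx, hxe⟩ := mem_edges.1 hmem
      rcases Sym2.eq_iff.1 hxe with ⟨rfl, h5⟩ | ⟨h5, h6⟩
      · exact h5.symm
      · exfalso
        have h7 : x = a := c.injective (by rw [h6, hba])
        have h8 : g (c b) = g a := by rw [← h5, h7, ih.1]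
        have h9 : c b = a := g.injective h8
        exact hne a has (by rw [hba]; exact h9)
  intro w hw
  obtain ⟨i, hi⟩ := hc.exists_pow_eq (Perm.mem_support.1 hv) (Perm.mem_support.1 hw)
  rw [← hi]
  exact (key i).1

theorem card_dvd_of_free {G X : Type*} [Group G] [Finite G] [Finite X] [MulAction G X]
    (h : ∀ (g : G) (x : X), g • x = x → g = 1) : Nat.card G ∣ Nat.card X := by
  classical
  have e := MulAction.selfEquivSigmaOrbitsQuotientStabilizer G X
  have : Fintype (Quotient (MulAction.orbitRel G X)) := Fintype.ofFinite _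
  rw [Nat.card_congr e, Nat.card_sigma]
  refine Finset.dvd_sum fun ω _ => ?_
  have hs : MulAction.stabilizer G (Quotient.out ω : X) = ⊥ := by
    rw [eq_bot_iff]
    intro g hg
    exact h g _ hg
  rw [hs]
  have : Nat.card (G ⧸ (⊥ : Subgroup G)) = Nat.card G :=
    Nat.card_congr (QuotientGroup.quotientBot (G := G)).toEquiv
  rw [this]

theorem two_pow_dvd_factorial (j : ℕ) : 2 ^ j ∣ (2 * j).factorial := by
  induction j with
  | zero => simp
  | succ j ih =>
    have h : (2 * (j + 1)).factorial = (2 * j + 2) * ((2 * j + 1) * (2 * j).factorial) := by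
      rw [show 2 * (j + 1) = 2 * j + 1 + 1 by ring, Nat.factorial_succ, Nat.factorial_succ]
    rw [h, pow_succ, mul_comm (2 ^ j) 2]
    exact Nat.mul_dvd_mul ⟨j + 1, by ring⟩ (Dvd.dvd.mul_left ih _)

/-- The circles through `S` with vertex set `W`. -/
noncomputable def thru (l : ℕ) (S : Finset (Sym2 (Fin n))) (W : Finset (Fin n)) :
    Finset (Finset (Sym2 (Fin n))) := by
  classical
  exact (circles n l).filter (fun C => S ⊆ C ∧ verts C = W)

theorem mem_thru {l : ℕ} {S : Finset (Sym2 (Fin n))} {W : Finset (Fin n)}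
    {C : Finset (Sym2 (Fin n))} :
    C ∈ thru l S W ↔ C ∈ circles n l ∧ S ⊆ C ∧ verts C = W := by
  classical
  unfold thru
  rw [mem_filter]

section act

variable {l : ℕ} {S : Finset (Sym2 (Fin n))} {W : Finset (Fin n)}

theorem sub_fix {g : Perm {x // x ∈ W \ verts S}} {v : Fin n} (hv : v ∉ W \ verts S) :
    Perm.ofSubtype g v = v := Perm.ofSubtype_apply_of_not_mem g hv

theorem act_thru (g : Perm {x // x ∈ W \ verts S}) {C : Finset (Sym2 (Fin n))}
    (hC : C ∈ thru l S W) : act (Perm.ofSubtype g) C ∈ thru l S W := by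
  rw [mem_thru] at hC ⊢
  obtain ⟨h1, h2, h3⟩ := hC
  refine ⟨act_circles _ h1, ?_, ?_⟩
  · intro e he
    unfold act
    refine mem_image.2 ⟨e, h2 he, ?_⟩
    induction e with
    | _ a b =>
      have ha : a ∈ verts S := mem_verts.2 ⟨_, he, Sym2.mem_mk_left a b⟩
      have hb : b ∈ verts S := mem_verts.2 ⟨_, he, Sym2.mem_mk_right a b⟩
      rw [Sym2.map_mk]
      rw [sub_fix (fun h => (mem_sdiff.1 h).2 ha), sub_fix (fun h => (mem_sdiff.1 h).2 hb)]
  · ext v
    rw [mem_verts_act, h3]
    by_cases hv : v ∈ W \ verts S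
    · have h4 : (Perm.ofSubtype g)⁻¹ v ∈ W \ verts S := by
        rw [← map_inv, Perm.ofSubtype_apply_of_mem g⁻¹ hv]
        exact (g⁻¹ ⟨v, hv⟩).2
      exact ⟨fun _ => (mem_sdiff.1 hv).1, fun _ => (mem_sdiff.1 h4).1⟩
    · have h4 : (Perm.ofSubtype g)⁻¹ v = v := by
        rw [← map_inv]
        exact sub_fix hv
      rw [h4]

noncomputable instance thruAction : MulAction (Perm {x // x ∈ W \ verts S}) {C // C ∈ thru l S W} where
  smul g C := ⟨act (Perm.ofSubtype g) C.1, act_thru g C.2⟩
  one_smul C := by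
    apply Subtype.ext
    show act (Perm.ofSubtype 1) C.1 = C.1
    rw [map_one, act_one]
  mul_smul g h C := by
    apply Subtype.ext
    show act (Perm.ofSubtype (g * h)) C.1 = act (Perm.ofSubtype g) (act (Perm.ofSubtype h) C.1)
    rw [map_mul, act_mul]

theorem thru_free (hl : 3 ≤ l) (hS : S.Nonempty) (g : Perm {x // x ∈ W \ verts S})
    (C : {C // C ∈ thru l S W}) (h : g • C = C) : g = 1 := by
  have h1 : act (Perm.ofSubtype g) C.1 = C.1 := congrArg Subtype.val h
  obtain ⟨hC, hSC, hW⟩ := mem_thru.1 C.2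
  obtain ⟨c, hc, hcl, hce⟩ := mem_circles.1 hC
  obtain ⟨e, he⟩ := hS
  have he2 : e ∈ edges c := by rw [hce]; exact hSC he
  obtain ⟨v, hv, hve⟩ := mem_edges.1 he2
  have hv1 : v ∈ verts S := mem_verts.2 ⟨e, he, by rw [← hve]; exact Sym2.mem_mk_left _ _⟩
  have hv2 : c v ∈ verts S := mem_verts.2 ⟨e, he, by rw [← hve]; exact Sym2.mem_mk_right _ _⟩
  have hfix := fix_all hl hc hcl (by rw [hce]; exact h1) hv
    (sub_fix (fun h => (mem_sdiff.1 h).2 hv1)) (sub_fix (fun h => (mem_sdiff.1 h).2 hv2))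
  have hsupp : c.support = W := by rw [← verts_edges, hce, hW]
  ext x
  have hx : (x : Fin n) ∈ c.support := by
    rw [hsupp]
    exact (mem_sdiff.1 x.2).1
  have h5 := hfix x hx
  rw [Perm.ofSubtype_apply_of_mem g x.2] at h5
  simpa using congrArg Fin.val h5

theorem dvd_thru (hl : 3 ≤ l) (hS : S.Nonempty) {k : ℕ} (hk : 2 * k + 2 * S.card ≤ l) :
    2 ^ k ∣ (thru l S W).card := by
  classical
  rcases (thru l S W).eq_empty_or_nonempty with h0 | ⟨C, hC⟩
  · rw [h0]
    simp
  · obtain ⟨h1, h2, h3⟩ := mem_thru.1 hC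
    obtain ⟨c, hc, hcl, hce⟩ := mem_circles.1 h1
    have hWl : W.card = l := by
      rw [← h3, ← hce, verts_edges, hcl]
    have hsub : verts S ⊆ W := by
      rw [← h3]
      exact verts_mono h2
    have hU : 2 * k ≤ (W \ verts S).card := by
      rw [card_sdiff_of_subset hsub, hWl]
      have := card_verts_le S
      omega
    have hd := card_dvd_of_free (G := Perm {x // x ∈ W \ verts S}) (X := {C // C ∈ thru l S W})
      (fun g C h => thru_free hl hS g C h)
    rw [Nat.card_eq_fintype_card, Nat.card_eq_fintype_card, Fintype.card_perm,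
      Fintype.card_coe, Fintype.card_coe] at hd
    exact dvd_trans (two_pow_dvd_factorial k) (dvd_trans (Nat.factorial_dvd_factorial hU) hd)

end act

open Classical in
theorem dvd_through {l : ℕ} (hl : 3 ≤ l) {S : Finset (Sym2 (Fin n))} (hS : S.Nonempty) {k : ℕ}
    (hk : 2 * k + 2 * S.card ≤ l) :
    2 ^ k ∣ ((circles n l).filter (fun C => S ⊆ C)).card := by
  have h := card_eq_sum_card_fiberwise (s := (circles n l).filter (fun C => S ⊆ C))
    (t := (univ : Finset (Finset (Fin n)))) (f := verts) (fun _ _ => by simp)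
  rw [h]
  refine Finset.dvd_sum fun W _ => ?_
  have : (((circles n l).filter (fun C => S ⊆ C)).filter (fun C => verts C = W)) = thru l S W := by
    ext C
    rw [mem_thru, mem_filter, mem_filter, and_assoc]
  rw [this]
  exact dvd_thru hl hS hk

open Classical in
/-- Main theorem: every number of negative circles of length `l` is divisible by
`2 ^ (l / 2 - 1)`. -/
theorem dvd_negCount {n l : ℕ} (hl : 3 ≤ l) (σ : Sym2 (Fin n) → ℤˣ) :
    2 ^ (l / 2 - 1) ∣ negCount n l σ := by
  have h1 : (2 : ℤ) * (negCount n l σ : ℤ) = ∑ C ∈ circles n l, (1 - ∏ e ∈ C, (σ e : ℤ)) := by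
    have hterm : ∀ C ∈ circles n l, (1 - ∏ e ∈ C, (σ e : ℤ))
        = if (∏ e ∈ C, σ e = -1) then 2 else 0 := by
      intro C _
      have hc : (∏ e ∈ C, (σ e : ℤ)) = ((∏ e ∈ C, σ e : ℤˣ) : ℤ) := by
        rw [Units.coe_prod]
      rw [hc]
      rcases Int.units_eq_one_or (∏ e ∈ C, σ e) with h | h
      · rw [h]; simp
      · rw [h]; simp
    rw [sum_congr rfl hterm, ← sum_filter, sum_const, nsmul_eq_mul]
    unfold negCount
    ring
  have h2 : ∑ C ∈ circles n l, (1 - ∏ e ∈ C, (σ e : ℤ))
      = - ∑ S ∈ (univ : Finset (Finset (Sym2 (Fin n)))).filter (fun S => S.Nonempty),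
        (∏ e ∈ S, ((σ e : ℤ) - 1)) * (((circles n l).filter (fun C => S ⊆ C)).card : ℤ) := by
    have h3 : ∀ C ∈ circles n l, (1 - ∏ e ∈ C, (σ e : ℤ))
        = - ∑ S ∈ (univ : Finset (Finset (Sym2 (Fin n)))).filter (fun S => S.Nonempty),
          (if S ⊆ C then ∏ e ∈ S, ((σ e : ℤ) - 1) else 0) := by
      intro C _
      have h4 : ∏ e ∈ C, (σ e : ℤ) = ∑ S ∈ C.powerset, ∏ e ∈ S, ((σ e : ℤ) - 1) := by
        rw [← Finset.prod_one_add]
        exact prod_congr rfl fun e _ => by ring
      have h5 : ∑ S ∈ (univ : Finset (Finset (Sym2 (Fin n)))).filter (fun S => S.Nonempty),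
          (if S ⊆ C then ∏ e ∈ S, ((σ e : ℤ) - 1) else 0)
          = ∑ S ∈ C.powerset.erase ∅, ∏ e ∈ S, ((σ e : ℤ) - 1) := by
        rw [← sum_filter]
        refine sum_congr ?_ fun _ _ => rfl
        ext S
        simp only [mem_filter, mem_univ, true_and, mem_erase, mem_powerset,
          nonempty_iff_ne_empty]
      have h6 : ∑ S ∈ C.powerset, ∏ e ∈ S, ((σ e : ℤ) - 1)
          = (∑ S ∈ C.powerset.erase ∅, ∏ e ∈ S, ((σ e : ℤ) - 1)) + 1 := by
        rw [← sum_erase_add _ _ (empty_mem_powerset C)]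
        simp
      rw [h4, h5, h6]
      ring
    rw [sum_congr rfl h3, sum_neg_distrib, sum_comm]
    congr 1
    refine sum_congr rfl fun S _ => ?_
    rw [← sum_filter, sum_const, nsmul_eq_mul, mul_comm]
  have h7 : (2 : ℤ) ^ (l / 2) ∣ 2 * (negCount n l σ : ℤ) := by
    rw [h1, h2]
    refine Dvd.dvd.neg_right ?_
    refine Finset.dvd_sum fun S hS => ?_
    have hSn : S.Nonempty := (mem_filter.1 hS).2
    have h8 : (2 : ℤ) ^ S.card ∣ ∏ e ∈ S, ((σ e : ℤ) - 1) := by
      rw [← prod_const]
      refine Finset.prod_dvd_prod_of_dvd _ _ fun e _ => ?_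
      rcases Int.units_eq_one_or (σ e) with h | h
      · rw [h]; simp
      · rw [h]; norm_num
    rcases Nat.lt_or_ge S.card (l / 2) with hlt | hge
    · have h9 : 2 ^ (l / 2 - S.card) ∣ ((circles n l).filter (fun C => S ⊆ C)).card :=
        dvd_through hl hSn (by omega)
      have h10 : (2 : ℤ) ^ (l / 2) = 2 ^ S.card * 2 ^ (l / 2 - S.card) := by
        rw [← pow_add]
        congr 1
        omega
      rw [h10]
      exact mul_dvd_mul h8 (by exact_mod_cast h9)
    · exact Dvd.dvd.mul_right (dvd_trans (pow_dvd_pow 2 hge) h8) _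
  have h11 : l / 2 = (l / 2 - 1) + 1 := by omega
  rw [h11, pow_succ, mul_comm ((2 : ℤ) ^ (l / 2 - 1)) 2] at h7
  have h12 := Int.dvd_of_mul_dvd_mul_left (by norm_num) h7
  exact_mod_cast h12

end Pool.Agent.Helper741.NegCircles
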