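import Mathlib
import Pool.Agent.Helper741.NegCircles

namespace Pool.Agent.Helper741.NegCircles

open Finset Equiv

variable {n : ℕ}

open Classical in
/-- Cyclic permutations with support `W`. -/
noncomputable def Cyc (W : Finset (Fin n)) : Finset (Perm (Fin n)) :=
  univ.filter (fun c => c.IsCycle ∧ c.support = W)

theorem mem_Cyc {W : Finset (Fin n)} {c : Perm (Fin n)} :
    c ∈ Cyc W ↔ c.IsCycle ∧ c.support = W := by
  classical
  simp [Cyc]

/-! ### The number of cyclic permutations with support `W` -/

section base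

variable {W : Finset (Fin n)} {r : Fin n}

noncomputable instance cycAction : MulAction (Perm {x // x ∈ W.erase r}) {c // c ∈ Cyc W} where
  smul g c := ⟨Perm.ofSubtype g * c.1 * (Perm.ofSubtype g)⁻¹, by
    have h := mem_Cyc.1 c.2
    refine mem_Cyc.2 ⟨h.1.conj, ?_⟩
    ext v
    rw [Perm.mem_support]
    have hiff : (Perm.ofSubtype g)⁻¹ v ∈ W ↔ v ∈ W := by
      by_cases hv : v ∈ W.erase r
      · have h4 : (Perm.ofSubtype g)⁻¹ v ∈ W.erase r := by
          rw [← map_inv, Perm.ofSubtype_apply_of_mem g⁻¹ hv]
          exact (g⁻¹ ⟨v, hv⟩).2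
        exact ⟨fun _ => (mem_erase.1 hv).2, fun _ => (mem_erase.1 h4).2⟩
      · have h4 : (Perm.ofSubtype g)⁻¹ v = v := by
          rw [← map_inv]
          exact Perm.ofSubtype_apply_of_not_mem g⁻¹ hv
        rw [h4]
    have hs : ∀ u : Fin n, u ∈ W ↔ c.1 u ≠ u := fun u => by
      rw [← Perm.mem_support]
      exact (Finset.ext_iff.1 h.2 u).symm
    rw [← hiff, hs]
    constructor
    · intro h5 h6
      apply h5
      show (Perm.ofSubtype g) (c.1 ((Perm.ofSubtype g)⁻¹ v)) = v
      rw [h6]
      simp
    · intro h5 h6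
      apply h5
      apply (Perm.ofSubtype g).injective
      have e1 : (Perm.ofSubtype g) ((Perm.ofSubtype g)⁻¹ v) = v := by simp
      rw [e1]
      exact h6⟩
  one_smul c := by
    apply Subtype.ext
    show Perm.ofSubtype 1 * c.1 * (Perm.ofSubtype 1)⁻¹ = c.1
    simp
  mul_smul g h c := by
    apply Subtype.ext
    show Perm.ofSubtype (g * h) * c.1 * (Perm.ofSubtype (g * h))⁻¹
      = Perm.ofSubtype g * (Perm.ofSubtype h * c.1 * (Perm.ofSubtype h)⁻¹) * (Perm.ofSubtype g)⁻¹
    rw [map_mul, mul_inv_rev]
    group

theorem cyc_dvd (W : Finset (Fin n)) : (W.card - 1).factorial ∣ (Cyc W).card := by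
  classical
  rcases (Cyc W).eq_empty_or_nonempty with h0 | ⟨c0, hc0⟩
  · rw [h0]
    simp
  · obtain ⟨h1, h2⟩ := mem_Cyc.1 hc0
    obtain ⟨r, hr, _⟩ := h1
    have hrW : r ∈ W := by
      rw [← h2]
      exact Perm.mem_support.2 hr
    have hd := card_dvd_of_free (G := Perm {x // x ∈ W.erase r}) (X := {c // c ∈ Cyc W}) (by
      intro g c h
      have h3 : Perm.ofSubtype g * c.1 * (Perm.ofSubtype g)⁻¹ = c.1 := congrArg Subtype.val h
      have h4 : Perm.ofSubtype g * c.1 = c.1 * Perm.ofSubtype g := by
        rw [mul_inv_eq_iff_eq_mul] at h3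
        exact h3
      have h5 : Perm.ofSubtype g r = r :=
        Perm.ofSubtype_apply_of_not_mem g (fun h => (mem_erase.1 h).1 rfl)
      obtain ⟨hcc, hcW⟩ := mem_Cyc.1 c.2
      have hrs : c.1 r ≠ r := by
        rw [← Perm.mem_support, hcW]
        exact hrW
      have key : ∀ i : ℕ, Perm.ofSubtype g ((c.1 ^ i) r) = (c.1 ^ i) r := by
        intro i
        induction i with
        | zero => simpa using h5
        | succ i ih =>
          rw [pow_succ', Perm.mul_apply]
          have h6 := congrArg (fun p : Perm (Fin n) => p ((c.1 ^ i) r)) h4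
          simp only [Perm.mul_apply] at h6
          rw [h6, ih]
      ext x
      have hx : (x : Fin n) ∈ c.1.support := by
        rw [hcW]
        exact (mem_erase.1 x.2).2
      obtain ⟨i, hi⟩ := hcc.exists_pow_eq hrs (Perm.mem_support.1 hx)
      have h7 := key i
      rw [hi, Perm.ofSubtype_apply_of_mem g x.2] at h7
      simpa using congrArg Fin.val h7)
    rw [Nat.card_eq_fintype_card, Nat.card_eq_fintype_card, Fintype.card_perm,
      Fintype.card_coe, Fintype.card_coe, card_erase_of_mem hrW] at hd
    exact hd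

end base

/-! ### Contraction of an arc -/

theorem insert_cycle {W : Finset (Fin n)} {v w : Fin n} {c : Perm (Fin n)}
    (hc : c ∈ Cyc (W.erase w)) (hw : w ∈ W) (hv : v ∈ W.erase w) :
    swap w (c v) * c ∈ Cyc W := by
  obtain ⟨h1, h2⟩ := mem_Cyc.1 hc
  have hcw : c w = w := by
    by_contra h
    have : w ∈ c.support := Perm.mem_support.2 h
    rw [h2] at this
    exact (mem_erase.1 this).1 rfl
  have hvw : v ≠ w := (mem_erase.1 hv).1
  have hcv : c v ≠ v := by
    rw [← Perm.mem_support, h2]
    exact hv
  have hcvw : c v ≠ w := by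
    intro h
    exact hvw (c.injective (by rw [h, hcw]))
  have dv : (swap w (c v) * c) v = w := by simp [Perm.mul_apply]
  have dw : (swap w (c v) * c) w = c v := by simp [Perm.mul_apply, hcw]
  have dx : ∀ x, x ≠ v → x ≠ w → (swap w (c v) * c) x = c x := by
    intro x hxv hxw
    rw [Perm.mul_apply]
    apply swap_apply_of_ne_of_ne
    · intro h
      exact hxw (c.injective (by rw [h, hcw]))
    · intro h
      exact hxv (c.injective h)
  refine mem_Cyc.2 ⟨⟨v, ?_, ?_⟩, ?_⟩
  · rw [dv]
    exact hvw.symm
  · intro y hy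
    have hsame : ∀ i : ℕ, (swap w (c v) * c).SameCycle v ((c ^ i) v) := by
      intro i
      induction i with
      | zero => exact Perm.SameCycle.refl _ _
      | succ i ih =>
        rw [pow_succ', Perm.mul_apply]
        by_cases hz : (c ^ i) v = v
        · have e1 := Perm.sameCycle_apply_right.2 (Perm.sameCycle_apply_right.2
            (Perm.SameCycle.refl (swap w (c v) * c) v))
          rw [dv, dw] at e1
          rw [hz]
          exact e1
        · have hzw : (c ^ i) v ≠ w := by
            intro h
            have h5 : (c ^ i) w = w := by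
              clear ih hz h
              induction i with
              | zero => rfl
              | succ i ih => rw [pow_succ', Perm.mul_apply, ih, hcw]
            exact hvw ((c ^ i).injective (by rw [h, h5]))
          rw [← dx _ hz hzw]
          exact Perm.sameCycle_apply_right.2 ih
    by_cases hyw : y = w
    · have e1 := Perm.sameCycle_apply_right.2 (Perm.SameCycle.refl (swap w (c v) * c) v)
      rw [dv] at e1
      rw [hyw]
      exact e1
    · by_cases hyv : y = v
      · rw [hyv]
      · rw [dx y hyv hyw] at hy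
        obtain ⟨i, hi⟩ := h1.exists_pow_eq hcv hy
        rw [← hi]
        exact hsame i
  · ext x
    rw [Perm.mem_support]
    by_cases hxw : x = w
    · rw [hxw, dw]
      exact ⟨fun _ => hw, fun _ => hcvw⟩
    · by_cases hxv : x = v
      · rw [hxv, dv]
        exact ⟨fun _ => (mem_erase.1 hv).2, fun _ => hvw.symm⟩
      · rw [dx x hxv hxw, ← Perm.mem_support, h2, mem_erase]
        exact ⟨fun h => h.2, fun h => ⟨hxw, h⟩⟩

theorem sq_ne {c : Perm (Fin n)} (hc : c.IsCycle) (hl : 3 ≤ c.support.card) :
    ∀ a ∈ c.support, c (c a) ≠ a := by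
  intro a ha h
  have h2 : c ^ 2 = 1 := by
    rw [hc.pow_eq_one_iff]
    exact ⟨a, Perm.mem_support.1 ha, by rw [pow_two]; exact h⟩
  have h3 := orderOf_dvd_of_pow_eq_one h2
  rw [hc.orderOf] at h3
  have := Nat.le_of_dvd (by norm_num) h3
  omega

theorem delete_cycle {W : Finset (Fin n)} {w : Fin n} {c : Perm (Fin n)}
    (hc : c ∈ Cyc W) (hW : 3 ≤ W.card) (hw : w ∈ W) :
    swap w (c w) * c ∈ Cyc (W.erase w) := by
  obtain ⟨h1, h2⟩ := mem_Cyc.1 hc
  have hws : w ∈ c.support := by rw [h2]; exact hw
  have h3 := sq_ne h1 (by rw [h2]; exact hW) w hws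
  refine mem_Cyc.2 ⟨h1.swap_mul (Perm.mem_support.1 hws) h3, ?_⟩
  rw [Perm.support_swap_mul_eq c w h3, h2, sdiff_singleton_eq_erase]

/-- Number of cyclic permutations with support `W` containing all arcs of `R`. -/
noncomputable def hc (W : Finset (Fin n)) (R : Finset (Fin n × Fin n)) : ℕ := by
  classical
  exact ((Cyc W).filter (fun c => ∀ p ∈ R, c p.1 = p.2)).card

/-- Contraction of the arc `(v, w)`. -/
def contr (v w : Fin n) (R : Finset (Fin n × Fin n)) : Finset (Fin n × Fin n) :=
  (R.erase (v, w)).image (fun p => if p.1 = w then (v, p.2) else p)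

theorem hc_contr {W : Finset (Fin n)} {R : Finset (Fin n × Fin n)} {v w : Fin n}
    (hR : (v, w) ∈ R) (hvw : v ≠ w) (hv : v ∈ W) (hw : w ∈ W) (hW : 3 ≤ W.card)
    (hfun : ∀ p ∈ R, p.1 = v → p = (v, w)) : hc W R = hc (W.erase w) (contr v w R) := by
  classical
  unfold hc
  refine card_nbij' (fun c => swap w (c w) * c) (fun c => swap w (c v) * c) ?_ ?_ ?_ ?_
  · intro c hcm
    rw [mem_coe, mem_filter] at hcm ⊢
    obtain ⟨h1, h2⟩ := hcm
    have hcv : c v = w := h2 (v, w) hR
    refine ⟨delete_cycle h1 hW hw, ?_⟩
    intro q hq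
    obtain ⟨p, hp, rfl⟩ := mem_image.1 hq
    obtain ⟨hpne, hpR⟩ := mem_erase.1 hp
    have hcp := h2 p hpR
    by_cases hpw : p.1 = w
    · rw [if_pos hpw]
      show (swap w (c w) * c) v = p.2
      rw [Perm.mul_apply, hcv, swap_apply_left, ← hcp, hpw]
    · rw [if_neg hpw]
      show (swap w (c w) * c) p.1 = p.2
      rw [Perm.mul_apply, swap_apply_of_ne_of_ne, hcp]
      · intro h
        have : p.1 = v := c.injective (by rw [h, hcv])
        exact hpne (hfun p hpR this)
      · intro h
        exact hpw (c.injective h)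
  · intro c hcm
    rw [mem_coe, mem_filter] at hcm ⊢
    obtain ⟨h1, h2⟩ := hcm
    have hve : v ∈ W.erase w := mem_erase.2 ⟨hvw, hv⟩
    have hcw : c w = w := by
      by_contra h
      have : w ∈ c.support := Perm.mem_support.2 h
      rw [(mem_Cyc.1 h1).2] at this
      exact (mem_erase.1 this).1 rfl
    refine ⟨insert_cycle h1 hw hve, ?_⟩
    intro p hpR
    by_cases hpe : p = (v, w)
    · rw [hpe]
      show (swap w (c v) * c) v = w
      rw [Perm.mul_apply, swap_apply_right]
    · have hpm : (if p.1 = w then (v, p.2) else p) ∈ contr v w R :=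
        mem_image_of_mem _ (mem_erase.2 ⟨hpe, hpR⟩)
      have h3 := h2 _ hpm
      by_cases hpw : p.1 = w
      · rw [if_pos hpw] at h3
        simp only at h3
        rw [Perm.mul_apply, hpw, hcw, swap_apply_left, h3]
      · rw [if_neg hpw] at h3
        rw [Perm.mul_apply, swap_apply_of_ne_of_ne, h3]
        · intro h
          exact hpw (c.injective (by rw [h, hcw]))
        · intro h
          have : p.1 = v := c.injective h
          exact hpe (hfun p hpR this)
  · intro c hcm
    rw [mem_coe, mem_filter] at hcm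
    obtain ⟨h1, h2⟩ := hcm
    have hcv : c v = w := h2 (v, w) hR
    show swap w ((swap w (c w) * c) v) * (swap w (c w) * c) = c
    rw [Perm.mul_apply, hcv, swap_apply_left, ← mul_assoc, swap_mul_self, one_mul]
  · intro c hcm
    rw [mem_coe, mem_filter] at hcm
    obtain ⟨h1, h2⟩ := hcm
    have hcw : c w = w := by
      by_contra h
      have : w ∈ c.support := Perm.mem_support.2 h
      rw [(mem_Cyc.1 h1).2] at this
      exact (mem_erase.1 this).1 rfl
    show swap w ((swap w (c v) * c) w) * (swap w (c v) * c) = c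
    rw [Perm.mul_apply, hcw, swap_apply_left, ← mul_assoc, swap_mul_self, one_mul]

theorem hc_dvd : ∀ (s : ℕ) (W : Finset (Fin n)) (R : Finset (Fin n × Fin n)), R.card = s →
    (∀ p ∈ R, p.1 ∈ W) → (W.card - s - 1).factorial ∣ hc W R := by
  classical
  intro s
  induction s with
  | zero =>
    intro W R hR _
    rw [card_eq_zero] at hR
    subst hR
    have : hc W ∅ = (Cyc W).card := by
      unfold hc
      simp
    rw [this]
    simpa using cyc_dvd W
  | succ s ih =>
    intro W R hR hRW
    by_cases hsmall : W.card - (s + 1) - 1 ≤ 1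
    · have : (W.card - (s + 1) - 1).factorial = 1 := by
        interval_cases (W.card - (s + 1) - 1) <;> rfl
      rw [this]
      exact one_dvd _
    · by_cases h0 : hc W R = 0
      · rw [h0]
        exact dvd_zero _
      · obtain ⟨⟨v, w⟩, hvw⟩ : R.Nonempty := by
          rw [← card_pos]
          omega
        have hne : ((Cyc W).filter (fun c => ∀ p ∈ R, c p.1 = p.2)).Nonempty := by
          rw [← card_pos]
          exact Nat.pos_of_ne_zero h0
        obtain ⟨c0, hc0⟩ := hne
        obtain ⟨h1, h2⟩ := mem_filter.1 hc0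
        have hvW : v ∈ W := hRW _ hvw
        have hcv : c0 v = w := h2 _ hvw
        have hvs : v ∈ c0.support := by rw [(mem_Cyc.1 h1).2]; exact hvW
        have hne : v ≠ w := by
          rw [← hcv]
          exact (Perm.mem_support.1 hvs).symm
        have hwW : w ∈ W := by
          rw [← (mem_Cyc.1 h1).2, ← hcv]
          exact Perm.apply_mem_support.2 hvs
        have hfun : ∀ p ∈ R, p.1 = v → p = (v, w) := by
          intro p hp hpv
          have := h2 p hp
          rw [hpv, hcv] at this
          exact Prod.ext hpv this.symm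
        rw [hc_contr hvw hne hvW hwW (by omega) hfun]
        have hcard : (contr v w R).card = s := by
          unfold contr
          rw [card_image_of_injOn, card_erase_of_mem hvw, hR]
          · rfl
          · intro p hp q hq hpq
            have hp2 := (mem_erase.1 (mem_coe.1 hp)).2
            have hq2 := (mem_erase.1 (mem_coe.1 hq)).2
            have h22 : p.2 = q.2 := by
              simp only at hpq
              split_ifs at hpq with ha hb hb
              · exact (Prod.ext_iff.1 hpq).2
              · exact (Prod.ext_iff.1 hpq).2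
              · exact (Prod.ext_iff.1 hpq).2
              · rw [hpq]
            have h11 : p.1 = q.1 := c0.injective (by rw [h2 p hp2, h2 q hq2, h22])
            exact Prod.ext h11 h22
        have hsub : ∀ p ∈ contr v w R, p.1 ∈ W.erase w := by
          intro q hq
          obtain ⟨p, hp, rfl⟩ := mem_image.1 hq
          by_cases hpw : p.1 = w
          · rw [if_pos hpw]
            exact mem_erase.2 ⟨hne, hvW⟩
          · rw [if_neg hpw]
            exact mem_erase.2 ⟨hpw, hRW p (mem_erase.1 hp).2⟩
        have h3 := ih (W.erase w) (contr v w R) hcard hsub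
        rw [card_erase_of_mem hwW] at h3
        have : W.card - 1 - s - 1 = W.card - (s + 1) - 1 := by omega
        rw [this] at h3
        exact h3

theorem two_pow_mul_factorial_dvd (j : ℕ) : 2 ^ j * j.factorial ∣ (2 * j).factorial := by
  induction j with
  | zero => simp
  | succ j ih =>
    have h : (2 * (j + 1)).factorial = (2 * j + 1) * ((2 * (j + 1)) * (2 * j).factorial) := by
      rw [show 2 * (j + 1) = 2 * j + 1 + 1 by ring, Nat.factorial_succ, Nat.factorial_succ]
      ring
    rw [h, Nat.factorial_succ, pow_succ]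
    refine Dvd.dvd.mul_left ?_ _
    have : 2 ^ j * 2 * ((j + 1) * j.factorial) = 2 * (j + 1) * (2 ^ j * j.factorial) := by ring
    rw [this]
    exact Nat.mul_dvd_mul_left _ ih

theorem pow_dvd_fact : ∀ m : ℕ, 2 ^ (m - Nat.log 2 (m + 1)) ∣ m.factorial := by
  intro m
  induction m using Nat.strong_induction_on with
  | _ m ih =>
    rcases Nat.even_or_odd' m with ⟨j, rfl | rfl⟩
    · rcases Nat.eq_zero_or_pos j with rfl | hj
      · simp
      · have h1 := ih j (by omega)
        have hlog : Nat.log 2 (2 * j + 1) = Nat.log 2 j + 1 := by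
          rw [Nat.log_of_one_lt_of_le (by norm_num) (by omega)]
          congr 2
          omega
        have hlog2 : Nat.log 2 (j + 1) ≤ Nat.log 2 j + 1 := by
          calc Nat.log 2 (j + 1) ≤ Nat.log 2 (j * 2) := Nat.log_mono_right (by omega)
            _ = Nat.log 2 j + 1 := Nat.log_mul_base (by norm_num) (by omega)
        have hle : 2 * j - Nat.log 2 (2 * j + 1) ≤ j + (j - Nat.log 2 (j + 1)) := by
          rw [hlog]
          have := Nat.log_lt_self 2 (show j + 1 ≠ 0 by omega)
          omega
        refine dvd_trans (pow_dvd_pow 2 hle) ?_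
        rw [pow_add]
        exact dvd_trans (Nat.mul_dvd_mul_left _ h1) (two_pow_mul_factorial_dvd j)
    · have h1 := ih j (by omega)
      have hlog : Nat.log 2 (2 * j + 1 + 1) = Nat.log 2 (j + 1) + 1 := by
        rw [Nat.log_of_one_lt_of_le (by norm_num) (by omega)]
        congr 2
        omega
      have hlt := Nat.log_lt_self 2 (show j + 1 ≠ 0 by omega)
      have hle : 2 * j + 1 - Nat.log 2 (2 * j + 1 + 1) ≤ j + (j - Nat.log 2 (j + 1)) := by
        rw [hlog]
        omega
      refine dvd_trans (pow_dvd_pow 2 hle) ?_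
      rw [pow_add, Nat.factorial_succ]
      exact Dvd.dvd.mul_left (dvd_trans (Nat.mul_dvd_mul_left _ h1) (two_pow_mul_factorial_dvd j)) _

end Pool.Agent.Helper741.NegCircles
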