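import Mathlib
import Pool.Agent.Helper741.NegStrong

namespace Pool.Agent.Helper741.NegCircles

open Finset Equiv

variable {n : ℕ}

theorem edge_inj {c : Perm (Fin n)} (hc : c.IsCycle) (hl : 3 ≤ c.support.card) :
    Set.InjOn (fun v => s(v, c v)) (c.support : Set (Fin n)) := by
  intro v hv w hw h
  rcases Sym2.eq_iff.1 h with ⟨h1, _⟩ | ⟨h1, h2⟩
  · exact h1
  · exfalso
    exact sq_ne hc hl w (mem_coe.1 hw) (by rw [← h1, h2])

theorem nbr {c : Perm (Fin n)} {b w : Fin n} (h : s(b, w) ∈ edges c) : w = c b ∨ c w = b := by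
  obtain ⟨x, _, hx⟩ := mem_edges.1 h
  rcases Sym2.eq_iff.1 hx with ⟨h1, h2⟩ | ⟨h1, h2⟩
  · left
    rw [← h2, h1]
  · right
    rw [← h1, h2]

theorem eq_of_edges {c d : Perm (Fin n)} (hc : c.IsCycle) (hd : d.IsCycle)
    (hl : 3 ≤ d.support.card) (h : edges d = edges c) {v : Fin n} (hv : v ∈ c.support)
    (h0 : d v = c v) : d = c := by
  have hs : d.support = c.support := by rw [← verts_edges, h, verts_edges]
  have key : ∀ i : ℕ, d ((c ^ i) v) = c ((c ^ i) v) := by
    intro i
    induction i with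
    | zero => simpa using h0
    | succ i ih =>
      set a := (c ^ i) v with ha
      have hb : (c ^ (i + 1)) v = c a := by rw [pow_succ', Perm.mul_apply]
      rw [hb]
      have has : a ∈ c.support := by
        rw [ha]
        exact Perm.pow_apply_mem_support.2 hv
      have hbs : c a ∈ d.support := by
        rw [hs]
        exact Perm.apply_mem_support.2 has
      have hmem : s(c a, d (c a)) ∈ edges c := by
        rw [← h]
        exact mem_edges.2 ⟨c a, hbs, rfl⟩
      rcases nbr hmem with h1 | h1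
      · exact h1
      · exfalso
        have h2 : d (c a) = a := c.injective h1
        exact sq_ne hd hl a (by rw [hs]; exact has) (by rw [ih]; exact h2)
  ext x
  by_cases hx : x ∈ c.support
  · obtain ⟨i, hi⟩ := hc.exists_pow_eq (Perm.mem_support.1 hv) (Perm.mem_support.1 hx)
    rw [← hi, key i]
  · have h1 : c x = x := by
      by_contra hne
      exact hx (Perm.mem_support.2 hne)
    have h2 : d x = x := by
      by_contra hne
      apply hx
      rw [← hs]
      exact Perm.mem_support.2 hne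
    rw [h1, h2]

theorem edges_inv (c : Perm (Fin n)) : edges c⁻¹ = edges c := by
  have key : ∀ d : Perm (Fin n), edges d⁻¹ ⊆ edges d := by
    intro d e he
    obtain ⟨v, hv, rfl⟩ := mem_edges.1 he
    rw [Perm.support_inv] at hv
    refine mem_edges.2 ⟨d⁻¹ v, ?_, ?_⟩
    · rw [Perm.mem_support] at hv ⊢
      intro h
      apply hv
      have : d (d⁻¹ v) = v := by simp
      rw [this] at h
      calc d v = d (d⁻¹ v) := by rw [← h]
        _ = v := this
    · have : d (d⁻¹ v) = v := by simp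
      rw [this]
      exact Sym2.eq_swap
  refine Subset.antisymm (key c) ?_
  have := key c⁻¹
  rwa [inv_inv] at this

open Classical in
theorem directed_card {l : ℕ} (hl : 3 ≤ l) (σ : Sym2 (Fin n) → ℤˣ) :
    (univ.filter (fun c : Perm (Fin n) => (c.IsCycle ∧ c.support.card = l) ∧
      ∏ e ∈ edges c, σ e = -1)).card = 2 * negCount n l σ := by
  have hmaps : ∀ c ∈ (univ.filter (fun c : Perm (Fin n) => (c.IsCycle ∧ c.support.card = l) ∧
      ∏ e ∈ edges c, σ e = -1)), edges c ∈ (circles n l).filter (fun C => ∏ e ∈ C, σ e = -1) := by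
    intro c hc
    obtain ⟨_, ⟨h1, h2⟩, h3⟩ := mem_filter.1 hc
    exact mem_filter.2 ⟨mem_circles.2 ⟨c, h1, h2, rfl⟩, h3⟩
  rw [card_eq_sum_card_fiberwise (f := edges) (t := (circles n l).filter
    (fun C => ∏ e ∈ C, σ e = -1)) (fun c hc => mem_coe.2 (hmaps c (mem_coe.1 hc)))]
  have hfib : ∀ C ∈ (circles n l).filter (fun C => ∏ e ∈ C, σ e = -1),
      ((univ.filter (fun c : Perm (Fin n) => (c.IsCycle ∧ c.support.card = l) ∧
      ∏ e ∈ edges c, σ e = -1)).filter (fun c => edges c = C)).card = 2 := by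
    intro C hC
    obtain ⟨hC1, hC2⟩ := mem_filter.1 hC
    obtain ⟨c, hc, hcl, rfl⟩ := mem_circles.1 hC1
    have hset : ((univ.filter (fun c : Perm (Fin n) => (c.IsCycle ∧ c.support.card = l) ∧
      ∏ e ∈ edges c, σ e = -1)).filter (fun d => edges d = edges c)) = {c, c⁻¹} := by
      ext d
      rw [mem_filter, mem_filter, mem_insert, mem_singleton]
      constructor
      · rintro ⟨⟨_, ⟨hd, hdl⟩, _⟩, hde⟩
        obtain ⟨v, hv⟩ : c.support.Nonempty := by
          rw [← card_pos]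
          omega
        have hs : d.support = c.support := by rw [← verts_edges, hde, verts_edges]
        have hmem : s(v, d v) ∈ edges c := by
          rw [← hde]
          exact mem_edges.2 ⟨v, by rw [hs]; exact hv, rfl⟩
        rcases nbr hmem with h1 | h1
        · exact Or.inl (eq_of_edges hc hd (by omega) hde hv h1)
        · right
          refine eq_of_edges hc.inv hd (by omega) (by rw [edges_inv, hde])
            (v := v) (by rw [Perm.support_inv]; exact hv) ?_
          apply c.injective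
          rw [h1]
          simp
      · rintro (rfl | rfl)
        · exact ⟨⟨mem_univ _, ⟨hc, hcl⟩, hC2⟩, rfl⟩
        · refine ⟨⟨mem_univ _, ⟨hc.inv, by rw [Perm.support_inv, hcl]⟩, ?_⟩, edges_inv c⟩
          rw [edges_inv]
          exact hC2
    rw [hset, card_pair]
    intro h
    obtain ⟨v, hv⟩ : c.support.Nonempty := by
      rw [← card_pos]
      omega
    refine sq_ne hc (by omega) v hv ?_
    have h2 : c (c v) = c (c⁻¹ v) := by rw [← h]
    rw [h2]
    simp
  rw [sum_congr rfl hfib, sum_const, smul_eq_mul, mul_comm]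
  rfl

/-- The arcs of `c` starting in `W`. -/
def gr (W : Finset (Fin n)) (c : Perm (Fin n)) : Finset (Fin n × Fin n) :=
  W.image (fun v => (v, c v))

open Classical in
noncomputable def hg (W : Finset (Fin n)) (R : Finset (Fin n × Fin n)) : ℕ :=
  ((Cyc W).filter (fun c => R ⊆ gr W c)).card

theorem sub_gr {W : Finset (Fin n)} {c : Perm (Fin n)} {R : Finset (Fin n × Fin n)} :
    R ⊆ gr W c ↔ ∀ p ∈ R, p.1 ∈ W ∧ c p.1 = p.2 := by
  constructor
  · intro h p hp
    obtain ⟨v, hv, hvp⟩ := mem_image.1 (h hp)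
    rw [← hvp]
    exact ⟨hv, rfl⟩
  · intro h p hp
    obtain ⟨h1, h2⟩ := h p hp
    exact mem_image.2 ⟨p.1, h1, Prod.ext rfl h2⟩

theorem hg_dvd (W : Finset (Fin n)) (R : Finset (Fin n × Fin n)) :
    (W.card - R.card - 1).factorial ∣ hg W R := by
  classical
  by_cases h : ∀ p ∈ R, p.1 ∈ W
  · have : hg W R = hc W R := by
      unfold hg hc
      congr 1
      refine filter_congr fun c _ => ?_
      rw [sub_gr]
      exact ⟨fun h2 p hp => (h2 p hp).2, fun h2 p hp => ⟨h p hp, h2 p hp⟩⟩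
    rw [this]
    exact hc_dvd R.card W R rfl h
  · have : hg W R = 0 := by
      unfold hg
      rw [card_eq_zero, filter_eq_empty_iff]
      intro c _ hsub
      exact h fun p hp => ((sub_gr.1 hsub) p hp).1
    rw [this]
    exact dvd_zero _

theorem two_mul_dvd_sum {ι : Type*} (s : Finset ι) (f : ι → ℤ) (g : ι → ι) (D : ℤ)
    (hd : ∀ a ∈ s, D ∣ f a) (hg : ∀ a ∈ s, g a ∈ s) (hgg : ∀ a ∈ s, g (g a) = a)
    (hf : ∀ a ∈ s, f (g a) = f a) (hfix : ∀ a ∈ s, g a = a → f a = 0) (hD : D ≠ 0) :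
    2 * D ∣ ∑ a ∈ s, f a := by
  have hq : ∀ a ∈ s, f a = D * (f a / D) := fun a ha => (Int.mul_ediv_cancel' (hd a ha)).symm
  rw [sum_congr rfl hq, ← mul_sum, mul_comm 2 D]
  refine mul_dvd_mul_left _ ?_
  have h2 : ((∑ a ∈ s, f a / D : ℤ) : ZMod 2) = 0 := by
    rw [Int.cast_sum]
    refine sum_involution (fun a _ => g a) ?_ ?_ ?_ ?_
    · intro a ha
      rw [hf a ha]
      exact CharTwo.add_self_eq_zero _
    · intro a ha hne heq
      apply hne
      rw [hfix a ha heq]
      simp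
    · intro a ha
      exact hg a ha
    · intro a ha
      exact hgg a ha
  exact (ZMod.intCast_zmod_eq_zero_iff_dvd _ 2).1 h2

theorem hg_swap (W : Finset (Fin n)) (R : Finset (Fin n × Fin n)) :
    hg W (R.image Prod.swap) = hg W R := by
  classical
  have key : ∀ (R : Finset (Fin n × Fin n)) (c : Perm (Fin n)), c ∈ Cyc W → R ⊆ gr W c →
      c⁻¹ ∈ Cyc W ∧ R.image Prod.swap ⊆ gr W c⁻¹ := by
    intro R c hc hR
    obtain ⟨h1, h2⟩ := mem_Cyc.1 hc
    refine ⟨mem_Cyc.2 ⟨h1.inv, by rw [Perm.support_inv, h2]⟩, ?_⟩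
    rw [sub_gr] at hR ⊢
    intro q hq
    obtain ⟨p, hp, rfl⟩ := mem_image.1 hq
    obtain ⟨h3, h4⟩ := hR p hp
    refine ⟨?_, ?_⟩
    · show p.2 ∈ W
      rw [← h4, ← h2]
      exact Perm.apply_mem_support.2 (by rw [h2]; exact h3)
    · show c⁻¹ p.2 = p.1
      rw [← h4]
      simp
  have hss : (R.image Prod.swap).image Prod.swap = R := by
    rw [image_image]
    simp
  unfold hg
  refine card_nbij' (fun c => c⁻¹) (fun c => c⁻¹) ?_ ?_ ?_ ?_
  · intro c hc
    obtain ⟨h1, h2⟩ := mem_filter.1 (mem_coe.1 hc)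
    obtain ⟨h3, h4⟩ := key _ c h1 h2
    rw [hss] at h4
    exact mem_coe.2 (mem_filter.2 ⟨h3, h4⟩)
  · intro c hc
    obtain ⟨h1, h2⟩ := mem_filter.1 (mem_coe.1 hc)
    exact mem_coe.2 (mem_filter.2 (key _ c h1 h2))
  · intro c _
    exact inv_inv c
  · intro c _
    exact inv_inv c

/-- The contribution of one vertex set. -/
theorem dvd_fixed {l : ℕ} (hl : 3 ≤ l) (σ : Sym2 (Fin n) → ℤˣ) (W : Finset (Fin n))
    (hW : W.card = l) : (2 : ℤ) ^ (l - Nat.log 2 (l - 1)) ∣
      ∑ c ∈ Cyc W, (1 - ∏ e ∈ edges c, (σ e : ℤ)) := by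
  classical
  set B : Fin n × Fin n → ℤ := fun p => (σ s(p.1, p.2) : ℤ) - 1 with hB
  have h1 : ∀ c ∈ Cyc W, (1 - ∏ e ∈ edges c, (σ e : ℤ))
      = - ∑ R ∈ (univ : Finset (Finset (Fin n × Fin n))).filter (fun R => R.Nonempty),
        (if R ⊆ gr W c then ∏ p ∈ R, B p else 0) := by
    intro c hc
    obtain ⟨hc1, hc2⟩ := mem_Cyc.1 hc
    have h2 : ∏ e ∈ edges c, (σ e : ℤ) = ∏ p ∈ gr W c, (1 + B p) := by
      unfold edges gr
      rw [prod_image (edge_inj hc1 (by rw [hc2, hW]; exact hl)), hc2, prod_image]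
      · refine prod_congr rfl fun v _ => ?_
        simp [hB]
      · intro v _ w _ h
        exact (Prod.ext_iff.1 h).1
    have h4 : ∏ e ∈ edges c, (σ e : ℤ) = ∑ R ∈ (gr W c).powerset, ∏ p ∈ R, B p := by
      rw [h2, Finset.prod_one_add]
    have h5 : ∑ R ∈ (univ : Finset (Finset (Fin n × Fin n))).filter (fun R => R.Nonempty),
        (if R ⊆ gr W c then ∏ p ∈ R, B p else 0)
        = ∑ R ∈ (gr W c).powerset.erase ∅, ∏ p ∈ R, B p := by
      rw [← sum_filter]
      refine sum_congr ?_ fun _ _ => rfl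
      ext R
      simp only [mem_filter, mem_univ, true_and, mem_erase, mem_powerset, nonempty_iff_ne_empty]
    have h6 : ∑ R ∈ (gr W c).powerset, ∏ p ∈ R, B p
        = (∑ R ∈ (gr W c).powerset.erase ∅, ∏ p ∈ R, B p) + 1 := by
      rw [← sum_erase_add _ _ (empty_mem_powerset (gr W c))]
      simp
    rw [h4, h5, h6]
    ring
  rw [sum_congr rfl h1, sum_neg_distrib, sum_comm]
  refine Dvd.dvd.neg_right ?_
  have h3 : ∀ R ∈ (univ : Finset (Finset (Fin n × Fin n))).filter (fun R => R.Nonempty),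
      ∑ c ∈ Cyc W, (if R ⊆ gr W c then ∏ p ∈ R, B p else 0)
        = (∏ p ∈ R, B p) * (hg W R : ℤ) := by
    intro R _
    rw [← sum_filter, sum_const, nsmul_eq_mul, mul_comm]
    rfl
  rw [sum_congr rfl h3]
  have hlog : Nat.log 2 (l - 1) < l - 1 := Nat.log_lt_self 2 (by omega)
  have hsplit : (2 : ℤ) ^ (l - Nat.log 2 (l - 1)) = 2 * 2 ^ (l - 1 - Nat.log 2 (l - 1)) := by
    rw [← pow_succ']
    congr 1
    omega
  rw [hsplit]
  refine two_mul_dvd_sum _ _ (fun R => R.image Prod.swap) _ ?_ ?_ ?_ ?_ ?_ (by positivity)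
  · intro R hR
    have hRn : R.Nonempty := (mem_filter.1 hR).2
    have hpos : 1 ≤ R.card := card_pos.2 hRn
    have h8 : (2 : ℤ) ^ R.card ∣ ∏ p ∈ R, B p := by
      rw [← prod_const]
      refine Finset.prod_dvd_prod_of_dvd _ _ fun p _ => ?_
      rcases Int.units_eq_one_or (σ s(p.1, p.2)) with h | h
      · simp [hB, h]
      · simp [hB, h]
    rcases Nat.lt_or_ge R.card (l - 1 - Nat.log 2 (l - 1)) with hlt | hge
    · have h9 : 2 ^ ((l - R.card - 1) - Nat.log 2 (l - R.card - 1 + 1)) ∣ hg W R := by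
        have := hg_dvd W R
        rw [hW] at this
        exact dvd_trans (pow_dvd_fact _) this
      have hmono : Nat.log 2 (l - R.card - 1 + 1) ≤ Nat.log 2 (l - 1) :=
        Nat.log_mono_right (by omega)
      have h10 : (2 : ℤ) ^ (l - 1 - Nat.log 2 (l - 1)) ∣
          2 ^ R.card * 2 ^ ((l - R.card - 1) - Nat.log 2 (l - R.card - 1 + 1)) := by
        rw [← pow_add]
        exact pow_dvd_pow 2 (by omega)
      exact dvd_trans h10 (mul_dvd_mul h8 (by exact_mod_cast h9))
    · exact Dvd.dvd.mul_right (dvd_trans (pow_dvd_pow 2 hge) h8) _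
  · intro R hR
    rw [mem_filter] at hR ⊢
    exact ⟨mem_univ _, hR.2.image _⟩
  · intro R _
    show (R.image Prod.swap).image Prod.swap = R
    rw [image_image]
    simp
  · intro R _
    show (∏ p ∈ R.image Prod.swap, B p) * (hg W (R.image Prod.swap) : ℤ)
      = (∏ p ∈ R, B p) * (hg W R : ℤ)
    rw [hg_swap, prod_image (fun a _ b _ h => Prod.swap_injective h)]
    congr 1
    refine prod_congr rfl fun p _ => ?_
    simp only [hB, Prod.fst_swap, Prod.snd_swap]
    rw [Sym2.eq_swap]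
  · intro R hR hfix
    have hRn : R.Nonempty := (mem_filter.1 hR).2
    have h0 : hg W R = 0 := by
      unfold hg
      rw [card_eq_zero, filter_eq_empty_iff]
      intro c hc hsub
      obtain ⟨hc1, hc2⟩ := mem_Cyc.1 hc
      obtain ⟨p, hp⟩ := hRn
      have hp' : p.swap ∈ R := by
        rw [← hfix]
        exact mem_image_of_mem _ hp
      obtain ⟨h4, h5⟩ := sub_gr.1 hsub p hp
      obtain ⟨_, h6⟩ := sub_gr.1 hsub _ hp'
      simp only [Prod.fst_swap, Prod.snd_swap] at h6
      exact sq_ne hc1 (by rw [hc2, hW]; exact hl) p.1 (by rw [hc2]; exact h4) (by rw [h5, h6])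
    rw [h0]
    simp

/-- Main theorem, strong form. -/
theorem dvd_negCount_strong {l : ℕ} (hl : 3 ≤ l) (σ : Sym2 (Fin n) → ℤˣ) :
    2 ^ (l - 2 - Nat.log 2 (l - 1)) ∣ negCount n l σ := by
  classical
  have hlog : Nat.log 2 (l - 1) < l - 1 := Nat.log_lt_self 2 (by omega)
  have h1 : (2 : ℤ) * ((univ.filter (fun c : Perm (Fin n) => (c.IsCycle ∧ c.support.card = l) ∧
      ∏ e ∈ edges c, σ e = -1)).card : ℤ)
      = ∑ c ∈ univ.filter (fun c : Perm (Fin n) => c.IsCycle ∧ c.support.card = l),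
        (1 - ∏ e ∈ edges c, (σ e : ℤ)) := by
    have hterm : ∀ c ∈ univ.filter (fun c : Perm (Fin n) => c.IsCycle ∧ c.support.card = l),
        (1 - ∏ e ∈ edges c, (σ e : ℤ)) = if (∏ e ∈ edges c, σ e = -1) then 2 else 0 := by
      intro c _
      have hc : (∏ e ∈ edges c, (σ e : ℤ)) = ((∏ e ∈ edges c, σ e : ℤˣ) : ℤ) := by
        rw [Units.coe_prod]
      rw [hc]
      rcases Int.units_eq_one_or (∏ e ∈ edges c, σ e) with h | h
      · rw [h]; simp
      · rw [h]; simp
    rw [sum_congr rfl hterm, ← sum_filter, sum_const, nsmul_eq_mul, filter_filter]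
    ring
  have h2 : ∑ c ∈ univ.filter (fun c : Perm (Fin n) => c.IsCycle ∧ c.support.card = l),
        (1 - ∏ e ∈ edges c, (σ e : ℤ))
      = ∑ W ∈ (univ : Finset (Finset (Fin n))).filter (fun W => W.card = l),
        ∑ c ∈ Cyc W, (1 - ∏ e ∈ edges c, (σ e : ℤ)) := by
    rw [← sum_fiberwise_of_maps_to (s := univ.filter (fun c : Perm (Fin n) =>
      c.IsCycle ∧ c.support.card = l)) (t := (univ : Finset (Finset (Fin n))).filter
      (fun W => W.card = l)) (g := fun c : Perm (Fin n) => c.support)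
      (fun c hc => mem_filter.2 ⟨mem_univ _, (mem_filter.1 hc).2.2⟩)]
    refine sum_congr rfl fun W hW => ?_
    refine sum_congr ?_ fun _ _ => rfl
    ext c
    rw [mem_filter, mem_filter, mem_Cyc]
    constructor
    · rintro ⟨⟨_, h3, _⟩, h5⟩
      exact ⟨h3, h5⟩
    · rintro ⟨h3, h5⟩
      exact ⟨⟨mem_univ _, h3, by rw [h5]; exact (mem_filter.1 hW).2⟩, h5⟩
  have h7 : (2 : ℤ) ^ (l - Nat.log 2 (l - 1)) ∣ 2 * (2 * (negCount n l σ : ℤ)) := by
    have h8 : (2 : ℤ) * (2 * (negCount n l σ : ℤ))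
        = 2 * ((univ.filter (fun c : Perm (Fin n) => (c.IsCycle ∧ c.support.card = l) ∧
      ∏ e ∈ edges c, σ e = -1)).card : ℤ) := by
      rw [directed_card hl σ]
      push_cast
      ring
    rw [h8, h1, h2]
    refine Finset.dvd_sum fun W hW => ?_
    exact dvd_fixed hl σ W (mem_filter.1 hW).2
  have h11 : (2 : ℤ) ^ (l - Nat.log 2 (l - 1)) = 2 * (2 * 2 ^ (l - 2 - Nat.log 2 (l - 1))) := by
    rw [← pow_succ', ← pow_succ']
    congr 1
    omega
  rw [h11] at h7
  have h12 := Int.dvd_of_mul_dvd_mul_left (by norm_num) h7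
  have h13 := Int.dvd_of_mul_dvd_mul_left (by norm_num) h12
  exact_mod_cast h13

end Pool.Agent.Helper741.NegCircles
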