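import Mathlib
import Pool.Agent.Helper741.NegFinal

namespace Pool.Agent.Helper741.NegCircles

open Finset Equiv

variable {n : ℕ}

theorem hc_empty (W : Finset (Fin n)) : hc W ∅ = (Cyc W).card := by
  classical
  unfold hc
  simp

theorem card_Cyc : ∀ (k : ℕ) (W : Finset (Fin n)), W.card = k + 2 →
    (Cyc W).card = (k + 1).factorial := by
  classical
  intro k
  induction k with
  | zero =>
    intro W hW
    obtain ⟨a, b, hab, rfl⟩ := card_eq_two.1 hW
    have : Cyc ({a, b} : Finset (Fin n)) = {swap a b} := by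
      ext c
      rw [mem_Cyc, mem_singleton]
      constructor
      · rintro ⟨h1, h2⟩
        have h3 : c.support.card = 2 := by rw [h2, card_pair hab]
        obtain ⟨x, y, hxy, rfl⟩ := Perm.card_support_eq_two.1 h3
        rw [Perm.support_swap hxy] at h2
        have hx : x ∈ ({a, b} : Finset (Fin n)) := by rw [← h2]; simp
        have hy : y ∈ ({a, b} : Finset (Fin n)) := by rw [← h2]; simp
        simp only [mem_insert, mem_singleton] at hx hy
        rcases hx with hx | hx <;> rcases hy with hy | hy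
        · exact absurd (hx.trans hy.symm) hxy
        · rw [hx, hy]
        · rw [hx, hy]
          exact swap_comm _ _
        · exact absurd (hx.trans hy.symm) hxy
      · rintro rfl
        exact ⟨Perm.isCycle_swap hab, Perm.support_swap hab⟩
    rw [this]
    simp
  | succ k ih =>
    intro W hW
    obtain ⟨v, hv⟩ : W.Nonempty := by
      rw [← card_pos]
      omega
    have h1 : (Cyc W).card = ∑ w ∈ W.erase v, ((Cyc W).filter (fun c => c v = w)).card := by
      apply card_eq_sum_card_fiberwise
      intro c hc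
      rw [mem_coe, mem_Cyc] at hc
      rw [mem_coe, mem_erase]
      have hvs : v ∈ c.support := by rw [hc.2]; exact hv
      exact ⟨Perm.mem_support.1 hvs, by rw [← hc.2]; exact Perm.apply_mem_support.2 hvs⟩
    rw [h1]
    have h2 : ∀ w ∈ W.erase v, ((Cyc W).filter (fun c => c v = w)).card
        = (k + 1).factorial := by
      intro w hw
      obtain ⟨hwv, hwW⟩ := mem_erase.1 hw
      have h3 : hc W {(v, w)} = hc (W.erase w) (contr v w {(v, w)}) :=
        hc_contr (mem_singleton_self _) hwv.symm hv hwW (by omega)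
          (fun p hp _ => mem_singleton.1 hp)
      have h4 : hc W {(v, w)} = ((Cyc W).filter (fun c => c v = w)).card := by
        unfold hc
        congr 1
        ext c
        simp
      have h5 : contr v w {(v, w)} = ∅ := by
        unfold contr
        simp
      rw [← h4, h3, h5, hc_empty, ih (W.erase w) (by rw [card_erase_of_mem hwW]; omega)]
    rw [sum_congr rfl h2, sum_const, card_erase_of_mem hv, hW, smul_eq_mul,
      Nat.factorial_succ (k + 1)]
    rfl

theorem hc_exact : ∀ (s : ℕ) (W : Finset (Fin n)) (R : Finset (Fin n × Fin n)), R.card = s →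
    (∀ p ∈ R, p.1 ∈ W) → s + 2 ≤ W.card → hc W R ≠ 0 →
    hc W R = (W.card - s - 1).factorial := by
  classical
  intro s
  induction s with
  | zero =>
    intro W R hR _ hW _
    rw [card_eq_zero] at hR
    subst hR
    rw [hc_empty, card_Cyc (W.card - 2) W (by omega)]
    congr 1
    omega
  | succ s ih =>
    intro W R hR hRW hWc h0
    obtain ⟨⟨v, w⟩, hvw⟩ : R.Nonempty := by
      rw [← card_pos]
      omega
    have hne : ((Cyc W).filter (fun c => ∀ p ∈ R, c p.1 = p.2)).Nonempty := by
      rw [← card_pos]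
      exact Nat.pos_of_ne_zero h0
    obtain ⟨c0, hc0⟩ := hne
    obtain ⟨h1, h2⟩ := mem_filter.1 hc0
    have hvW : v ∈ W := hRW _ hvw
    have hcv : c0 v = w := h2 _ hvw
    have hvs : v ∈ c0.support := by rw [(mem_Cyc.1 h1).2]; exact hvW
    have hne : v ≠ w := by
      rw [← hcv]
      exact (Perm.mem_support.1 hvs).symm
    have hwW : w ∈ W := by
      rw [← (mem_Cyc.1 h1).2, ← hcv]
      exact Perm.apply_mem_support.2 hvs
    have hfun : ∀ p ∈ R, p.1 = v → p = (v, w) := by
      intro p hp hpv
      have := h2 p hp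
      rw [hpv, hcv] at this
      exact Prod.ext hpv this.symm
    have heq := hc_contr hvw hne hvW hwW (by omega) hfun
    rw [heq] at h0 ⊢
    have hcard : (contr v w R).card = s := by
      unfold contr
      rw [card_image_of_injOn, card_erase_of_mem hvw, hR]
      · rfl
      · intro p hp q hq hpq
        have hp2 := (mem_erase.1 (mem_coe.1 hp)).2
        have hq2 := (mem_erase.1 (mem_coe.1 hq)).2
        have h22 : p.2 = q.2 := by
          simp only at hpq
          split_ifs at hpq with ha hb hb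
          · exact (Prod.ext_iff.1 hpq).2
          · exact (Prod.ext_iff.1 hpq).2
          · exact (Prod.ext_iff.1 hpq).2
          · rw [hpq]
        have h11 : p.1 = q.1 := c0.injective (by rw [h2 p hp2, h2 q hq2, h22])
        exact Prod.ext h11 h22
    have hsub : ∀ p ∈ contr v w R, p.1 ∈ W.erase w := by
      intro q hq
      obtain ⟨p, hp, rfl⟩ := mem_image.1 hq
      by_cases hpw : p.1 = w
      · rw [if_pos hpw]
        exact mem_erase.2 ⟨hne, hvW⟩
      · rw [if_neg hpw]
        exact mem_erase.2 ⟨hpw, hRW p (mem_erase.1 hp).2⟩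
    have h3 := ih (W.erase w) (contr v w R) hcard hsub
      (by rw [card_erase_of_mem hwW]; omega) h0
    rw [card_erase_of_mem hwW] at h3
    have : W.card - 1 - s - 1 = W.card - (s + 1) - 1 := by omega
    rw [this] at h3
    exact h3

/-- The signature whose negative edges are those in `A`. -/
def sig (A : Finset (Sym2 (Fin n))) : Sym2 (Fin n) → ℤˣ := fun e => if e ∈ A then -1 else 1

theorem sum_eq_four (hn : 3 ≤ n) (σ : Sym2 (Fin n) → ℤˣ) :
    ∑ c ∈ Cyc (univ : Finset (Fin n)), (1 - ∏ e ∈ edges c, (σ e : ℤ))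
      = 4 * (negCount n n σ : ℤ) := by
  classical
  have hC : Cyc (univ : Finset (Fin n))
      = univ.filter (fun c : Perm (Fin n) => c.IsCycle ∧ c.support.card = n) := by
    ext c
    rw [mem_Cyc, mem_filter]
    constructor
    · rintro ⟨h1, h2⟩
      exact ⟨mem_univ _, h1, by rw [h2, card_univ, Fintype.card_fin]⟩
    · rintro ⟨_, h1, h2⟩
      exact ⟨h1, (card_eq_iff_eq_univ _).1 (by rw [h2, Fintype.card_fin])⟩
  have hterm : ∀ c ∈ univ.filter (fun c : Perm (Fin n) => c.IsCycle ∧ c.support.card = n),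
      (1 - ∏ e ∈ edges c, (σ e : ℤ)) = if (∏ e ∈ edges c, σ e = -1) then 2 else 0 := by
    intro c _
    have hc : (∏ e ∈ edges c, (σ e : ℤ)) = ((∏ e ∈ edges c, σ e : ℤˣ) : ℤ) := by
      rw [Units.coe_prod]
    rw [hc]
    rcases Int.units_eq_one_or (∏ e ∈ edges c, σ e) with h | h
    · rw [h]; simp
    · rw [h]; simp
  rw [hC, sum_congr rfl hterm, ← sum_filter, sum_const, nsmul_eq_mul, filter_filter,
    directed_card hn σ]
  push_cast
  ring

theorem moebius (E : Finset (Sym2 (Fin n))) (hE : E.Nonempty) (c : Perm (Fin n)) :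
    ∑ A ∈ E.powerset, (-1 : ℤ) ^ A.card * (1 - ∏ e ∈ edges c, (sig A e : ℤ))
      = - (if E ⊆ edges c then 2 ^ E.card else 0) := by
  classical
  have h1 : ∀ A : Finset (Sym2 (Fin n)), ∏ e ∈ edges c, (sig A e : ℤ)
      = ∏ e ∈ A, (if e ∈ edges c then (-1 : ℤ) else 1) := by
    intro A
    have h2 : ∀ e, (sig A e : ℤ) = if e ∈ A then (-1 : ℤ) else 1 := by
      intro e
      unfold sig
      split_ifs <;> simp
    simp only [h2]
    rw [← prod_filter, ← prod_filter]
    congr 1
    ext e
    simp [and_comm]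
  have h3 : ∀ A ∈ E.powerset, (-1 : ℤ) ^ A.card * (1 - ∏ e ∈ edges c, (sig A e : ℤ))
      = (-1 : ℤ) ^ A.card - ∏ e ∈ A, (-1 * (if e ∈ edges c then (-1 : ℤ) else 1)) := by
    intro A _
    rw [h1, prod_mul_distrib, prod_const]
    ring
  rw [sum_congr rfl h3, sum_sub_distrib, sum_powerset_neg_one_pow_card_of_nonempty hE,
    ← prod_one_add]
  by_cases hsub : E ⊆ edges c
  · rw [if_pos hsub]
    have : ∀ e ∈ E, (1 + -1 * (if e ∈ edges c then (-1 : ℤ) else 1)) = 2 := by
      intro e he
      rw [if_pos (hsub he)]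
      norm_num
    rw [prod_congr rfl this, prod_const]
    ring
  · rw [if_neg hsub]
    obtain ⟨e, he, hne⟩ := not_subset.1 hsub
    rw [prod_eq_zero he (by rw [if_neg hne]; norm_num)]
    ring

open Classical in
theorem key_dvd (hn : 3 ≤ n) (D : ℤ) (hD : ∀ σ : Sym2 (Fin n) → ℤˣ, D ∣ (negCount n n σ : ℤ))
    (E : Finset (Sym2 (Fin n))) (hE : E.Nonempty) :
    4 * D ∣ 2 ^ E.card * (((Cyc (univ : Finset (Fin n))).filter (fun c => E ⊆ edges c)).card : ℤ)
    := by
  have h1 : ∑ A ∈ E.powerset, (-1 : ℤ) ^ A.card *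
      (∑ c ∈ Cyc (univ : Finset (Fin n)), (1 - ∏ e ∈ edges c, (sig A e : ℤ)))
      = - (2 ^ E.card *
        (((Cyc (univ : Finset (Fin n))).filter (fun c => E ⊆ edges c)).card : ℤ)) := by
    simp only [mul_sum]
    rw [sum_comm, sum_congr rfl (fun c _ => moebius E hE c), sum_neg_distrib, ← sum_filter,
      sum_const, nsmul_eq_mul]
    ring
  have h2 : 4 * D ∣ ∑ A ∈ E.powerset, (-1 : ℤ) ^ A.card *
      (∑ c ∈ Cyc (univ : Finset (Fin n)), (1 - ∏ e ∈ edges c, (sig A e : ℤ))) := by
    refine Finset.dvd_sum fun A _ => Dvd.dvd.mul_left ?_ _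
    rw [sum_eq_four hn]
    exact mul_dvd_mul_left _ (hD _)
  rw [h1] at h2
  exact (dvd_neg).1 h2

end Pool.Agent.Helper741.NegCircles
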