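import Mathlib
import Pool.Agent.Helper741.NegSharp

namespace Pool.Agent.Helper741.NegCircles

open Finset Equiv

variable {n : ℕ}

theorem pw_inj {c0 : Perm (Fin n)} (h1 : c0.IsCycle) (h2 : c0.support = univ) (r : Fin n)
    {a b : ℕ} (ha : a < n) (hb : b < n) (h : (c0 ^ a) r = (c0 ^ b) r) : a = b := by
  have key : ∀ a b : ℕ, a < b → b < n → (c0 ^ a) r = (c0 ^ b) r → False := by
    intro a b hab hb h
    have h3 : (c0 ^ (b - a)) r = r := by
      apply (c0 ^ a).injective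
      rw [← Perm.mul_apply, ← pow_add, Nat.add_sub_cancel' hab.le]
      exact h.symm
    have h4 : c0 ^ (b - a) = 1 := by
      rw [h1.pow_eq_one_iff]
      exact ⟨r, Perm.mem_support.1 (by rw [h2]; exact mem_univ _), h3⟩
    have h5 := orderOf_dvd_of_pow_eq_one h4
    rw [h1.orderOf, h2, card_univ, Fintype.card_fin] at h5
    have := Nat.le_of_dvd (by omega) h5
    omega
  rcases lt_trichotomy a b with hab | hab | hab
  · exact (key a b hab hb h).elim
  · exact hab
  · exact (key b a hab ha h.symm).elim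

theorem path_iff {c0 c : Perm (Fin n)} (h1 : c0.IsCycle) (h2 : c0.support = univ) (r : Fin n)
    {j : ℕ} (hj : j + 2 ≤ n) (hj1 : 1 ≤ j) (hc : c ∈ Cyc (univ : Finset (Fin n))) :
    (∀ i < j, s((c0 ^ i) r, (c0 ^ (i + 1)) r) ∈ edges c) ↔
      (∀ i < j, c ((c0 ^ i) r) = (c0 ^ (i + 1)) r) ∨
      (∀ i < j, c ((c0 ^ (i + 1)) r) = (c0 ^ i) r) := by
  constructor
  · intro h
    have hnb : ∀ i < j, (c0 ^ (i + 1)) r = c ((c0 ^ i) r) ∨
        c ((c0 ^ (i + 1)) r) = (c0 ^ i) r := fun i hi => nbr (h i hi)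
    rcases hnb 0 hj1 with h0 | h0
    · left
      intro i
      induction i with
      | zero =>
        intro _
        exact h0.symm
      | succ i ih =>
        intro hi
        have h3 := ih (by omega)
        rcases hnb (i + 1) hi with h4 | h4
        · exact h4.symm
        · exfalso
          have h5 : (c0 ^ (i + 1 + 1)) r = (c0 ^ i) r := c.injective (by rw [h4, h3])
          have := pw_inj h1 h2 r (by omega) (by omega) h5
          omega
    · right
      intro i
      induction i with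
      | zero =>
        intro _
        exact h0
      | succ i ih =>
        intro hi
        have h3 := ih (by omega)
        rcases hnb (i + 1) hi with h4 | h4
        · exfalso
          have h5 : (c0 ^ (i + 1 + 1)) r = (c0 ^ i) r := by rw [h4, h3]
          have := pw_inj h1 h2 r (by omega) (by omega) h5
          omega
        · exact h4
  · obtain ⟨hc1, hc2⟩ := mem_Cyc.1 hc
    rintro (h | h) i hi
    · refine mem_edges.2 ⟨(c0 ^ i) r, by rw [hc2]; exact mem_univ _, ?_⟩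
      rw [h i hi]
    · refine mem_edges.2 ⟨(c0 ^ (i + 1)) r, by rw [hc2]; exact mem_univ _, ?_⟩
      rw [h i hi]
      exact Sym2.eq_swap

theorem path_card {c0 : Perm (Fin n)} (h1 : c0.IsCycle) (h2 : c0.support = univ) (r : Fin n)
    {j : ℕ} (hj : j + 2 ≤ n) :
    ((range j).image (fun i => s((c0 ^ i) r, (c0 ^ (i + 1)) r))).card = j := by
  rw [card_image_of_injOn, card_range]
  intro a ha b hb h
  rw [mem_coe, mem_range] at ha hb
  rcases Sym2.eq_iff.1 h with ⟨e1, _⟩ | ⟨e1, e2⟩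
  · exact pw_inj h1 h2 r (by omega) (by omega) e1
  · have f1 := pw_inj h1 h2 r (by omega) (by omega) e1
    have f2 := pw_inj h1 h2 r (by omega) (by omega) e2
    omega

open Classical in
theorem path_count {c0 : Perm (Fin n)} (h1 : c0.IsCycle) (h2 : c0.support = univ) (r : Fin n)
    {j : ℕ} (hj : j + 2 ≤ n) (hj1 : 1 ≤ j) :
    ((Cyc (univ : Finset (Fin n))).filter (fun c =>
      ((range j).image (fun i => s((c0 ^ i) r, (c0 ^ (i + 1)) r))) ⊆ edges c)).card
      = 2 * (n - j - 1).factorial := by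
  set Rf : Finset (Fin n × Fin n) := (range j).image
    (fun i => ((c0 ^ i) r, (c0 ^ (i + 1)) r)) with hRf
  have hf : ∀ c : Perm (Fin n), (∀ p ∈ Rf, c p.1 = p.2) ↔
      (∀ i < j, c ((c0 ^ i) r) = (c0 ^ (i + 1)) r) := by
    intro c
    constructor
    · intro h i hi
      exact h _ (mem_image.2 ⟨i, mem_range.2 hi, rfl⟩)
    · intro h p hp
      obtain ⟨i, hi, rfl⟩ := mem_image.1 hp
      exact h i (mem_range.1 hi)
  have hb : ∀ c : Perm (Fin n), (∀ p ∈ Rf.image Prod.swap, c p.1 = p.2) ↔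
      (∀ i < j, c ((c0 ^ (i + 1)) r) = (c0 ^ i) r) := by
    intro c
    constructor
    · intro h i hi
      exact h ((c0 ^ (i + 1)) r, (c0 ^ i) r) (mem_image.2
        ⟨((c0 ^ i) r, (c0 ^ (i + 1)) r), mem_image.2 ⟨i, mem_range.2 hi, rfl⟩, rfl⟩)
    · intro h q hq
      obtain ⟨p, hp, rfl⟩ := mem_image.1 hq
      obtain ⟨i, hi, rfl⟩ := mem_image.1 hp
      exact h i (mem_range.1 hi)
  have hcardf : Rf.card = j := by
    rw [hRf, card_image_of_injOn, card_range]
    intro a ha b hb h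
    rw [mem_coe, mem_range] at ha hb
    exact pw_inj h1 h2 r (by omega) (by omega) (Prod.ext_iff.1 h).1
  have hcardb : (Rf.image Prod.swap).card = j := by
    rw [card_image_of_injective _ Prod.swap_injective, hcardf]
  have hset : (Cyc (univ : Finset (Fin n))).filter (fun c =>
      ((range j).image (fun i => s((c0 ^ i) r, (c0 ^ (i + 1)) r))) ⊆ edges c)
      = (Cyc (univ : Finset (Fin n))).filter (fun c => ∀ p ∈ Rf, c p.1 = p.2) ∪
        (Cyc (univ : Finset (Fin n))).filter (fun c => ∀ p ∈ Rf.image Prod.swap, c p.1 = p.2) := by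
    rw [← filter_or]
    refine filter_congr fun c hc => ?_
    rw [hf, hb, ← path_iff h1 h2 r hj hj1 hc]
    constructor
    · intro h i hi
      exact h (mem_image.2 ⟨i, mem_range.2 hi, rfl⟩)
    · intro h e he
      obtain ⟨i, hi, rfl⟩ := mem_image.1 he
      exact h i (mem_range.1 hi)
  have hdisj : Disjoint
      ((Cyc (univ : Finset (Fin n))).filter (fun c => ∀ p ∈ Rf, c p.1 = p.2))
      ((Cyc (univ : Finset (Fin n))).filter (fun c => ∀ p ∈ Rf.image Prod.swap, c p.1 = p.2)) := by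
    rw [disjoint_left]
    intro c hc1 hc2
    obtain ⟨hcc, hc1⟩ := mem_filter.1 hc1
    obtain ⟨_, hc2⟩ := mem_filter.1 hc2
    have e1 := (hf c).1 hc1 0 hj1
    have e2 := (hb c).1 hc2 0 hj1
    obtain ⟨g1, g2⟩ := mem_Cyc.1 hcc
    refine sq_ne g1 (by rw [g2, card_univ, Fintype.card_fin]; omega) ((c0 ^ 0) r)
      (by rw [g2]; exact mem_univ _) ?_
    rw [e1, e2]
  rw [hset, card_union_of_disjoint hdisj]
  have e1 : ((Cyc (univ : Finset (Fin n))).filter (fun c => ∀ p ∈ Rf, c p.1 = p.2)).card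
      = (n - j - 1).factorial := by
    have hne : hc univ Rf ≠ 0 := by
      unfold hc
      rw [← Nat.pos_iff_ne_zero, card_pos]
      exact ⟨c0, mem_filter.2 ⟨mem_Cyc.2 ⟨h1, h2⟩, (hf c0).2
        (fun i _ => by rw [pow_succ', Perm.mul_apply])⟩⟩
    have h3 := hc_exact j univ Rf hcardf (fun p _ => mem_univ _)
      (by rw [card_univ, Fintype.card_fin]; exact hj) hne
    rw [card_univ, Fintype.card_fin] at h3
    rw [← h3]
    unfold hc
    congr!
  have e2 : ((Cyc (univ : Finset (Fin n))).filter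
      (fun c => ∀ p ∈ Rf.image Prod.swap, c p.1 = p.2)).card = (n - j - 1).factorial := by
    have hne : hc univ (Rf.image Prod.swap) ≠ 0 := by
      unfold hc
      rw [← Nat.pos_iff_ne_zero, card_pos]
      refine ⟨c0⁻¹, mem_filter.2 ⟨mem_Cyc.2 ⟨h1.inv, by rw [Perm.support_inv, h2]⟩,
        (hb c0⁻¹).2 (fun i _ => ?_)⟩⟩
      rw [pow_succ', Perm.mul_apply]
      simp
    have h3 := hc_exact j univ (Rf.image Prod.swap) hcardb (fun p _ => mem_univ _)
      (by rw [card_univ, Fintype.card_fin]; exact hj) hne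
    rw [card_univ, Fintype.card_fin] at h3
    rw [← h3]
    unfold hc
    congr!
  rw [e1, e2]
  ring

theorem sharp {l : ℕ} (hl : 3 ≤ l) :
    ∃ σ : Sym2 (Fin l) → ℤˣ, ¬ 2 ^ (l - 1 - Nat.log 2 (l - 1)) ∣ negCount l l σ := by
  classical
  by_contra hcon
  have hcon : ∀ σ : Sym2 (Fin l) → ℤˣ, 2 ^ (l - 1 - Nat.log 2 (l - 1)) ∣ negCount l l σ := by
    intro σ
    by_contra h
    exact hcon ⟨σ, h⟩
  obtain ⟨t, ht⟩ : ∃ t, t = Nat.log 2 (l - 1) := ⟨_, rfl⟩
  rw [← ht] at hcon
  have ht1 : 1 ≤ t := by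
    rw [ht]
    exact Nat.log_pos (by norm_num) (by omega)
  have ht2 : 2 ^ t ≤ l - 1 := by
    rw [ht]
    exact Nat.pow_log_le_self 2 (by omega)
  have ht3 : t < 2 ^ t := Nat.lt_two_pow_self
  have hp2 : 2 ≤ 2 ^ t := by
    calc 2 = 2 ^ 1 := rfl
      _ ≤ 2 ^ t := Nat.pow_le_pow_right (by norm_num) ht1
  obtain ⟨m, rfl⟩ : ∃ m, l = m + 2 := ⟨l - 2, by omega⟩
  have h1 : (finRotate (m + 2)).IsCycle := isCycle_finRotate
  have h2 : (finRotate (m + 2)).support = univ := support_finRotate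
  obtain ⟨P, hP⟩ : ∃ P, P = 2 ^ t := ⟨_, rfl⟩
  obtain ⟨j, hj⟩ : ∃ j, j = m + 2 - P := ⟨_, rfl⟩
  rw [← hP] at ht2 ht3 hp2
  have hjn : j + 2 ≤ m + 2 := by omega
  have hj1 : 1 ≤ j := by omega
  have hEc := path_card h1 h2 0 hjn
  have hEn : ((range j).image (fun i => s(((finRotate (m + 2)) ^ i) 0,
      ((finRotate (m + 2)) ^ (i + 1)) 0))).Nonempty := by
    rw [← card_pos]
    omega
  have h3 := key_dvd (n := m + 2) hl ((2 : ℤ) ^ (m + 2 - 1 - t))
    (fun σ => by exact_mod_cast hcon σ) _ hEn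
  rw [hEc, path_count h1 h2 0 hjn hj1] at h3
  have h4 : m + 2 - j - 1 = P - 1 := by omega
  rw [h4] at h3
  have h5 : (4 * 2 ^ (m + 2 - 1 - t)) ∣ 2 ^ j * (2 * (P - 1).factorial) := by
    exact_mod_cast h3
  have h6 : 4 * 2 ^ (m + 2 - 1 - t) * 2 ^ t ∣ 2 ^ j * (2 * (P - 1).factorial) * 2 ^ t :=
    Nat.mul_dvd_mul_right h5 _
  have h7 : 4 * 2 ^ (m + 2 - 1 - t) * 2 ^ t = 2 ^ (j + 1) * 2 ^ P := by
    rw [show (4 : ℕ) = 2 ^ 2 by norm_num, ← pow_add, ← pow_add, ← pow_add]
    congr 1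
    omega
  have h8 : 2 ^ j * (2 * (P - 1).factorial) * 2 ^ t = 2 ^ (j + 1) * P.factorial := by
    rw [← hP, ← Nat.mul_factorial_pred (show P ≠ 0 by omega)]
    ring
  rw [h7, h8] at h6
  have h9 := Nat.dvd_of_mul_dvd_mul_left (by positivity) h6
  have h10 := Nat.emultiplicity_two_factorial_lt (n := P) (by omega)
  exact absurd (pow_dvd_iff_le_emultiplicity.1 h9) (not_le.2 h10)

end Pool.Agent.Helper741.NegCircles
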