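import Mathlib
import Pool.Agent.Helper741.NegSharp2

namespace Pool.Agent.Helper741.NegCircles

open Finset Equiv

theorem gcd_exact {l : ℕ} (hl : 3 ≤ l) (d : ℕ) (hd : ∀ σ : Sym2 (Fin l) → ℤˣ,
    d ∣ negCount l l σ) : d ∣ 2 ^ (l - 2 - Nat.log 2 (l - 1)) := by
  classical
  obtain ⟨m, hm⟩ : ∃ m, l = m + 3 := ⟨l - 3, by omega⟩
  have h0 : d ∣ 2 ^ (l - 1) := by
    subst hm
    have h1 : (finRotate (m + 3)).IsCycle := isCycle_finRotate
    have h2 : (finRotate (m + 3)).support = univ := support_finRotate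
    have hEc := path_card h1 h2 0 (j := m + 1) (by omega)
    have hEn : ((range (m + 1)).image (fun i => s(((finRotate (m + 3)) ^ i) 0,
        ((finRotate (m + 3)) ^ (i + 1)) 0))).Nonempty := by
      rw [← card_pos]
      omega
    have h3 := key_dvd (n := m + 3) hl (d : ℤ)
      (fun σ => by exact_mod_cast hd σ) _ hEn
    rw [hEc, path_count h1 h2 0 (by omega) (by omega)] at h3
    have h4 : m + 3 - (m + 1) - 1 = 1 := by omega
    rw [h4, Nat.factorial_one] at h3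
    have h5 : (4 * d) ∣ 2 ^ (m + 1) * (2 * 1) := by exact_mod_cast h3
    have h6 : 2 ^ (m + 1) * (2 * 1) = 2 ^ (m + 3 - 1) := by
      rw [show m + 3 - 1 = m + 1 + 1 by omega, pow_succ 2 (m + 1)]
    rw [h6] at h5
    exact dvd_trans (Dvd.intro_left 4 rfl) h5
  obtain ⟨a, _, ha⟩ := (Nat.dvd_prime_pow Nat.prime_two).1 h0
  obtain ⟨σ, hσ⟩ := sharp hl
  rw [ha]
  refine pow_dvd_pow 2 ?_
  by_contra hlt
  apply hσ
  refine dvd_trans (pow_dvd_pow 2 ?_) (ha ▸ hd σ)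
  have := Nat.log_lt_self 2 (show l - 1 ≠ 0 by omega)
  omega

variable {n : ℕ}

theorem card_edges {c : Perm (Fin n)} (hc : c.IsCycle) (hl : 3 ≤ c.support.card) :
    (edges c).card = c.support.card := by
  unfold edges
  exact card_image_of_injOn (edge_inj hc hl)

theorem two_mul_negCount (l : ℕ) (σ : Sym2 (Fin n) → ℤˣ) :
    ∑ C ∈ circles n l, (1 - ∏ e ∈ C, (σ e : ℤ)) = 2 * (negCount n l σ : ℤ) := by
  classical
  have hterm : ∀ C ∈ circles n l, (1 - ∏ e ∈ C, (σ e : ℤ))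
      = if (∏ e ∈ C, σ e = -1) then 2 else 0 := by
    intro C _
    have hc : (∏ e ∈ C, (σ e : ℤ)) = ((∏ e ∈ C, σ e : ℤˣ) : ℤ) := by rw [Units.coe_prod]
    rw [hc]
    rcases Int.units_eq_one_or (∏ e ∈ C, σ e) with h | h
    · rw [h]; simp
    · rw [h]; simp
  rw [sum_congr rfl hterm, ← sum_filter, sum_const, nsmul_eq_mul, mul_comm]
  rfl

theorem gcd_upper {l : ℕ} (hl : 3 ≤ l) (hn : l ≤ n) (d : ℕ)
    (hd : ∀ σ : Sym2 (Fin n) → ℤˣ, d ∣ negCount n l σ) : d ∣ 2 ^ (l - 1) := by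
  classical
  obtain ⟨W, _, hW⟩ := exists_subset_card_eq (s := (univ : Finset (Fin n))) (n := l)
    (by rw [card_univ, Fintype.card_fin]; exact hn)
  have hcyc : (Cyc W).Nonempty := by
    rw [← card_pos, card_Cyc (l - 2) W (by omega)]
    exact Nat.factorial_pos _
  obtain ⟨c0, hc0⟩ := hcyc
  obtain ⟨g1, g2⟩ := mem_Cyc.1 hc0
  obtain ⟨E, hE⟩ : ∃ E, E = edges c0 := ⟨_, rfl⟩
  have hEc : E.card = l := by
    rw [hE, card_edges g1 (by rw [g2, hW]; exact hl), g2, hW]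
  have hEn : E.Nonempty := by
    rw [← card_pos]
    omega
  have hEmem : E ∈ circles n l := mem_circles.2 ⟨c0, g1, by rw [g2, hW], hE.symm⟩
  have h1 : ∑ A ∈ E.powerset, (-1 : ℤ) ^ A.card *
      (∑ C ∈ circles n l, (1 - ∏ e ∈ C, (sig A e : ℤ))) = - 2 ^ l := by
    simp only [mul_sum]
    rw [sum_comm]
    have h2 : ∀ C ∈ circles n l, ∑ A ∈ E.powerset, (-1 : ℤ) ^ A.card *
        (1 - ∏ e ∈ C, (sig A e : ℤ)) = if C = E then - 2 ^ l else 0 := by
      intro C hC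
      obtain ⟨c, e1, e2, rfl⟩ := mem_circles.1 hC
      rw [moebius E hEn c]
      by_cases h : edges c = E
      · rw [if_pos h, if_pos h.symm.subset, hEc]
      · rw [if_neg h, if_neg, neg_zero]
        intro hsub
        exact h (eq_of_subset_of_card_le hsub
          (by rw [card_edges e1 (by omega), e2, hEc])).symm
    rw [sum_congr rfl h2, sum_ite_eq', if_pos hEmem]
  have h2 : 2 * (d : ℤ) ∣ - 2 ^ l := by
    rw [← h1]
    refine Finset.dvd_sum fun A _ => Dvd.dvd.mul_left ?_ _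
    rw [two_mul_negCount]
    exact mul_dvd_mul_left _ (by exact_mod_cast hd _)
  have h3 : 2 * d ∣ 2 ^ l := by
    have := (dvd_neg).1 h2
    exact_mod_cast this
  obtain ⟨m, rfl⟩ : ∃ m, l = m + 1 := ⟨l - 1, by omega⟩
  rw [pow_succ, mul_comm (2 ^ m) 2] at h3
  exact Nat.dvd_of_mul_dvd_mul_left (by norm_num) h3

end Pool.Agent.Helper741.NegCircles
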