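import Mathlib

namespace Pool.Agent.Helper741.PosetChains

/-- The set of maximal chains of a partially ordered set. -/
def MaxChains (P : Type*) [PartialOrder P] : Set (Set P) := {C | IsMaxChain (· ≤ ·) C}

/-- The number of maximal chains that meet `A`. -/
noncomputable def meetCount (P : Type*) [PartialOrder P] (A : Set P) : ℕ :=
  {C | C ∈ MaxChains P ∧ (C ∩ A).Nonempty}.ncard

/-- Property (∗). -/
def PropStar (P : Type*) [PartialOrder P] : Prop :=
  ∀ A : Set P, (A.ncard : ℚ) / (Nat.card P : ℚ) ≤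
    (meetCount P A : ℚ) / ((MaxChains P).ncard : ℚ)

theorem maxChains_pos (P : Type*) [PartialOrder P] [Finite P] :
    0 < (MaxChains P).ncard := by
  rw [Set.ncard_pos (Set.toFinite _)]
  exact ⟨maxChain (· ≤ ·), maxChain_spec⟩

theorem star_iff (P : Type*) [PartialOrder P] [Finite P] [Nonempty P] :
    PropStar P ↔ ∀ A : Set P, A.ncard * (MaxChains P).ncard ≤ meetCount P A * Nat.card P := by
  have h1 : (0 : ℚ) < ((MaxChains P).ncard : ℚ) := by exact_mod_cast maxChains_pos P
  have h2 : (0 : ℚ) < (Nat.card P : ℚ) := by exact_mod_cast Nat.card_pos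
  refine forall_congr' fun A => ?_
  rw [div_le_div_iff₀ h2 h1]
  exact_mod_cast Iff.rfl

theorem star_of_transport {P : Type*} [PartialOrder P] [Fintype P] [Nonempty P]
    {ι : Type*} (I : Finset ι) (F : ι → Set P) (hinj : Set.InjOn F I)
    (hrange : F '' (I : Set ι) = MaxChains P)
    (T : ι → P → ℕ) (s d : ℕ) (hd : 0 < d)
    (hsupp : ∀ i ∈ I, ∀ x, T i x ≠ 0 → x ∈ F i)
    (hs : ∀ i ∈ I, ∑ x, T i x ≤ s)
    (hdx : ∀ x, d ≤ ∑ i ∈ I, T i x)
    (hc : s * I.card ≤ d * Fintype.card P) : PropStar P := by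
  classical
  rw [star_iff]
  intro A
  have e1 : (MaxChains P).ncard = I.card := by
    rw [← hrange, hinj.ncard_image, Set.ncard_coe_finset]
  have e2 : meetCount P A = (I.filter (fun i => (F i ∩ A).Nonempty)).card := by
    unfold meetCount
    have : {C | C ∈ MaxChains P ∧ (C ∩ A).Nonempty}
        = F '' ((I.filter (fun i => (F i ∩ A).Nonempty) : Finset ι) : Set ι) := by
      ext C
      constructor
      · rintro ⟨hC, hA⟩
        rw [← hrange] at hC
        obtain ⟨i, hi, rfl⟩ := hC
        refine ⟨i, ?_, rfl⟩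
        simpa using ⟨hi, hA⟩
      · rintro ⟨i, hi, rfl⟩
        have hi' : i ∈ I ∧ (F i ∩ A).Nonempty := by simpa using hi
        refine ⟨?_, hi'.2⟩
        rw [← hrange]
        exact ⟨i, hi'.1, rfl⟩
    rw [this, (hinj.mono (fun i hi => Finset.mem_coe.2
      (Finset.mem_filter.1 (Finset.mem_coe.1 hi)).1)).ncard_image, Set.ncard_coe_finset]
  have e3 : A.ncard = A.toFinset.card := Set.ncard_eq_toFinset_card' A
  have key : d * A.toFinset.card ≤ s * (I.filter (fun i => (F i ∩ A).Nonempty)).card := by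
    calc d * A.toFinset.card = ∑ x ∈ A.toFinset, d := by
            rw [Finset.sum_const, smul_eq_mul, mul_comm]
      _ ≤ ∑ x ∈ A.toFinset, ∑ i ∈ I, T i x := Finset.sum_le_sum fun x _ => hdx x
      _ = ∑ i ∈ I, ∑ x ∈ A.toFinset, T i x := Finset.sum_comm
      _ ≤ ∑ i ∈ I, (if (F i ∩ A).Nonempty then s else 0) := by
            refine Finset.sum_le_sum fun i hi => ?_
            split_ifs with h
            · exact le_trans (Finset.sum_le_sum_of_subset (Finset.subset_univ _)) (hs i hi)
            · refine le_of_eq (Finset.sum_eq_zero fun x hx => ?_)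
              by_contra hne
              exact h ⟨x, hsupp i hi x hne, by simpa using hx⟩
      _ = s * (I.filter (fun i => (F i ∩ A).Nonempty)).card := by
            rw [← Finset.sum_filter, Finset.sum_const, smul_eq_mul, mul_comm]
  rw [e1, e2, e3, Nat.card_eq_fintype_card]
  refine Nat.le_of_mul_le_mul_left ?_ hd
  calc d * (A.toFinset.card * I.card) = (d * A.toFinset.card) * I.card := by ring
    _ ≤ (s * (I.filter (fun i => (F i ∩ A).Nonempty)).card) * I.card :=
        Nat.mul_le_mul_right _ key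
    _ = (I.filter (fun i => (F i ∩ A).Nonempty)).card * (s * I.card) := by ring
    _ ≤ (I.filter (fun i => (F i ∩ A).Nonempty)).card * (d * Fintype.card P) :=
        Nat.mul_le_mul_left _ hc
    _ = d * ((I.filter (fun i => (F i ∩ A).Nonempty)).card * Fintype.card P) := by ring

theorem maxChains_map {P Q : Type*} [PartialOrder P] [PartialOrder Q] (e : P ≃o Q) :
    MaxChains Q = (fun C => e '' C) '' MaxChains P := by
  ext C
  constructor
  · intro hC
    refine ⟨e.symm '' C, ?_, ?_⟩
    · exact IsMaxChain.image e.symm hC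
    · simp [Set.image_image]
  · rintro ⟨D, hD, rfl⟩
    exact IsMaxChain.image e hD

theorem star_congr {P Q : Type*} [PartialOrder P] [PartialOrder Q] [Finite P] [Nonempty P]
    (e : P ≃o Q) (h : PropStar P) : PropStar Q := by
  have : Finite Q := Finite.of_equiv P e.toEquiv
  have : Nonempty Q := ⟨e (Classical.arbitrary P)⟩
  rw [star_iff] at h ⊢
  intro A
  have hinj : Function.Injective (fun C : Set P => e '' C) := Set.image_injective.2 e.injective
  have e1 : (MaxChains Q).ncard = (MaxChains P).ncard := by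
    rw [maxChains_map e, Set.ncard_image_of_injective _ hinj]
  have e2 : (e ⁻¹' A).ncard = A.ncard := by
    have : e '' (e ⁻¹' A) = A := Set.image_preimage_eq A e.surjective
    conv_rhs => rw [← this]
    rw [Set.ncard_image_of_injective _ e.injective]
  have e3 : meetCount Q A = meetCount P (e ⁻¹' A) := by
    unfold meetCount
    have : {C | C ∈ MaxChains Q ∧ (C ∩ A).Nonempty}
        = (fun C => e '' C) '' {C | C ∈ MaxChains P ∧ (C ∩ e ⁻¹' A).Nonempty} := by
      ext C
      constructor
      · rintro ⟨hC, x, hxC, hxA⟩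
        rw [maxChains_map e] at hC
        obtain ⟨D, hD, rfl⟩ := hC
        obtain ⟨y, hy, rfl⟩ := hxC
        exact ⟨D, ⟨hD, y, hy, hxA⟩, rfl⟩
      · rintro ⟨D, ⟨hD, y, hy, hyA⟩, rfl⟩
        exact ⟨by rw [maxChains_map e]; exact ⟨D, hD, rfl⟩, e y, ⟨y, hy, rfl⟩, hyA⟩
    rw [this, Set.ncard_image_of_injective _ hinj]
  have e4 : Nat.card Q = Nat.card P := (Nat.card_congr e.toEquiv).symm
  have := h (e ⁻¹' A)
  rw [e1, e3, e4, ← e2]
  exact this

end Pool.Agent.Helper741.PosetChains
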