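import Mathlib
import Pool.Agent.Helper741.PosetChains

namespace Pool.Agent.Helper741.PosetChains

variable {P : Type*} [PartialOrder P]

/-- A maximal chain through `a` contains the whole principal ideal of `a` if that ideal is a
chain. -/
theorem mem_of_le_of_chain {C : Set P} (hC : IsMaxChain (· ≤ ·) C) {a b : P} (ha : a ∈ C)
    (hch : IsChain (· ≤ ·) (Set.Iic a)) (hba : b ≤ a) : b ∈ C := by
  have hins : IsChain (· ≤ ·) (insert b C) := by
    refine hC.1.insert fun z hz _ => ?_
    rcases hC.1.total hz ha with h | h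
    · exact hch.total (Set.mem_Iic.2 hba) (Set.mem_Iic.2 h)
    · exact Or.inl (le_trans hba h)
  rw [hC.2 hins (Set.subset_insert _ _)]
  exact Set.mem_insert _ _

theorem meetCount_le (A : Set P) [Finite P] : meetCount P A ≤ (MaxChains P).ncard := by
  unfold meetCount
  exact Set.ncard_le_ncard (fun C hC => hC.1) (Set.toFinite _)

theorem meetCount_mono {A B : Set P} (h : A ⊆ B) [Finite P] :
    meetCount P A ≤ meetCount P B := by
  unfold meetCount
  exact Set.ncard_le_ncard (fun C hC => ⟨hC.1, hC.2.mono (Set.inter_subset_inter_right _ h)⟩)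
    (Set.toFinite _)

/-- A greatest element lies in every maximal chain. -/
theorem top_mem_maxChain {C : Set P} (hC : IsMaxChain (· ≤ ·) C) {t : P} (ht : IsTop t) :
    t ∈ C := by
  have hins : IsChain (· ≤ ·) (insert t C) := hC.1.insert fun z _ _ => Or.inr (ht z)
  rw [hC.2 hins (Set.subset_insert _ _)]
  exact Set.mem_insert _ _

theorem meetCount_top [Finite P] {A : Set P} {t : P} (ht : IsTop t) (htA : t ∈ A) :
    meetCount P A = (MaxChains P).ncard := by
  unfold meetCount
  congr 1
  ext C
  exact ⟨fun h => h.1, fun h => ⟨h, t, top_mem_maxChain h ht, htA⟩⟩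

/-- Chains through pairwise incomparable elements are disjoint families. -/
theorem sum_le_meetCount [Fintype P] (M : Finset P) (A : Set P) (hMA : ↑M ⊆ A)
    (hM : ∀ x ∈ M, ∀ y ∈ M, x ≤ y → x = y) :
    ∑ x ∈ M, meetCount P {x} ≤ meetCount P A := by
  classical
  have hfin : ∀ S : Set (Set P), S.Finite := fun S => Set.toFinite S
  have e1 : ∀ B : Set P, meetCount P B
      = (hfin {C | C ∈ MaxChains P ∧ (C ∩ B).Nonempty}).toFinset.card := by
    intro B
    unfold meetCount
    exact Set.ncard_eq_toFinset_card _ _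
  rw [e1 A]
  calc ∑ x ∈ M, meetCount P {x}
      = ∑ x ∈ M, (hfin {C | C ∈ MaxChains P ∧ (C ∩ {x}).Nonempty}).toFinset.card :=
        Finset.sum_congr rfl fun x _ => e1 {x}
    _ = (M.biUnion fun x =>
          (hfin {C | C ∈ MaxChains P ∧ (C ∩ {x}).Nonempty}).toFinset).card := by
        rw [Finset.card_biUnion]
        intro x hx y hy hxy
        rw [Function.onFun, Finset.disjoint_left]
        intro C hCx hCy
        rw [Set.Finite.mem_toFinset] at hCx hCy
        obtain ⟨hC, u, huC, hu⟩ := hCx
        obtain ⟨_, v, hvC, hv⟩ := hCy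
        rw [Set.mem_singleton_iff] at hu hv
        subst hu
        subst hv
        rcases hC.1.total huC hvC with h | h
        · exact hxy (hM _ hx _ hy h)
        · exact hxy (hM _ hy _ hx h).symm
    _ ≤ _ := by
        refine Finset.card_le_card fun C hC => ?_
        rw [Finset.mem_biUnion] at hC
        obtain ⟨x, hx, hC⟩ := hC
        rw [Set.Finite.mem_toFinset] at hC ⊢
        obtain ⟨hC, u, huC, hu⟩ := hC
        rw [Set.mem_singleton_iff] at hu
        subst hu
        exact ⟨hC, u, huC, hMA hx⟩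

/-- Classification for posets in which every element other than a greatest one has a chain as
principal ideal. -/
theorem star_tree_iff [Fintype P] [Nonempty P]
    (hT : ∀ x : P, ¬ IsTop x → IsChain (· ≤ ·) (Set.Iic x)) :
    PropStar P ↔ ∀ x : P, ¬ IsTop x →
      {y : P | x ≤ y ∧ ¬ IsTop y}.ncard * (MaxChains P).ncard ≤ meetCount P {x} * Nat.card P := by
  classical
  rw [star_iff]
  constructor
  · intro h x hx
    have h1 := h {y : P | x ≤ y ∧ ¬ IsTop y}
    have h2 : meetCount P {y : P | x ≤ y ∧ ¬ IsTop y} = meetCount P {x} := by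
      unfold meetCount
      congr 1
      ext C
      constructor
      · rintro ⟨hC, y, hyC, hy⟩
        exact ⟨hC, x, mem_of_le_of_chain hC hyC (hT y hy.2) hy.1, rfl⟩
      · rintro ⟨hC, y, hyC, hy⟩
        rw [Set.mem_singleton_iff] at hy
        subst hy
        exact ⟨hC, y, hyC, le_rfl, hx⟩
    rw [h2] at h1
    exact h1
  · intro h A
    by_cases htop : ∃ t ∈ A, IsTop t
    · obtain ⟨t, htA, ht⟩ := htop
      rw [meetCount_top ht htA, mul_comm]
      refine Nat.mul_le_mul_left _ ?_
      rw [← Set.ncard_univ]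
      exact Set.ncard_le_ncard (Set.subset_univ _) (Set.toFinite _)
    · have hnt : ∀ a ∈ A, ¬ IsTop a := fun a ha ht => htop ⟨a, ha, ht⟩
      set M : Finset P := Finset.univ.filter (fun x => x ∈ A ∧ ∀ y ∈ A, y ≤ x → y = x) with hMdef
      have hMA : (↑M : Set P) ⊆ A := by
        intro x hx
        exact (Finset.mem_filter.1 (Finset.mem_coe.1 hx)).2.1
      have hM : ∀ x ∈ M, ∀ y ∈ M, x ≤ y → x = y := by
        intro x hx y hy hxy
        exact (Finset.mem_filter.1 hy).2.2 x (Finset.mem_filter.1 hx).2.1 hxy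
      have h1 := sum_le_meetCount M A hMA hM
      have h2 : A.ncard ≤ ∑ x ∈ M, {y : P | x ≤ y ∧ ¬ IsTop y}.ncard := by
        have hsub : A ⊆ ⋃ x ∈ M, {y : P | x ≤ y ∧ ¬ IsTop y} := by
          intro a ha
          obtain ⟨b, hba, hb⟩ := (Set.toFinite A).exists_le_minimal ha
          have hbM : b ∈ M := by
            rw [hMdef, Finset.mem_filter]
            refine ⟨Finset.mem_univ _, hb.1, fun y hy hyb => le_antisymm hyb (hb.2 hy hyb)⟩
          simp only [Set.mem_iUnion]
          exact ⟨b, hbM, hba, hnt a ha⟩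
        refine le_trans (Set.ncard_le_ncard hsub (Set.toFinite _)) ?_
        exact Finset.set_ncard_biUnion_le M _
      calc A.ncard * (MaxChains P).ncard
          ≤ (∑ x ∈ M, {y : P | x ≤ y ∧ ¬ IsTop y}.ncard) * (MaxChains P).ncard :=
            Nat.mul_le_mul_right _ h2
        _ = ∑ x ∈ M, {y : P | x ≤ y ∧ ¬ IsTop y}.ncard * (MaxChains P).ncard := by
            rw [Finset.sum_mul]
        _ ≤ ∑ x ∈ M, meetCount P {x} * Nat.card P :=
            Finset.sum_le_sum fun x hx => h x (hnt x (hMA hx))
        _ = (∑ x ∈ M, meetCount P {x}) * Nat.card P := by rw [Finset.sum_mul]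
        _ ≤ meetCount P A * Nat.card P := Nat.mul_le_mul_right _ h1

end Pool.Agent.Helper741.PosetChains
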