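import Mathlib
import Pool.Agent.Helper741.PosetTree

namespace Pool.Agent.Helper741.PosetChains

/-- The bent ladder with 16 elements, a sublattice of a product of two chains. -/
def bent : Sublattice (Fin 5 × Fin 5) where
  carrier := {p | p.1 ≤ 1 ∨ 3 ≤ p.2}
  supClosed' := by
    intro a ha b hb
    revert a b
    simp only [Set.mem_ofPred_eq]
    decide +kernel
  infClosed' := by
    intro a ha b hb
    revert a b
    simp only [Set.mem_ofPred_eq]
    decide +kernel

instance bentDec : DecidablePred (fun p : Fin 5 × Fin 5 => p ∈ bent) := fun p =>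
  inferInstanceAs (Decidable (p.1 ≤ 1 ∨ 3 ≤ p.2))

instance bentFintype : Fintype bent :=
  inferInstanceAs (Fintype {p : Fin 5 × Fin 5 // p ∈ bent})

instance bentDecLE : DecidableLE bent := fun a b =>
  inferInstanceAs (Decidable ((a : Fin 5 × Fin 5) ≤ b))

theorem bent_card : Fintype.card bent = 16 := by decide +kernel

theorem bent_width : ∀ x y z : bent, x ≤ y ∨ y ≤ x ∨ y ≤ z ∨ z ≤ y ∨ x ≤ z ∨ z ≤ x := by
  decide +kernel

/-- The maximal chain with column heights `a, b, c, d` and last height `4`. -/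
def bentChain (v : Fin 5 × Fin 5 × Fin 5 × Fin 5) : Finset bent :=
  Finset.univ.filter (fun p : bent =>
    (∀ i : Fin 5, i < (p : Fin 5 × Fin 5).1 → ![v.1, v.2.1, v.2.2.1, v.2.2.2, 4] i ≤ (p : Fin 5 × Fin 5).2) ∧
      (p : Fin 5 × Fin 5).2 ≤ ![v.1, v.2.1, v.2.2.1, v.2.2.2, 4] (p : Fin 5 × Fin 5).1)

/-- The height vectors. -/
def bentIdx : Finset (Fin 5 × Fin 5 × Fin 5 × Fin 5) :=
  Finset.univ.filter (fun v => v.1 ≤ v.2.1 ∧ 3 ≤ v.2.1 ∧ v.2.1 ≤ v.2.2.1 ∧ v.2.2.1 ≤ v.2.2.2)

theorem bentIdx_card : bentIdx.card = 17 := by decide +kernel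

theorem bent_ok : ∀ v ∈ bentIdx,
    (∀ x ∈ bentChain v, ∀ y ∈ bentChain v, x ≤ y ∨ y ≤ x) ∧
    (∀ x : bent, (∀ y ∈ bentChain v, x ≤ y ∨ y ≤ x) → x ∈ bentChain v) := by
  decide +kernel

theorem bent_inj : ∀ v ∈ bentIdx, ∀ w ∈ bentIdx, bentChain v = bentChain w → v = w := by
  decide +kernel

theorem bent_chains : 17 ≤ (MaxChains bent).ncard := by
  classical
  have hsub : (fun v => ((bentChain v : Finset bent) : Set bent)) '' (bentIdx : Set _)
      ⊆ MaxChains bent := by
    rintro _ ⟨v, hv, rfl⟩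
    obtain ⟨h1, h2⟩ := bent_ok v (Finset.mem_coe.1 hv)
    refine ⟨fun x hx y hy _ => h1 x (Finset.mem_coe.1 hx) y (Finset.mem_coe.1 hy),
      fun t ht hst => Set.Subset.antisymm hst fun x hx => ?_⟩
    exact Finset.mem_coe.2 (h2 x fun y hy => ht.total hx (hst (Finset.mem_coe.2 hy)))
  have h := Set.ncard_le_ncard hsub (Set.toFinite _)
  have hinj : Set.InjOn (fun v => ((bentChain v : Finset bent) : Set bent)) (bentIdx : Set _) := by
    intro v hv w hw hvw
    exact bent_inj v (Finset.mem_coe.1 hv) w (Finset.mem_coe.1 hw) (Finset.coe_injective hvw)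
  rw [hinj.ncard_image, Set.ncard_coe_finset, bentIdx_card] at h
  exact h

/-- An element all of whose comparable elements form a chain lies in exactly one maximal chain. -/
theorem meet_eq_one {P : Type*} [PartialOrder P] (x : P)
    (h : IsChain (· ≤ ·) {y : P | y ≤ x ∨ x ≤ y}) : meetCount P {x} = 1 := by
  have hx : x ∈ {y : P | y ≤ x ∨ x ≤ y} := Or.inl le_rfl
  unfold meetCount
  have : {C | C ∈ MaxChains P ∧ (C ∩ {x}).Nonempty} = {{y : P | y ≤ x ∨ x ≤ y}} := by
    ext C
    rw [Set.mem_singleton_iff]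
    constructor
    · rintro ⟨hC, u, huC, hu⟩
      rw [Set.mem_singleton_iff] at hu
      subst hu
      exact hC.2 h fun y hy => hC.1.total hy huC
    · rintro rfl
      refine ⟨⟨h, fun t ht hst => Set.Subset.antisymm hst fun y hy => ?_⟩, x, hx, rfl⟩
      exact ht.total hy (hst hx)
  rw [this, Set.ncard_singleton]

/-- The corner of the bent ladder. -/
def bentCorner : bent := ⟨(0, 4), Or.inl (by decide)⟩

theorem bent_not_star : ¬ PropStar bent := by
  have : Nonempty bent := ⟨bentCorner⟩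
  rw [star_iff]
  intro h
  have h1 := h {bentCorner}
  have hch : IsChain (· ≤ ·) {y : bent | y ≤ bentCorner ∨ bentCorner ≤ y} := by
    intro a ha b hb _
    have key : ∀ a b : bent, (a ≤ bentCorner ∨ bentCorner ≤ a) →
        (b ≤ bentCorner ∨ bentCorner ≤ b) → a ≤ b ∨ b ≤ a := by
      decide +kernel
    exact key a b ha hb
  rw [meet_eq_one bentCorner hch, Set.ncard_singleton, Nat.card_eq_fintype_card, bent_card] at h1
  have := bent_chains
  omega

end Pool.Agent.Helper741.PosetChains
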