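import Mathlib
import Pool.Agent.Helper741.PosetChains

namespace Pool.Agent.Helper741.PosetChains

variable {m n : ℕ}

/-- The staircase of a height function. -/
def stair (h : Fin (m + 1) → Fin (n + 1)) : Set (Fin (m + 1) × Fin (n + 1)) :=
  {p | (∀ a < p.1, h a ≤ p.2) ∧ p.2 ≤ h p.1}

/-- Admissible height functions. -/
def Adm (m n : ℕ) : Set (Fin (m + 1) → Fin (n + 1)) :=
  {h | Monotone h ∧ h (Fin.last m) = Fin.last n}

theorem stair_chain {h : Fin (m + 1) → Fin (n + 1)} : IsChain (· ≤ ·) (stair h) := by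
  intro p hp q hq _
  rcases lt_trichotomy p.1 q.1 with hlt | heq | hgt
  · exact Or.inl ⟨hlt.le, le_trans hp.2 (hq.1 _ hlt)⟩
  · rcases le_total p.2 q.2 with h2 | h2
    · exact Or.inl ⟨heq.le, h2⟩
    · exact Or.inr ⟨heq.ge, h2⟩
  · exact Or.inr ⟨hgt.le, le_trans hq.2 (hp.1 _ hgt)⟩

theorem mem_stair_self {h : Fin (m + 1) → Fin (n + 1)} (hm : Monotone h) (i : Fin (m + 1)) :
    (i, h i) ∈ stair h := ⟨fun _ ha => hm (le_of_lt ha), le_rfl⟩

theorem stair_max {h : Fin (m + 1) → Fin (n + 1)} (hh : h ∈ Adm m n) :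
    IsMaxChain (· ≤ ·) (stair h) := by
  refine ⟨stair_chain, fun t ht hst => Set.Subset.antisymm hst fun x hx => ?_⟩
  obtain ⟨hm, hl⟩ := hh
  have hcomp : ∀ y ∈ stair h, x ≤ y ∨ y ≤ x := fun y hy => ht.total hx (hst hy)
  refine ⟨fun a ha => ?_, ?_⟩
  · rcases hcomp _ (mem_stair_self hm a) with h1 | h1
    · exact absurd ha (not_lt.2 h1.1)
    · exact h1.2
  · by_contra hlt
    have hlt : h x.1 < x.2 := not_le.1 hlt
    have hne : x.1 ≠ Fin.last m := by
      intro he
      rw [he, hl] at hlt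
      exact absurd (Fin.le_last x.2) (not_le.2 hlt)
    have hx1 : (x.1 : ℕ) < m := by
      have h0 := x.1.is_lt
      rcases Nat.lt_or_ge (x.1 : ℕ) m with h1 | h1
      · exact h1
      · exact absurd (Fin.ext (by simp; omega)) hne
    let b : Fin (m + 1) := ⟨x.1 + 1, by omega⟩
    have hxb : x.1 < b := by
      rw [Fin.lt_def]; simp [b]
    have hy : (b, h x.1) ∈ stair h := by
      refine ⟨fun a ha => hm ?_, hm hxb.le⟩
      rw [Fin.lt_def] at ha
      rw [Fin.le_def]
      simp only [b] at ha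
      omega
    rcases hcomp _ hy with h1 | h1
    · exact absurd h1.2 (not_le.2 hlt)
    · exact absurd h1.1 (not_le.2 hxb)

open Classical in
/-- Height function of a set. -/
noncomputable def height (C : Set (Fin (m + 1) × Fin (n + 1))) (i : Fin (m + 1)) : Fin (n + 1) :=
  (Finset.univ.filter (fun j => ∃ a ≤ i, (a, j) ∈ C)).sup id

theorem le_height {C : Set (Fin (m + 1) × Fin (n + 1))} {a i : Fin (m + 1)} {j : Fin (n + 1)}
    (hC : (a, j) ∈ C) (ha : a ≤ i) : j ≤ height C i := by
  classical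
  unfold height
  exact Finset.le_sup (f := id) (Finset.mem_filter.2 ⟨Finset.mem_univ _, a, ha, hC⟩)

theorem height_le {C : Set (Fin (m + 1) × Fin (n + 1))} {i : Fin (m + 1)} {b : Fin (n + 1)}
    (h : ∀ a j, a ≤ i → (a, j) ∈ C → j ≤ b) : height C i ≤ b := by
  classical
  unfold height
  refine Finset.sup_le fun j hj => ?_
  obtain ⟨_, a, ha, hC⟩ := Finset.mem_filter.1 hj
  exact h a j ha hC

theorem max_eq_stair {C : Set (Fin (m + 1) × Fin (n + 1))} (hC : IsMaxChain (· ≤ ·) C) :
    height C ∈ Adm m n ∧ stair (height C) = C := by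
  have hfwd : ∀ p ∈ C, (∀ a < p.1, height C a ≤ p.2) ∧ p.2 ≤ height C p.1 := by
    intro p hp
    refine ⟨fun a ha => height_le fun a' j ha' hj => ?_, le_height (a := p.1) hp le_rfl⟩
    rcases hC.1.total hj hp with h1 | h1
    · exact h1.2
    · exact absurd (lt_of_le_of_lt ha' ha) (not_lt.2 h1.1)
  have hbwd : stair (height C) ⊆ C := by
    intro p hp
    have hch : IsChain (· ≤ ·) (insert p C) := by
      refine hC.1.insert fun q hq _ => ?_
      rcases lt_trichotomy q.1 p.1 with hlt | heq | hgt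
      · exact Or.inr ⟨hlt.le, le_trans (le_height (a := q.1) hq le_rfl) (hp.1 _ hlt)⟩
      · rcases le_total p.2 q.2 with h2 | h2
        · exact Or.inl ⟨heq.ge, h2⟩
        · exact Or.inr ⟨heq.le, h2⟩
      · exact Or.inl ⟨hgt.le, le_trans hp.2 ((hfwd q hq).1 _ hgt)⟩
    have := hC.2 hch (Set.subset_insert _ _)
    rw [this]
    exact Set.mem_insert _ _
  have htop : ((Fin.last m, Fin.last n) : Fin (m + 1) × Fin (n + 1)) ∈ C := hC.top_mem
  refine ⟨⟨?_, ?_⟩, Set.Subset.antisymm hbwd fun p hp => hfwd p hp⟩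
  · intro i i' hii
    exact height_le fun a j ha hj => le_height hj (le_trans ha hii)
  · exact le_antisymm (Fin.le_last _) (le_height htop le_rfl)

theorem stair_injOn : Set.InjOn (stair (m := m) (n := n)) (Adm m n) := by
  intro h hh h' hh' heq
  funext i
  apply le_antisymm
  · have := mem_stair_self hh.1 i
    rw [heq] at this
    exact this.2
  · have := mem_stair_self hh'.1 i
    rw [← heq] at this
    exact this.2

theorem maxChains_grid : stair '' (Adm m n) = MaxChains (Fin (m + 1) × Fin (n + 1)) := by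
  ext C
  constructor
  · rintro ⟨h, hh, rfl⟩
    exact stair_max hh
  · intro hC
    exact ⟨height C, (max_eq_stair hC).1, (max_eq_stair hC).2⟩

theorem ncard_maxChains_grid :
    (MaxChains (Fin (m + 1) × Fin (n + 1))).ncard = (Adm m n).ncard := by
  rw [← maxChains_grid, stair_injOn.ncard_image]

theorem meet_corner :
    meetCount (Fin (m + 1) × Fin (n + 1)) {((0 : Fin (m + 1)), Fin.last n)} = 1 := by
  unfold meetCount
  have : {C | C ∈ MaxChains (Fin (m + 1) × Fin (n + 1)) ∧
      (C ∩ {((0 : Fin (m + 1)), Fin.last n)}).Nonempty}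
      = {stair (fun _ : Fin (m + 1) => Fin.last n)} := by
    ext C
    rw [Set.mem_singleton_iff]
    constructor
    · rintro ⟨hC, x, hxC, hx⟩
      rw [Set.mem_singleton_iff] at hx
      subst hx
      obtain ⟨hA, hE⟩ := max_eq_stair hC
      rw [← hE]
      congr 1
      funext i
      have h0 : Fin.last n ≤ height C 0 := le_height hxC le_rfl
      exact le_antisymm (Fin.le_last _) (le_trans h0 (hA.1 (Fin.zero_le i)))
    · rintro rfl
      refine ⟨stair_max ⟨fun _ _ _ => le_rfl, rfl⟩, (0, Fin.last n), ⟨?_, le_rfl⟩, rfl⟩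
      intro a ha
      exact absurd ha (not_lt.2 (Fin.zero_le a))
  rw [this, Set.ncard_singleton]

/-- Necessary condition from the corner. -/
theorem le_of_star (h : PropStar (Fin (m + 1) × Fin (n + 1))) :
    (Adm m n).ncard ≤ (m + 1) * (n + 1) := by
  rw [star_iff] at h
  have := h {((0 : Fin (m + 1)), Fin.last n)}
  rw [meet_corner, ncard_maxChains_grid, Set.ncard_singleton] at this
  simpa [Nat.card_eq_fintype_card] using this

end Pool.Agent.Helper741.PosetChains
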