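import Mathlib
import Pool.Agent.Helper741.PosetTree

namespace Pool.Agent.Helper741.PosetChains

open Sum.Lex

variable {P Q : Type*} [PartialOrder P] [PartialOrder Q]

/-- The chain of the ordinal sum glued from two chains. -/
def glue (C : Set P) (D : Set Q) : Set (P ⊕ₗ Q) :=
  {x | (∃ a ∈ C, x = toLex (Sum.inl a)) ∨ (∃ b ∈ D, x = toLex (Sum.inr b))}

theorem inl_mem_glue {C : Set P} {D : Set Q} {a : P} :
    toLex (Sum.inl a) ∈ glue C D ↔ a ∈ C := by
  constructor
  · rintro (⟨b, hb, h⟩ | ⟨b, hb, h⟩)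
    · have : a = b := Sum.inl_injective (toLex.injective h)
      rw [this]; exact hb
    · exact absurd (toLex.injective h) Sum.inl_ne_inr
  · exact fun h => Or.inl ⟨a, h, rfl⟩

theorem inr_mem_glue {C : Set P} {D : Set Q} {b : Q} :
    toLex (Sum.inr b) ∈ glue C D ↔ b ∈ D := by
  constructor
  · rintro (⟨a, ha, h⟩ | ⟨c, hc, h⟩)
    · exact absurd (toLex.injective h) Sum.inr_ne_inl
    · have : b = c := Sum.inr_injective (toLex.injective h)
      rw [this]; exact hc
  · exact fun h => Or.inr ⟨b, h, rfl⟩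

theorem lex_cases (x : P ⊕ₗ Q) :
    (∃ a : P, x = toLex (Sum.inl a)) ∨ (∃ b : Q, x = toLex (Sum.inr b)) := by
  rcases h : ofLex x with a | b
  · exact Or.inl ⟨a, by rw [← h]; rfl⟩
  · exact Or.inr ⟨b, by rw [← h]; rfl⟩

theorem glue_chain {C : Set P} {D : Set Q} (hC : IsChain (· ≤ ·) C) (hD : IsChain (· ≤ ·) D) :
    IsChain (· ≤ ·) (glue C D) := by
  rintro x (⟨a, ha, rfl⟩ | ⟨a, ha, rfl⟩) y (⟨b, hb, rfl⟩ | ⟨b, hb, rfl⟩) _
  · rcases hC.total ha hb with h | h
    · exact Or.inl (inl_le_inl_iff.2 h)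
    · exact Or.inr (inl_le_inl_iff.2 h)
  · exact Or.inl (inl_le_inr a b)
  · exact Or.inr (inl_le_inr b a)
  · rcases hD.total ha hb with h | h
    · exact Or.inl (inr_le_inr_iff.2 h)
    · exact Or.inr (inr_le_inr_iff.2 h)

theorem glue_max {C : Set P} {D : Set Q} (hC : IsMaxChain (· ≤ ·) C)
    (hD : IsMaxChain (· ≤ ·) D) : IsMaxChain (· ≤ ·) (glue C D) := by
  refine ⟨glue_chain hC.1 hD.1, fun t ht hst => Set.Subset.antisymm hst fun x hx => ?_⟩
  rcases lex_cases x with ⟨a, rfl⟩ | ⟨b, rfl⟩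
  · rw [inl_mem_glue]
    have hch : IsChain (· ≤ ·) (insert a C) := by
      refine hC.1.insert fun z hz _ => ?_
      rcases ht.total hx (hst (inl_mem_glue.2 hz)) with h | h
      · exact Or.inl (inl_le_inl_iff.1 h)
      · exact Or.inr (inl_le_inl_iff.1 h)
    rw [hC.2 hch (Set.subset_insert _ _)]
    exact Set.mem_insert _ _
  · rw [inr_mem_glue]
    have hch : IsChain (· ≤ ·) (insert b D) := by
      refine hD.1.insert fun z hz _ => ?_
      rcases ht.total hx (hst (inr_mem_glue.2 hz)) with h | h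
      · exact Or.inl (inr_le_inr_iff.1 h)
      · exact Or.inr (inr_le_inr_iff.1 h)
    rw [hD.2 hch (Set.subset_insert _ _)]
    exact Set.mem_insert _ _

theorem glue_injective :
    Function.Injective (fun p : Set P × Set Q => glue p.1 p.2) := by
  rintro ⟨C, D⟩ ⟨C', D'⟩ h
  simp only at h
  have h1 : C = C' := by
    ext a
    rw [← inl_mem_glue (D := D), h, inl_mem_glue]
  have h2 : D = D' := by
    ext b
    rw [← inr_mem_glue (C := C), h, inr_mem_glue]
  rw [h1, h2]

theorem eq_glue {E : Set (P ⊕ₗ Q)} (hE : IsMaxChain (· ≤ ·) E) :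
    ∃ C D, IsMaxChain (· ≤ ·) C ∧ IsMaxChain (· ≤ ·) D ∧ E = glue C D := by
  set C : Set P := {a | toLex (Sum.inl a) ∈ E} with hCdef
  set D : Set Q := {b | toLex (Sum.inr b) ∈ E} with hDdef
  have hCc : IsChain (· ≤ ·) C := by
    intro a ha b hb _
    rcases hE.1.total (show toLex (Sum.inl a) ∈ E from ha) (show toLex (Sum.inl b) ∈ E from hb)
      with h | h
    · exact Or.inl (inl_le_inl_iff.1 h)
    · exact Or.inr (inl_le_inl_iff.1 h)
  have hDc : IsChain (· ≤ ·) D := by
    intro a ha b hb _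
    rcases hE.1.total (show toLex (Sum.inr a) ∈ E from ha) (show toLex (Sum.inr b) ∈ E from hb)
      with h | h
    · exact Or.inl (inr_le_inr_iff.1 h)
    · exact Or.inr (inr_le_inr_iff.1 h)
  have hsub : ∀ (C' : Set P) (D' : Set Q), C ⊆ C' → D ⊆ D' → E ⊆ glue C' D' := by
    intro C' D' h1 h2 x hx
    rcases lex_cases x with ⟨a, rfl⟩ | ⟨b, rfl⟩
    · exact inl_mem_glue.2 (h1 hx)
    · exact inr_mem_glue.2 (h2 hx)
  refine ⟨C, D, ⟨hCc, fun t ht hst => ?_⟩, ⟨hDc, fun t ht hst => ?_⟩, ?_⟩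
  · have h1 := hE.2 (glue_chain ht hDc) (hsub t D hst subset_rfl)
    refine Set.Subset.antisymm hst fun a ha => ?_
    show toLex (Sum.inl a) ∈ E
    rw [h1, inl_mem_glue]
    exact ha
  · have h1 := hE.2 (glue_chain hCc ht) (hsub C t subset_rfl hst)
    refine Set.Subset.antisymm hst fun a ha => ?_
    show toLex (Sum.inr a) ∈ E
    rw [h1, inr_mem_glue]
    exact ha
  · exact hE.2 (glue_chain hCc hDc) (hsub C D subset_rfl subset_rfl)

theorem lex_ncard [Finite P] [Finite Q] :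
    (MaxChains (P ⊕ₗ Q)).ncard = (MaxChains P).ncard * (MaxChains Q).ncard := by
  have h : MaxChains (P ⊕ₗ Q)
      = (fun p : Set P × Set Q => glue p.1 p.2) '' (MaxChains P ×ˢ MaxChains Q) := by
    ext E
    constructor
    · intro hE
      obtain ⟨C, D, hC, hD, rfl⟩ := eq_glue hE
      exact ⟨(C, D), ⟨hC, hD⟩, rfl⟩
    · rintro ⟨⟨C, D⟩, ⟨hC, hD⟩, rfl⟩
      exact glue_max hC hD
  rw [h, Set.ncard_image_of_injective _ glue_injective, Set.ncard_prod]

instance lexFinite [Finite P] [Finite Q] : Finite (P ⊕ₗ Q) :=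
  Finite.of_equiv (P ⊕ Q) toLex

theorem lex_meet_left [Finite P] [Finite Q] (A : Set (P ⊕ₗ Q)) :
    meetCount P {a | toLex (Sum.inl a) ∈ A} * (MaxChains Q).ncard ≤ meetCount (P ⊕ₗ Q) A := by
  have h : (fun p : Set P × Set Q => glue p.1 p.2) ''
      ({C | C ∈ MaxChains P ∧ (C ∩ {a | toLex (Sum.inl a) ∈ A}).Nonempty} ×ˢ MaxChains Q)
      ⊆ {C | C ∈ MaxChains (P ⊕ₗ Q) ∧ (C ∩ A).Nonempty} := by
    rintro _ ⟨⟨C, D⟩, ⟨⟨hC, a, haC, haA⟩, hD⟩, rfl⟩
    exact ⟨glue_max hC hD, toLex (Sum.inl a), inl_mem_glue.2 haC, haA⟩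
  have h2 := Set.ncard_le_ncard h (Set.toFinite _)
  rw [Set.ncard_image_of_injective _ glue_injective, Set.ncard_prod] at h2
  exact h2

theorem lex_meet_right [Finite P] [Finite Q] (A : Set (P ⊕ₗ Q)) :
    (MaxChains P).ncard * meetCount Q {b | toLex (Sum.inr b) ∈ A} ≤ meetCount (P ⊕ₗ Q) A := by
  have h : (fun p : Set P × Set Q => glue p.1 p.2) ''
      (MaxChains P ×ˢ {C | C ∈ MaxChains Q ∧ (C ∩ {a | toLex (Sum.inr a) ∈ A}).Nonempty})
      ⊆ {C | C ∈ MaxChains (P ⊕ₗ Q) ∧ (C ∩ A).Nonempty} := by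
    rintro _ ⟨⟨C, D⟩, ⟨hC, hD, b, hbD, hbA⟩, rfl⟩
    exact ⟨glue_max hC hD, toLex (Sum.inr b), inr_mem_glue.2 hbD, hbA⟩
  have h2 := Set.ncard_le_ncard h (Set.toFinite _)
  rw [Set.ncard_image_of_injective _ glue_injective, Set.ncard_prod] at h2
  exact h2

theorem lex_set_ncard [Finite P] [Finite Q] (A : Set (P ⊕ₗ Q)) :
    A.ncard = {a : P | toLex (Sum.inl a) ∈ A}.ncard + {b : Q | toLex (Sum.inr b) ∈ A}.ncard := by
  have hsplit : A = ((fun a : P => (toLex (Sum.inl a) : P ⊕ₗ Q)) '' {a | toLex (Sum.inl a) ∈ A})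
      ∪ ((fun b : Q => (toLex (Sum.inr b) : P ⊕ₗ Q)) '' {b | toLex (Sum.inr b) ∈ A}) := by
    ext x
    constructor
    · intro hx
      rcases lex_cases x with ⟨a, rfl⟩ | ⟨b, rfl⟩
      · exact Or.inl ⟨a, hx, rfl⟩
      · exact Or.inr ⟨b, hx, rfl⟩
    · rintro (⟨a, ha, rfl⟩ | ⟨b, hb, rfl⟩)
      · exact ha
      · exact hb
  conv_lhs => rw [hsplit]
  rw [Set.ncard_union_eq _ (Set.toFinite _) (Set.toFinite _),
    Set.ncard_image_of_injective _
      (show Function.Injective (fun a : P => (toLex (Sum.inl a) : P ⊕ₗ Q)) from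
        fun a b h => Sum.inl_injective (toLex.injective h)),
    Set.ncard_image_of_injective _
      (show Function.Injective (fun b : Q => (toLex (Sum.inr b) : P ⊕ₗ Q)) from
        fun a b h => Sum.inr_injective (toLex.injective h))]
  rw [Set.disjoint_left]
  rintro _ ⟨a, _, rfl⟩ ⟨b, _, h⟩
  exact Sum.inr_ne_inl (toLex.injective h)

theorem lex_card [Finite P] [Finite Q] : Nat.card (P ⊕ₗ Q) = Nat.card P + Nat.card Q := by
  rw [← Nat.card_sum]
  exact (Nat.card_congr toLex).symm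

/-- Ordinal sums preserve the property. -/
theorem star_lex [Finite P] [Finite Q] [Nonempty P] [Nonempty Q] (hP : PropStar P) (hQ : PropStar Q) :
    PropStar (P ⊕ₗ Q) := by
  have : Nonempty (P ⊕ₗ Q) := ⟨toLex (Sum.inl (Classical.arbitrary P))⟩
  rw [star_iff] at hP hQ ⊢
  intro A
  rw [lex_ncard, lex_card, lex_set_ncard]
  have a1 := hP {a : P | toLex (Sum.inl a) ∈ A}
  have a2 := hQ {b : Q | toLex (Sum.inr b) ∈ A}
  have b1 := lex_meet_left A
  have b2 := lex_meet_right A
  generalize {a : P | toLex (Sum.inl a) ∈ A}.ncard = x at *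
  generalize {b : Q | toLex (Sum.inr b) ∈ A}.ncard = y at *
  generalize meetCount P {a : P | toLex (Sum.inl a) ∈ A} = u at *
  generalize meetCount Q {b : Q | toLex (Sum.inr b) ∈ A} = v at *
  generalize meetCount (P ⊕ₗ Q) A = w at *
  generalize Nat.card P = p at *
  generalize Nat.card Q = q at *
  generalize (MaxChains P).ncard = c at *
  generalize (MaxChains Q).ncard = d at *
  calc (x + y) * (c * d) = (x * c) * d + (y * d) * c := by ring
    _ ≤ (u * p) * d + (v * q) * c :=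
        Nat.add_le_add (Nat.mul_le_mul_right _ a1) (Nat.mul_le_mul_right _ a2)
    _ = (u * d) * p + (c * v) * q := by ring
    _ ≤ w * p + w * q := Nat.add_le_add (Nat.mul_le_mul_right _ b1) (Nat.mul_le_mul_right _ b2)
    _ = w * (p + q) := by ring

theorem meetCount_pos [Finite P] {A : Set P} (hA : A.Nonempty) : 0 < meetCount P A := by
  obtain ⟨a, ha⟩ := hA
  unfold meetCount
  rw [Set.ncard_pos (Set.toFinite _)]
  obtain ⟨C, hC, hsub⟩ := (Set.subsingleton_singleton (a := a)).isChain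
    (r := fun x y : P => x ≤ y) |>.exists_maxChain
  exact ⟨C, hC, a, hsub rfl, ha⟩

/-- Adding a long chain on top of any finite poset produces the property. -/
theorem star_add_chain [Finite P] [Nonempty P] {k : ℕ}
    (hk : Nat.card P * (MaxChains P).ncard ≤ k) : PropStar (P ⊕ₗ Fin k) := by
  have hp : 0 < Nat.card P := Nat.card_pos
  have hc := maxChains_pos P
  have hk0 : 0 < k := lt_of_lt_of_le (Nat.mul_pos hp hc) hk
  have : Nonempty (Fin k) := ⟨⟨0, hk0⟩⟩
  have : Nonempty (P ⊕ₗ Fin k) := ⟨toLex (Sum.inl (Classical.arbitrary P))⟩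
  have hd : (MaxChains (Fin k)).ncard = 1 := by
    have hun : MaxChains (Fin k) = {Set.univ} := by
      ext C
      rw [Set.mem_singleton_iff]
      constructor
      · intro hC
        exact hC.2 (fun x _ y _ _ => le_total x y) (Set.subset_univ _)
      · rintro rfl
        exact ⟨fun x _ y _ _ => le_total x y, fun t _ ht => (Set.univ_subset_iff.1 ht).symm⟩
    rw [hun, Set.ncard_singleton]
  rw [star_iff]
  intro A
  have b1 := lex_meet_left A
  have b2 := lex_meet_right A
  have hn := lex_set_ncard A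
  rw [lex_ncard, lex_card, Nat.card_fin, hd, mul_one]
  rw [hd, mul_one] at b1
  rcases Set.eq_empty_or_nonempty {b : Fin k | toLex (Sum.inr b) ∈ A} with he | hne
  · rcases Set.eq_empty_or_nonempty {a : P | toLex (Sum.inl a) ∈ A} with he' | hne'
    · rw [he, he'] at hn
      simp only [Set.ncard_empty, add_zero] at hn
      rw [hn]
      simp
    · have h1 := meetCount_pos hne'
      rw [he, Set.ncard_empty, add_zero] at hn
      have h2 : {a : P | toLex (Sum.inl a) ∈ A}.ncard ≤ Nat.card P := by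
        rw [← Set.ncard_univ]
        exact Set.ncard_le_ncard (Set.subset_univ _) (Set.toFinite _)
      calc A.ncard * (MaxChains P).ncard ≤ Nat.card P * (MaxChains P).ncard := by
            rw [hn]; exact Nat.mul_le_mul_right _ h2
        _ ≤ k := hk
        _ ≤ 1 * (Nat.card P + k) := by omega
        _ ≤ meetCount (P ⊕ₗ Fin k) A * (Nat.card P + k) :=
            Nat.mul_le_mul_right _ (by omega)
  · have h1 := meetCount_pos hne
    have h2 : (MaxChains P).ncard ≤ meetCount (P ⊕ₗ Fin k) A :=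
      le_trans (Nat.le_mul_of_pos_right _ h1) b2
    have h3 : A.ncard ≤ Nat.card P + k := by
      have : Nat.card (P ⊕ₗ Fin k) = Nat.card P + k := by rw [lex_card, Nat.card_fin]
      rw [← this, ← Set.ncard_univ]
      exact Set.ncard_le_ncard (Set.subset_univ _) (Set.toFinite _)
    calc A.ncard * (MaxChains P).ncard ≤ (Nat.card P + k) * meetCount (P ⊕ₗ Fin k) A :=
          Nat.mul_le_mul h3 h2
      _ = meetCount (P ⊕ₗ Fin k) A * (Nat.card P + k) := by ring

end Pool.Agent.Helper741.PosetChains
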