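import Mathlib
import Pool.Agent.Helper741.PosetTree

namespace Pool.Agent.Helper741.PosetChains

variable {P Q : Type*} [PartialOrder P] [PartialOrder Q]

/-! ### Disjoint sums -/

theorem maxChain_nonempty [Nonempty P] {C : Set P} (hC : IsMaxChain (· ≤ ·) C) : C.Nonempty := by
  rw [← hC.nonempty_iff]
  infer_instance

theorem inl_maxChain [Nonempty P] {C : Set P} (hC : IsMaxChain (· ≤ ·) C) :
    IsMaxChain (· ≤ ·) ((Sum.inl : P → P ⊕ Q) '' C) := by
  refine ⟨?_, fun t ht hst => Set.Subset.antisymm hst fun x hx => ?_⟩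
  · rintro _ ⟨a, ha, rfl⟩ _ ⟨b, hb, rfl⟩ _
    rcases hC.1.total ha hb with h | h
    · exact Or.inl (Sum.inl_le_inl_iff.2 h)
    · exact Or.inr (Sum.inl_le_inl_iff.2 h)
  · obtain ⟨c, hc⟩ := maxChain_nonempty hC
    have hct : Sum.inl c ∈ t := hst ⟨c, hc, rfl⟩
    cases x with
    | inr b =>
      exfalso
      rcases ht.total hct hx with h | h
      · exact Sum.not_inl_le_inr h
      · exact Sum.not_inr_le_inl h
    | inl a =>
      refine ⟨a, ?_, rfl⟩
      have hch : IsChain (· ≤ ·) (insert a C) := by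
        refine hC.1.insert fun z hz _ => ?_
        rcases ht.total hx (hst ⟨z, hz, rfl⟩) with h | h
        · exact Or.inl (Sum.inl_le_inl_iff.1 h)
        · exact Or.inr (Sum.inl_le_inl_iff.1 h)
      rw [hC.2 hch (Set.subset_insert _ _)]
      exact Set.mem_insert _ _

theorem swap_le_swap_iff' {x y : P ⊕ Q} : x.swap ≤ y.swap ↔ x ≤ y := by
  cases x <;> cases y <;> simp

/-- The swap isomorphism. -/
def swapIso (P Q : Type*) [PartialOrder P] [PartialOrder Q] : P ⊕ Q ≃o Q ⊕ P :=
  ⟨Equiv.sumComm P Q, swap_le_swap_iff'⟩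

theorem inr_maxChain [Nonempty Q] {C : Set Q} (hC : IsMaxChain (· ≤ ·) C) :
    IsMaxChain (· ≤ ·) ((Sum.inr : Q → P ⊕ Q) '' C) := by
  have h := IsMaxChain.image (swapIso Q P) (inl_maxChain (Q := P) hC)
  have e : (swapIso Q P) '' ((Sum.inl : Q → Q ⊕ P) '' C) = (Sum.inr : Q → P ⊕ Q) '' C := by
    rw [Set.image_image]
    rfl
  rw [← e]
  exact h

theorem sum_maxChain_cases {D : Set (P ⊕ Q)} (hD : IsMaxChain (· ≤ ·) D) {c : P}
    (hc : Sum.inl c ∈ D) : ∃ C, IsMaxChain (· ≤ ·) C ∧ D = Sum.inl '' C := by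
  have hall : ∀ x ∈ D, ∃ a, x = Sum.inl a := by
    intro x hx
    cases x with
    | inl a => exact ⟨a, rfl⟩
    | inr b =>
      exfalso
      rcases hD.1.total hc hx with h | h
      · exact Sum.not_inl_le_inr h
      · exact Sum.not_inr_le_inl h
  have hDeq : D = Sum.inl '' (Sum.inl ⁻¹' D : Set P) := by
    ext x
    constructor
    · intro hx
      obtain ⟨a, rfl⟩ := hall x hx
      exact ⟨a, hx, rfl⟩
    · rintro ⟨a, ha, rfl⟩
      exact ha
  refine ⟨Sum.inl ⁻¹' D, ⟨?_, ?_⟩, hDeq⟩
  · intro a ha b hb _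
    rcases hD.1.total ha hb with h | h
    · exact Or.inl (Sum.inl_le_inl_iff.1 h)
    · exact Or.inr (Sum.inl_le_inl_iff.1 h)
  · intro t ht hst
    have hch : IsChain (· ≤ ·) (Sum.inl '' t : Set (P ⊕ Q)) := by
      rintro _ ⟨a, ha, rfl⟩ _ ⟨b, hb, rfl⟩ _
      rcases ht.total ha hb with h | h
      · exact Or.inl (Sum.inl_le_inl_iff.2 h)
      · exact Or.inr (Sum.inl_le_inl_iff.2 h)
    have hsub : D ⊆ Sum.inl '' t := by
      intro x hx
      obtain ⟨a, rfl⟩ := hall x hx
      exact ⟨a, hst hx, rfl⟩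
    have := hD.2 hch hsub
    rw [this, Set.preimage_image_eq _ Sum.inl_injective]

theorem sum_count [Finite P] [Finite Q] [Nonempty P] [Nonempty Q] (R : Set (P ⊕ Q) → Prop) :
    {D | D ∈ MaxChains (P ⊕ Q) ∧ R D}.ncard
      = {C | C ∈ MaxChains P ∧ R (Sum.inl '' C)}.ncard
        + {C | C ∈ MaxChains Q ∧ R (Sum.inr '' C)}.ncard := by
  have hsplit : {D | D ∈ MaxChains (P ⊕ Q) ∧ R D}
      = ((fun C : Set P => (Sum.inl '' C : Set (P ⊕ Q))) ''
          {C | C ∈ MaxChains P ∧ R (Sum.inl '' C)})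
        ∪ ((fun C : Set Q => (Sum.inr '' C : Set (P ⊕ Q))) ''
          {C | C ∈ MaxChains Q ∧ R (Sum.inr '' C)}) := by
    ext D
    constructor
    · rintro ⟨hD, hR⟩
      obtain ⟨x, hx⟩ := maxChain_nonempty hD
      cases x with
      | inl a =>
        obtain ⟨C, hC, rfl⟩ := sum_maxChain_cases hD hx
        exact Or.inl ⟨C, ⟨hC, hR⟩, rfl⟩
      | inr b =>
        have h1 : IsMaxChain (· ≤ ·) ((swapIso P Q) '' D) := IsMaxChain.image (swapIso P Q) hD
        have h2 : (Sum.inl b : Q ⊕ P) ∈ (swapIso P Q) '' D := ⟨Sum.inr b, hx, rfl⟩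
        obtain ⟨C, hC, hCe⟩ := sum_maxChain_cases h1 h2
        have h3 : D = Sum.inr '' C := by
          have : (swapIso Q P) '' ((swapIso P Q) '' D) = (swapIso Q P) '' (Sum.inl '' C) := by
            rw [hCe]
          rw [Set.image_image, Set.image_image] at this
          have h4 : (fun x => (swapIso Q P) ((swapIso P Q) x)) '' D = D := by
            have : (fun x : P ⊕ Q => (swapIso Q P) ((swapIso P Q) x)) = id := by
              funext x
              cases x <;> rfl
            rw [this, Set.image_id]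
          rw [h4] at this
          exact this
        subst h3
        exact Or.inr ⟨C, ⟨hC, hR⟩, rfl⟩
    · rintro (⟨C, ⟨hC, hR⟩, rfl⟩ | ⟨C, ⟨hC, hR⟩, rfl⟩)
      · exact ⟨inl_maxChain hC, hR⟩
      · exact ⟨inr_maxChain hC, hR⟩
  rw [hsplit, Set.ncard_union_eq _ (Set.toFinite _) (Set.toFinite _),
    Set.ncard_image_of_injective _ (Set.image_injective.2 Sum.inl_injective),
    Set.ncard_image_of_injective _ (Set.image_injective.2 Sum.inr_injective)]
  rw [Set.disjoint_left]
  rintro _ ⟨C, ⟨hC, _⟩, rfl⟩ ⟨C', ⟨hC', _⟩, h⟩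
  obtain ⟨c, hc⟩ := maxChain_nonempty hC
  have : (Sum.inl c : P ⊕ Q) ∈ (Sum.inl '' C : Set (P ⊕ Q)) := ⟨c, hc, rfl⟩
  simp only at h
  rw [← h] at this
  obtain ⟨b, _, hb⟩ := this
  exact Sum.inr_ne_inl hb

theorem sum_ncard [Finite P] [Finite Q] [Nonempty P] [Nonempty Q] :
    (MaxChains (P ⊕ Q)).ncard = (MaxChains P).ncard + (MaxChains Q).ncard := by
  have := sum_count (P := P) (Q := Q) (fun _ => True)
  simpa using this

theorem sum_meet [Finite P] [Finite Q] [Nonempty P] [Nonempty Q] (A : Set (P ⊕ Q)) :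
    meetCount (P ⊕ Q) A = meetCount P (Sum.inl ⁻¹' A) + meetCount Q (Sum.inr ⁻¹' A) := by
  unfold meetCount
  rw [sum_count (fun D => (D ∩ A).Nonempty)]
  congr 2
  · ext C
    simp only [Set.mem_ofPred_eq, Set.image_inter_nonempty_iff]
  · ext C
    simp only [Set.mem_ofPred_eq, Set.image_inter_nonempty_iff]

theorem sum_set_ncard [Finite P] [Finite Q] (A : Set (P ⊕ Q)) :
    A.ncard = (Sum.inl ⁻¹' A : Set P).ncard + (Sum.inr ⁻¹' A : Set Q).ncard := by
  have hsplit : A = (Sum.inl '' (Sum.inl ⁻¹' A : Set P)) ∪ (Sum.inr '' (Sum.inr ⁻¹' A : Set Q)) := by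
    ext x
    cases x <;> simp
  conv_lhs => rw [hsplit]
  rw [Set.ncard_union_eq _ (Set.toFinite _) (Set.toFinite _),
    Set.ncard_image_of_injective _ Sum.inl_injective,
    Set.ncard_image_of_injective _ Sum.inr_injective]
  rw [Set.disjoint_left]
  rintro _ ⟨a, _, rfl⟩ ⟨b, _, h⟩
  exact Sum.inr_ne_inl h

theorem star_sum_iff [Finite P] [Finite Q] [Nonempty P] [Nonempty Q] :
    PropStar (P ⊕ Q) ↔ PropStar P ∧ PropStar Q ∧
      Nat.card P * (MaxChains Q).ncard = Nat.card Q * (MaxChains P).ncard := by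
  have hp : 0 < Nat.card P := Nat.card_pos
  have hq : 0 < Nat.card Q := Nat.card_pos
  have hc := maxChains_pos P
  have hd := maxChains_pos Q
  have hcardS : Nat.card (P ⊕ Q) = Nat.card P + Nat.card Q := Nat.card_sum
  rw [star_iff, star_iff, star_iff]
  constructor
  · intro h
    have hL : ∀ A : Set P, A.ncard * ((MaxChains P).ncard + (MaxChains Q).ncard)
        ≤ meetCount P A * (Nat.card P + Nat.card Q) := by
      intro A
      have h1 := h (Sum.inl '' A)
      rw [sum_ncard, sum_meet, sum_set_ncard, hcardS,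
        Set.preimage_image_eq _ Sum.inl_injective] at h1
      have e : (Sum.inr ⁻¹' (Sum.inl '' A : Set (P ⊕ Q)) : Set Q) = ∅ := by
        ext x; simp
      have e0 : meetCount Q ∅ = 0 := by
        unfold meetCount; simp
      rw [e, e0, Set.ncard_empty, add_zero, add_zero] at h1
      exact h1
    have hR : ∀ A : Set Q, A.ncard * ((MaxChains P).ncard + (MaxChains Q).ncard)
        ≤ meetCount Q A * (Nat.card P + Nat.card Q) := by
      intro A
      have h1 := h (Sum.inr '' A)
      rw [sum_ncard, sum_meet, sum_set_ncard, hcardS,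
        Set.preimage_image_eq _ Sum.inr_injective] at h1
      have e : (Sum.inl ⁻¹' (Sum.inr '' A : Set (P ⊕ Q)) : Set P) = ∅ := by
        ext x; simp
      have e0 : meetCount P ∅ = 0 := by
        unfold meetCount; simp
      rw [e, e0, Set.ncard_empty, zero_add, zero_add] at h1
      exact h1
    have h1 : Nat.card P * ((MaxChains P).ncard + (MaxChains Q).ncard)
        ≤ (MaxChains P).ncard * (Nat.card P + Nat.card Q) := by
      have := hL Set.univ
      rw [Set.ncard_univ] at this
      exact le_trans this (Nat.mul_le_mul_right _ (meetCount_le _))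
    have h2 : Nat.card Q * ((MaxChains P).ncard + (MaxChains Q).ncard)
        ≤ (MaxChains Q).ncard * (Nat.card P + Nat.card Q) := by
      have := hR Set.univ
      rw [Set.ncard_univ] at this
      exact le_trans this (Nat.mul_le_mul_right _ (meetCount_le _))
    have heq : Nat.card P * (MaxChains Q).ncard = Nat.card Q * (MaxChains P).ncard := by
      nlinarith
    refine ⟨fun A => ?_, fun A => ?_, heq⟩
    · refine Nat.le_of_mul_le_mul_left ?_ (show 0 < Nat.card P + Nat.card Q by omega)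
      have h3 := Nat.mul_le_mul_right (Nat.card P) (hL A)
      nlinarith
    · refine Nat.le_of_mul_le_mul_left ?_ (show 0 < Nat.card P + Nat.card Q by omega)
      have h3 := Nat.mul_le_mul_right (Nat.card Q) (hR A)
      nlinarith
  · rintro ⟨h1, h2, heq⟩ A
    rw [sum_ncard, sum_meet, sum_set_ncard, hcardS]
    have a1 := h1 (Sum.inl ⁻¹' A)
    have a2 := h2 (Sum.inr ⁻¹' A)
    generalize (Sum.inl ⁻¹' A : Set P).ncard = x at *
    generalize (Sum.inr ⁻¹' A : Set Q).ncard = y at *
    generalize meetCount P (Sum.inl ⁻¹' A) = u at *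
    generalize meetCount Q (Sum.inr ⁻¹' A) = v at *
    generalize Nat.card P = p at *
    generalize Nat.card Q = q at *
    generalize (MaxChains P).ncard = c at *
    generalize (MaxChains Q).ncard = d at *
    have b1 : x * (c + d) ≤ u * (p + q) := by
      refine Nat.le_of_mul_le_mul_left ?_ hc
      calc c * (x * (c + d)) = (x * c) * (c + d) := by ring
        _ ≤ (u * p) * (c + d) := Nat.mul_le_mul_right _ a1
        _ = u * (p * c + p * d) := by ring
        _ = u * (p * c + q * c) := by rw [heq]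
        _ = c * (u * (p + q)) := by ring
    have b2 : y * (c + d) ≤ v * (p + q) := by
      refine Nat.le_of_mul_le_mul_left ?_ hd
      calc d * (y * (c + d)) = (y * d) * (c + d) := by ring
        _ ≤ (v * q) * (c + d) := Nat.mul_le_mul_right _ a2
        _ = v * (q * c + q * d) := by ring
        _ = v * (p * d + q * d) := by rw [heq]
        _ = d * (v * (p + q)) := by ring
    calc (x + y) * (c + d) = x * (c + d) + y * (c + d) := by ring
      _ ≤ u * (p + q) + v * (p + q) := Nat.add_le_add b1 b2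
      _ = (u + v) * (p + q) := by ring

end Pool.Agent.Helper741.PosetChains
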