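import Mathlib
import Pool.Agent.Helper741.PosetSum
import Pool.Agent.Helper741.PosetLex

namespace Pool.Agent.Helper741.PosetChains

variable {P Q : Type*} [PartialOrder P] [PartialOrder Q]

/-- Number of maximal chains contained in `B`. -/
noncomputable def innerCount (P : Type*) [PartialOrder P] (B : Set P) : ℕ :=
  {C | C ∈ MaxChains P ∧ C ⊆ B}.ncard

theorem meet_add_inner [Finite P] (A : Set P) :
    meetCount P A + innerCount P Aᶜ = (MaxChains P).ncard := by
  unfold meetCount innerCount
  rw [← Set.ncard_union_eq _ (Set.toFinite _) (Set.toFinite _)]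
  · congr 1
    ext C
    constructor
    · rintro (h | h)
      · exact h.1
      · exact h.1
    · intro h
      by_cases hne : (C ∩ A).Nonempty
      · exact Or.inl ⟨h, hne⟩
      · refine Or.inr ⟨h, fun x hx hxA => hne ⟨x, hx, hxA⟩⟩
  · rw [Set.disjoint_left]
    rintro C ⟨_, x, hx, hxA⟩ ⟨_, hsub⟩
    exact hsub hx hxA

theorem inner_le [Finite P] (B : Set P) : innerCount P B ≤ (MaxChains P).ncard := by
  unfold innerCount
  exact Set.ncard_le_ncard (fun C hC => hC.1) (Set.toFinite _)

/-- Largest number of maximal chains inside a set with at most `k` elements. -/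
noncomputable def prof (P : Type*) [PartialOrder P] (k : ℕ) : ℕ :=
  sSup {n | ∃ B : Set P, B.ncard ≤ k ∧ innerCount P B = n}

theorem prof_bdd [Finite P] (k : ℕ) :
    BddAbove {n | ∃ B : Set P, B.ncard ≤ k ∧ innerCount P B = n} := by
  refine ⟨(MaxChains P).ncard, ?_⟩
  rintro _ ⟨B, _, rfl⟩
  exact inner_le B

theorem inner_le_prof [Finite P] {B : Set P} {k : ℕ} (h : B.ncard ≤ k) :
    innerCount P B ≤ prof P k := le_csSup (prof_bdd k) ⟨B, h, rfl⟩

theorem prof_attained [Finite P] (k : ℕ) : ∃ B : Set P, B.ncard ≤ k ∧ innerCount P B = prof P k := by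
  have h : prof P k ∈ {n | ∃ B : Set P, B.ncard ≤ k ∧ innerCount P B = n} :=
    Nat.sSup_mem ⟨_, ∅, by simp, rfl⟩ (prof_bdd k)
  exact h

theorem prof_le_ncard [Finite P] (k : ℕ) : prof P k ≤ (MaxChains P).ncard := by
  obtain ⟨B, _, hB⟩ := prof_attained (P := P) k
  rw [← hB]
  exact inner_le B

theorem prof_card [Finite P] : prof P (Nat.card P) = (MaxChains P).ncard := by
  refine le_antisymm (prof_le_ncard _) ?_
  have h : innerCount P Set.univ = (MaxChains P).ncard := by
    unfold innerCount
    congr 1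
    ext C
    simp
  rw [← h]
  exact inner_le_prof (by rw [Set.ncard_univ])

theorem star_iff_prof [Finite P] [Nonempty P] :
    PropStar P ↔ ∀ k ≤ Nat.card P, prof P k * Nat.card P ≤ k * prof P (Nat.card P) := by
  rw [star_iff, prof_card]
  constructor
  · intro h k _
    obtain ⟨B, hBk, hB⟩ := prof_attained (P := P) k
    have h1 := h Bᶜ
    have h2 := meet_add_inner (P := P) Bᶜ
    rw [compl_compl, hB] at h2
    have h3 : Bᶜ.ncard + B.ncard = Nat.card P := by
      rw [add_comm]
      exact Set.ncard_add_ncard_compl B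
    have h4 : prof P k * Nat.card P ≤ B.ncard * (MaxChains P).ncard := by
      rw [← h2, ← h3] at h1 ⊢
      nlinarith
    exact le_trans h4 (Nat.mul_le_mul_right _ hBk)
  · intro h A
    have h3 : A.ncard + Aᶜ.ncard = Nat.card P := Set.ncard_add_ncard_compl A
    have h1 := h Aᶜ.ncard (by omega)
    have h2 := meet_add_inner (P := P) A
    have h4 := inner_le_prof (P := P) (B := Aᶜ) le_rfl
    have h5 : innerCount P Aᶜ * Nat.card P ≤ Aᶜ.ncard * (MaxChains P).ncard :=
      le_trans (Nat.mul_le_mul_right _ h4) h1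
    rw [← h2, ← h3] at h5 ⊢
    nlinarith

theorem inner_sum [Finite P] [Finite Q] [Nonempty P] [Nonempty Q] (B : Set (P ⊕ Q)) :
    innerCount (P ⊕ Q) B = innerCount P (Sum.inl ⁻¹' B) + innerCount Q (Sum.inr ⁻¹' B) := by
  unfold innerCount
  rw [sum_count (fun D => D ⊆ B)]
  congr 2
  · ext C
    simp only [Set.mem_ofPred_eq, Set.image_subset_iff]
  · ext C
    simp only [Set.mem_ofPred_eq, Set.image_subset_iff]

theorem prof_sum [Finite P] [Finite Q] [Nonempty P] [Nonempty Q] (k : ℕ) :
    prof (P ⊕ Q) k = (Finset.range (k + 1)).sup (fun i => prof P i + prof Q (k - i)) := by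
  apply le_antisymm
  · obtain ⟨B, hBk, hB⟩ := prof_attained (P := P ⊕ Q) k
    rw [← hB, inner_sum]
    have hn := sum_set_ncard B
    have h1 : innerCount P (Sum.inl ⁻¹' B) ≤ prof P (Sum.inl ⁻¹' B : Set P).ncard :=
      inner_le_prof le_rfl
    have h2 : innerCount Q (Sum.inr ⁻¹' B) ≤ prof Q (k - (Sum.inl ⁻¹' B : Set P).ncard) :=
      inner_le_prof (by omega)
    refine le_trans (Nat.add_le_add h1 h2) ?_
    exact Finset.le_sup (f := fun i : ℕ => prof P i + prof Q (k - i))
      (b := (Sum.inl ⁻¹' B : Set P).ncard) (Finset.mem_range.2 (by omega))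
  · refine Finset.sup_le fun i hi => ?_
    obtain ⟨B1, hB1, h1⟩ := prof_attained (P := P) i
    obtain ⟨B2, hB2, h2⟩ := prof_attained (P := Q) (k - i)
    have hij' := Finset.mem_range.1 hi
    have e1 : (Sum.inl ⁻¹' (Sum.inl '' B1 ∪ Sum.inr '' B2 : Set (P ⊕ Q)) : Set P) = B1 := by
      ext x; simp
    have e2 : (Sum.inr ⁻¹' (Sum.inl '' B1 ∪ Sum.inr '' B2 : Set (P ⊕ Q)) : Set Q) = B2 := by
      ext x; simp
    have h3 : innerCount (P ⊕ Q) (Sum.inl '' B1 ∪ Sum.inr '' B2) = prof P i + prof Q (k - i) := by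
      rw [inner_sum, e1, e2, h1, h2]
    rw [← h3]
    refine inner_le_prof ?_
    rw [sum_set_ncard, e1, e2]
    omega

theorem inner_lex [Finite P] [Finite Q] (B : Set (P ⊕ₗ Q)) :
    innerCount (P ⊕ₗ Q) B
      = innerCount P {a | toLex (Sum.inl a) ∈ B} * innerCount Q {b | toLex (Sum.inr b) ∈ B} := by
  unfold innerCount
  have h : {C | C ∈ MaxChains (P ⊕ₗ Q) ∧ C ⊆ B}
      = (fun p : Set P × Set Q => glue p.1 p.2) ''
        ({C | C ∈ MaxChains P ∧ C ⊆ {a | toLex (Sum.inl a) ∈ B}} ×ˢ
          {C | C ∈ MaxChains Q ∧ C ⊆ {b | toLex (Sum.inr b) ∈ B}}) := by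
    ext E
    constructor
    · rintro ⟨hE, hsub⟩
      obtain ⟨C, D, hC, hD, rfl⟩ := eq_glue hE
      exact ⟨(C, D), ⟨⟨hC, fun a ha => hsub (inl_mem_glue.2 ha)⟩,
        ⟨hD, fun b hb => hsub (inr_mem_glue.2 hb)⟩⟩, rfl⟩
    · rintro ⟨⟨C, D⟩, ⟨⟨hC, h1⟩, ⟨hD, h2⟩⟩, rfl⟩
      refine ⟨glue_max hC hD, ?_⟩
      rintro x (⟨a, ha, rfl⟩ | ⟨b, hb, rfl⟩)
      · exact h1 ha
      · exact h2 hb
  rw [h, Set.ncard_image_of_injective _ glue_injective, Set.ncard_prod]

theorem prof_lex [Finite P] [Finite Q] (k : ℕ) :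
    prof (P ⊕ₗ Q) k = (Finset.range (k + 1)).sup (fun i => prof P i * prof Q (k - i)) := by
  apply le_antisymm
  · obtain ⟨B, hBk, hB⟩ := prof_attained (P := P ⊕ₗ Q) k
    rw [← hB, inner_lex]
    have hn := lex_set_ncard B
    have h1 : innerCount P {a | toLex (Sum.inl a) ∈ B}
        ≤ prof P {a : P | toLex (Sum.inl a) ∈ B}.ncard :=
      inner_le_prof le_rfl
    have h2 : innerCount Q {b | toLex (Sum.inr b) ∈ B}
        ≤ prof Q (k - {a : P | toLex (Sum.inl a) ∈ B}.ncard) :=
      inner_le_prof (by omega)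
    refine le_trans (Nat.mul_le_mul h1 h2) ?_
    exact Finset.le_sup (f := fun i : ℕ => prof P i * prof Q (k - i))
      (b := {a : P | toLex (Sum.inl a) ∈ B}.ncard) (Finset.mem_range.2 (by omega))
  · refine Finset.sup_le fun i hi => ?_
    obtain ⟨B1, hB1, h1⟩ := prof_attained (P := P) i
    obtain ⟨B2, hB2, h2⟩ := prof_attained (P := Q) (k - i)
    have hij' := Finset.mem_range.1 hi
    have e1 : {a : P | toLex (Sum.inl a) ∈ glue B1 B2} = B1 := by
      ext x; exact inl_mem_glue
    have e2 : {b : Q | toLex (Sum.inr b) ∈ glue B1 B2} = B2 := by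
      ext x; exact inr_mem_glue
    have h3 : innerCount (P ⊕ₗ Q) (glue B1 B2) = prof P i * prof Q (k - i) := by
      rw [inner_lex, e1, e2, h1, h2]
    rw [← h3]
    refine inner_le_prof ?_
    rw [lex_set_ncard, e1, e2]
    omega

theorem prof_unit (k : ℕ) : prof Unit k = min k 1 := by
  have hun : MaxChains Unit = {Set.univ} := by
    ext C
    rw [Set.mem_singleton_iff]
    constructor
    · intro hC
      exact hC.2 (fun x _ y _ _ => Or.inl le_rfl) (Set.subset_univ _)
    · rintro rfl
      exact ⟨fun x _ y _ _ => Or.inl le_rfl, fun t _ ht => (Set.univ_subset_iff.1 ht).symm⟩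
  have hc : (MaxChains Unit).ncard = 1 := by rw [hun, Set.ncard_singleton]
  rcases Nat.eq_zero_or_pos k with rfl | hk
  · obtain ⟨B, hBk, hB⟩ := prof_attained (P := Unit) 0
    have hB0 : B = ∅ := by
      rw [← Set.ncard_eq_zero (Set.toFinite _)]
      omega
    rw [← hB, hB0]
    unfold innerCount
    rw [hun]
    have : {C : Set Unit | C ∈ ({Set.univ} : Set (Set Unit)) ∧ C ⊆ ∅} = ∅ := by
      ext C
      simp only [Set.mem_singleton_iff, Set.mem_ofPred_eq, Set.mem_empty_iff_false, iff_false]
      rintro ⟨rfl, h⟩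
      exact h (Set.mem_univ ())
    rw [this]
    simp
  · have h1 : prof Unit k ≤ 1 := by
      rw [← hc]
      exact prof_le_ncard k
    have h2 : 1 ≤ prof Unit k := by
      have h3 : innerCount Unit Set.univ ≤ prof Unit k := inner_le_prof (by
        rw [Set.ncard_univ]
        have : Nat.card Unit = 1 := Nat.card_unique
        omega)
      have h4 : innerCount Unit Set.univ = 1 := by
        rw [← hc]
        unfold innerCount
        congr 1
        ext C
        simp
      omega
    omega

/-! ### Series-parallel posets -/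

/-- Series-parallel terms. -/
inductive SP : Type
  | pt : SP
  | ser : SP → SP → SP
  | par : SP → SP → SP

/-- A type with a partial order. -/
structure Pos where
  carrier : Type
  ord : PartialOrder carrier

instance posOrd (p : Pos) : PartialOrder p.carrier := p.ord

/-- The poset of a term: a point, ordinal sum, disjoint sum. -/
def SP.real : SP → Pos
  | .pt => ⟨Unit, inferInstance⟩
  | .ser a b => ⟨a.real.carrier ⊕ₗ b.real.carrier, inferInstance⟩
  | .par a b => ⟨a.real.carrier ⊕ b.real.carrier, inferInstance⟩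

/-- Number of points of a term. -/
def SP.size : SP → ℕ
  | .pt => 1
  | .ser a b => a.size + b.size
  | .par a b => a.size + b.size

/-- Recursively computed profile of a term. -/
def SP.profile : SP → ℕ → ℕ
  | .pt => fun k => min k 1
  | .ser a b => fun k => (Finset.range (k + 1)).sup fun i => a.profile i * b.profile (k - i)
  | .par a b => fun k => (Finset.range (k + 1)).sup fun i => a.profile i + b.profile (k - i)

theorem SP.facts (t : SP) : Finite t.real.carrier ∧ Nonempty t.real.carrier ∧
    Nat.card t.real.carrier = t.size ∧ ∀ k, prof t.real.carrier k = t.profile k := by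
  induction t with
  | pt =>
    refine ⟨inferInstanceAs (Finite Unit), inferInstanceAs (Nonempty Unit), ?_, prof_unit⟩
    exact Nat.card_unique (α := Unit)
  | ser a b iha ihb =>
    obtain ⟨fa, na, ca, pa⟩ := iha
    obtain ⟨fb, nb, cb, pb⟩ := ihb
    refine ⟨inferInstanceAs (Finite (a.real.carrier ⊕ₗ b.real.carrier)),
      ⟨toLex (Sum.inl (Classical.arbitrary a.real.carrier))⟩, ?_, fun k => ?_⟩
    · have := lex_card (P := a.real.carrier) (Q := b.real.carrier)
      rw [ca, cb] at this
      exact this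
    · have := prof_lex (P := a.real.carrier) (Q := b.real.carrier) k
      refine Eq.trans this ?_
      exact Finset.sup_congr rfl fun i _ => by rw [pa, pb]
  | par a b iha ihb =>
    obtain ⟨fa, na, ca, pa⟩ := iha
    obtain ⟨fb, nb, cb, pb⟩ := ihb
    refine ⟨inferInstanceAs (Finite (a.real.carrier ⊕ b.real.carrier)),
      ⟨Sum.inl (Classical.arbitrary a.real.carrier)⟩, ?_, fun k => ?_⟩
    · have : Nat.card (a.real.carrier ⊕ b.real.carrier) = _ := Nat.card_sum
      rw [ca, cb] at this
      exact this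
    · have := prof_sum (P := a.real.carrier) (Q := b.real.carrier) k
      refine Eq.trans this ?_
      exact Finset.sup_congr rfl fun i _ => by rw [pa, pb]

theorem star_sp_iff (t : SP) : PropStar t.real.carrier ↔
    ∀ k ≤ t.size, t.profile k * t.size ≤ k * t.profile t.size := by
  obtain ⟨ft, nt, ct, pt⟩ := t.facts
  rw [star_iff_prof, ct]
  simp only [pt]

end Pool.Agent.Helper741.PosetChains
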