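import Mathlib
import Pool.Agent.Helper741.PosetTree

namespace Pool.Agent.Helper741.PosetChains

variable {P : Type*} [PartialOrder P]

/-- The property is self-dual. -/
theorem star_dual [Finite P] [Nonempty P] : PropStar P → PropStar Pᵒᵈ := by
  intro h
  have e : ∀ C : Set P, IsMaxChain (· ≤ ·) C ↔ IsMaxChain (fun x y : P => y ≤ x) C :=
    fun C => ⟨fun h => h.symm, fun h => h.symm⟩
  intro A
  have hA := h (OrderDual.toDual ⁻¹' A)
  have e1 : (MaxChains Pᵒᵈ).ncard = (MaxChains P).ncard := by
    have : MaxChains Pᵒᵈ = (fun C : Set P => OrderDual.toDual '' C) '' MaxChains P := by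
      ext C
      constructor
      · intro hC
        refine ⟨OrderDual.toDual ⁻¹' C, (e _).2 hC, ?_⟩
        exact Set.image_preimage_eq _ OrderDual.toDual.surjective
      · rintro ⟨D, hD, rfl⟩
        have h1 : IsMaxChain (fun x y : P => y ≤ x) D := (e _).1 hD
        have h2 : (OrderDual.toDual '' D : Set Pᵒᵈ) = D := by
          ext x
          constructor
          · rintro ⟨y, hy, rfl⟩
            exact hy
          · intro hx
            exact ⟨x, hx, rfl⟩
        show (OrderDual.toDual '' D : Set Pᵒᵈ) ∈ MaxChains Pᵒᵈ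
        rw [h2]
        exact h1
    rw [this, Set.ncard_image_of_injective _
      (Set.image_injective.2 OrderDual.toDual.injective)]
  have e2 : meetCount Pᵒᵈ A = meetCount P (OrderDual.toDual ⁻¹' A) := by
    unfold meetCount
    have : {C | C ∈ MaxChains Pᵒᵈ ∧ (C ∩ A).Nonempty}
        = (fun C : Set P => OrderDual.toDual '' C) ''
          {C | C ∈ MaxChains P ∧ (C ∩ OrderDual.toDual ⁻¹' A).Nonempty} := by
      ext C
      constructor
      · rintro ⟨hC, x, hx, hxA⟩
        refine ⟨OrderDual.toDual ⁻¹' C, ⟨(e _).2 hC, x, hx, hxA⟩, ?_⟩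
        exact Set.image_preimage_eq _ OrderDual.toDual.surjective
      · rintro ⟨D, ⟨hD, x, hx, hxA⟩, rfl⟩
        have h1 : IsMaxChain (fun x y : P => y ≤ x) D := (e _).1 hD
        have h2 : (OrderDual.toDual '' D : Set Pᵒᵈ) = D := by
          ext x
          constructor
          · rintro ⟨y, hy, rfl⟩
            exact hy
          · intro hx
            exact ⟨x, hx, rfl⟩
        refine ⟨?_, OrderDual.toDual x, ⟨x, hx, rfl⟩, hxA⟩
        show (OrderDual.toDual '' D : Set Pᵒᵈ) ∈ MaxChains Pᵒᵈ
        rw [h2]
        exact h1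
    rw [this, Set.ncard_image_of_injective _
      (Set.image_injective.2 OrderDual.toDual.injective)]
  have e3 : (OrderDual.toDual ⁻¹' A).ncard = A.ncard := by
    have : OrderDual.toDual '' (OrderDual.toDual ⁻¹' A) = A :=
      Set.image_preimage_eq _ OrderDual.toDual.surjective
    conv_rhs => rw [← this]
    rw [Set.ncard_image_of_injective _ OrderDual.toDual.injective]
  have e4 : Nat.card Pᵒᵈ = Nat.card P := (Nat.card_congr OrderDual.toDual).symm
  rw [e1, e2, e4, ← e3]
  exact hA

/-- Regular graded posets: every maximal chain meets every level exactly once, and elements of one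
level lie in equally many maximal chains. -/
theorem star_regular [Fintype P] [Nonempty P] (ρ : P → ℕ)
    (h1 : ∀ C ∈ MaxChains P, ∀ x : P, ∃! y, y ∈ C ∧ ρ y = ρ x)
    (h2 : ∀ x y : P, ρ x = ρ y → meetCount P {x} = meetCount P {y}) : PropStar P := by
  classical
  have hfin : (MaxChains P).Finite := Set.toFinite _
  let N : P → ℕ := fun x => (Finset.univ.filter (fun y : P => ρ y = ρ x)).card
  refine star_of_transport (hfin.toFinset) (fun C => C) (fun _ _ _ _ h => h) ?_
    (fun C x => if x ∈ C then N x else 0) (Fintype.card P) (MaxChains P).ncard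
    (maxChains_pos P) ?_ ?_ ?_ ?_
  · rw [Set.image_id', Set.Finite.coe_toFinset]
  · intro C _ x hx
    by_contra hne
    exact hx (if_neg hne)
  · intro C hC
    have hC' : C ∈ MaxChains P := by simpa using hC
    have : ∑ x, (if x ∈ C then N x else 0) = ∑ x, ∑ y, (if y ∈ C ∧ ρ y = ρ x then 1 else 0) := by
      rw [Finset.sum_comm]
      refine Finset.sum_congr rfl fun y _ => ?_
      by_cases hy : y ∈ C
      · rw [if_pos hy]
        simp only [hy, true_and, N]
        rw [Finset.card_filter]
        refine Finset.sum_congr rfl fun z _ => ?_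
        by_cases hz : ρ z = ρ y
        · rw [if_pos hz, if_pos hz.symm]
        · rw [if_neg hz, if_neg (fun h => hz h.symm)]
      · rw [if_neg hy]
        simp [hy]
    rw [this]
    have h3 : ∀ x : P, ∑ y, (if y ∈ C ∧ ρ y = ρ x then 1 else 0) = 1 := by
      intro x
      obtain ⟨y, hy, huniq⟩ := h1 C hC' x
      rw [Finset.sum_eq_single y]
      · rw [if_pos hy]
      · intro z _ hz
        rw [if_neg]
        exact fun h => hz (huniq z h)
      · intro h
        exact absurd (Finset.mem_univ y) h
    rw [Finset.sum_congr rfl fun x _ => h3 x]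
    simp
  · intro x
    have hcount : ∀ y : P, meetCount P {y} = ∑ C ∈ hfin.toFinset, (if y ∈ C then 1 else 0) := by
      intro y
      rw [← Finset.card_filter]
      unfold meetCount
      rw [← Set.ncard_coe_finset]
      congr 1
      ext C
      rw [Finset.mem_coe, Finset.mem_filter, Set.Finite.mem_toFinset]
      constructor
      · rintro ⟨hC, u, hu, hu'⟩
        rw [Set.mem_singleton_iff] at hu'
        subst hu'
        exact ⟨hC, hu⟩
      · rintro ⟨hC, hy⟩
        exact ⟨hC, y, hy, rfl⟩
    have e1 : ∑ C ∈ hfin.toFinset, (if x ∈ C then N x else 0) = N x * meetCount P {x} := by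
      rw [hcount, Finset.mul_sum]
      refine Finset.sum_congr rfl fun C _ => ?_
      split_ifs <;> simp
    have e2 : N x * meetCount P {x}
        = ∑ y ∈ Finset.univ.filter (fun y : P => ρ y = ρ x), meetCount P {y} := by
      rw [Finset.sum_congr rfl fun y hy => h2 y x (Finset.mem_filter.1 hy).2,
        Finset.sum_const, smul_eq_mul]
    have e3 : ∑ y ∈ Finset.univ.filter (fun y : P => ρ y = ρ x), meetCount P {y}
        = (MaxChains P).ncard := by
      rw [Finset.sum_congr rfl fun y _ => hcount y, Finset.sum_comm]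
      have h4 : ∀ C ∈ hfin.toFinset,
          ∑ y ∈ Finset.univ.filter (fun y : P => ρ y = ρ x), (if y ∈ C then 1 else 0) = 1 := by
        intro C hC
        have hC' : C ∈ MaxChains P := by simpa using hC
        obtain ⟨y, hy, huniq⟩ := h1 C hC' x
        rw [Finset.sum_eq_single y]
        · rw [if_pos hy.1]
        · intro z hz hzy
          rw [if_neg]
          exact fun h => hzy (huniq z ⟨h, (Finset.mem_filter.1 hz).2⟩)
        · intro h
          exact absurd (Finset.mem_filter.2 ⟨Finset.mem_univ y, hy.2⟩) h
      rw [Finset.sum_congr rfl h4]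
      simp [Set.ncard_eq_toFinset_card _ hfin]
    show (MaxChains P).ncard ≤ ∑ C ∈ hfin.toFinset, (if x ∈ C then N x else 0)
    rw [e1, e2, e3]
  · rw [Set.ncard_eq_toFinset_card _ hfin, mul_comm]

end Pool.Agent.Helper741.PosetChains
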