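import Pool.Agent.Helper741.CoxCenter

set_option autoImplicit false

namespace Pool.Agent.Helper741

open CoxeterSystem

variable {B : Type*}

lemma altword_prod {G : Type*} [Monoid G] (f : B → G) (i j : B) (m : ℕ) :
    ((alternatingWord i j m).map f).prod =
      if Even m then alt (f i) (f j) m else alt (f j) (f i) m := by
  induction m with
  | zero => simp [alternatingWord]
  | succ m ih =>
    rw [alternatingWord_succ', List.map_cons, List.prod_cons, ih]
    by_cases hm : Even m
    · have hm1 : ¬ Even (m + 1) := by simpa [Nat.even_add_one] using hm
      simp only [hm, hm1, if_true, if_false]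
      rw [alt_succ (f j)]
    · have hm1 : Even (m + 1) := by simpa [Nat.even_add_one] using hm
      simp only [hm, hm1, if_true, if_false]
      rw [alt_succ (f i)]

/-- relators written with Mathlib's alternating words, only for finite entries -/
abbrev relSet (M : CoxeterMatrix B) : Set (FreeGroup B) :=
  {r : FreeGroup B | ∃ i j : B, M i j ≠ 0 ∧
    r = ((alternatingWord i j (M i j)).map FreeGroup.of).prod *
      (((alternatingWord j i (M i j)).map FreeGroup.of).prod)⁻¹}

variable (M : CoxeterMatrix B)

lemma relSet_rel (i j : B) :
    alt (PresentedGroup.of (rels := relSet M) i) (PresentedGroup.of j) (M i j) =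
      alt (PresentedGroup.of (rels := relSet M) j) (PresentedGroup.of i) (M i j) := by
  by_cases h0 : M i j = 0
  · rw [h0]; simp
  have h : PresentedGroup.mk (relSet M)
        (((alternatingWord i j (M i j)).map FreeGroup.of).prod *
          (((alternatingWord j i (M i j)).map FreeGroup.of).prod)⁻¹) = 1 := by
    apply PresentedGroup.one_of_mem
    exact ⟨i, j, h0, rfl⟩
  rw [map_mul, map_inv, mul_inv_eq_one, altword_prod, altword_prod] at h
  by_cases he : Even (M i j)
  · simp only [he, if_true, map_alt] at h
    exact h
  · simp only [he, if_false, map_alt] at h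
    exact h.symm

/-- from `Artin M` to the other presentation -/
def toRel : Artin M →* PresentedGroup (relSet M) :=
  Artin.lift (fun i => PresentedGroup.of i) (relSet_rel M)

@[simp] lemma toRel_gen (i : B) : toRel M (Artin.gen M i) = PresentedGroup.of i :=
  Artin.lift_gen _ _ i

/-- and back -/
def ofRel : PresentedGroup (relSet M) →* Artin M :=
  PresentedGroup.toGroup (f := Artin.gen M) (by
    rintro _ ⟨i, j, _, rfl⟩
    have h1 : ∀ a b : B, FreeGroup.lift (Artin.gen M)
        (((alternatingWord a b (M i j)).map FreeGroup.of).prod)
        = ((alternatingWord a b (M i j)).map (Artin.gen M)).prod := by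
      intro a b
      rw [map_list_prod, List.map_map]
      congr 1
    rw [map_mul, map_inv, h1, h1, altword_prod, altword_prod, mul_inv_eq_one, Artin.rel i j])

@[simp] lemma ofRel_of (i : B) : ofRel M (PresentedGroup.of i) = Artin.gen M i := by
  simp [ofRel]

/-- the two presentations define isomorphic groups -/
def relEquiv : Artin M ≃* PresentedGroup (relSet M) :=
  MonoidHom.toMulEquiv (toRel M) (ofRel M)
    (by
      apply Artin.hom_ext
      intro i
      rw [MonoidHom.comp_apply, toRel_gen, ofRel_of]
      rfl)
    (by
      apply PresentedGroup.ext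
      intro i
      rw [MonoidHom.comp_apply, ofRel_of, toRel_gen]
      rfl)

lemma relEquiv_gen (i : B) : relEquiv M (Artin.gen M i) = PresentedGroup.of i := toRel_gen M i

/-- connectedness of the Coxeter graph gives irreducibility -/
lemma irr_of_connected (h : (SimpleGraph.fromRel (fun i j : B => M i j ≠ 2)).Connected) :
    Irr M := by
  intro U hU
  by_cases hne : U = ∅
  · exact Or.inl hne
  · right
    obtain ⟨i, hi⟩ := Set.nonempty_iff_ne_empty.mpr hne
    ext j
    simp only [Set.mem_univ, iff_true]
    have hr := h.preconnected i j
    rw [SimpleGraph.reachable_iff_reflTransGen] at hr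
    induction hr with
    | refl => exact hi
    | tail _ hbc ih =>
      rename_i b c _
      by_contra hc
      rw [SimpleGraph.fromRel_adj] at hbc
      obtain ⟨_, h2 | h2⟩ := hbc
      · exact h2 (hU b ih c hc)
      · rw [M.symmetric] at h2
        exact h2 (hU b ih c hc)

end Pool.Agent.Helper741
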