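import Pool.Agent.Helper741.ClassSum

set_option autoImplicit false

namespace Pool.Agent.Helper741

open CoxeterSystem

lemma int_eq_zero_of_pow_dvd {p : ℕ} (hp : 2 ≤ p) {a : ℤ} (h : ∀ k : ℕ, ((p : ℤ) ^ k) ∣ a) :
    a = 0 := by
  by_contra ha
  have h1 := Int.natAbs_dvd_natAbs.mpr (h a.natAbs)
  rw [Int.natAbs_pow, Int.natAbs_natCast] at h1
  have h2 := Nat.le_of_dvd (Int.natAbs_pos.mpr ha) h1
  have h3 : a.natAbs < p ^ a.natAbs := Nat.lt_pow_self (by omega)
  omega

lemma exists_div_hom {G : Type*} [Group G] {p : ℕ} (ν : G →* Multiplicative ℤ)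
    (h : ∀ x, (p : ℤ) ∣ (ν x).toAdd) :
    ∃ ν' : G →* Multiplicative ℤ, ∀ x, (ν x).toAdd = (p : ℤ) * (ν' x).toAdd := by
  refine ⟨
    { toFun := fun x => Multiplicative.ofAdd ((ν x).toAdd / (p : ℤ))
      map_one' := by simp
      map_mul' := fun x y => by
        rw [map_mul, toAdd_mul, ← ofAdd_add, Int.add_ediv_of_dvd_left (h x)] }, fun x => ?_⟩
  change (ν x).toAdd = (p : ℤ) * ((ν x).toAdd / (p : ℤ))
  rw [Int.mul_ediv_cancel' (h x)]

variable {B : Type*} {M : CoxeterMatrix B} [Fintype B] [DecidableEq B]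
variable {W : Type*} [Group W] (cs : CoxeterSystem M W)

lemma dvd_of_scal [Fintype W] (φ ψ : Artin M →* Artin M)
    (hcomm : ∀ x y, φ x * ψ y = ψ y * φ x) (hprod : ∀ x, φ x * ψ x = x)
    (hs : ∀ x, Scal cs (Artin.toCox cs (φ x))) {p : ℕ}
    (hp : ∀ v : W → ℤ, ReflClassFun cs v → (p : ℤ) ∣ ∑ w, v w)
    (μ : Artin M →* Multiplicative ℤ) (x : Artin M) : (p : ℤ) ∣ (μ (φ x)).toAdd := by
  rw [← cocyc_total cs μ (φ x), Finsupp.sum_fintype _ _ (fun _ => rfl)]
  apply hp
  constructor
  · intro w r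
    obtain ⟨y, rfl⟩ := Artin.toCox_surjective cs w
    have h1 : Artin.toCox cs y * r * (Artin.toCox cs y)⁻¹ =
        Artin.toCox cs (ψ y) * r * (Artin.toCox cs (ψ y))⁻¹ := by
      conv_lhs => rw [← hprod y, map_mul]
      have h2 := (hs y).comm (Artin.toCox cs (ψ y) * r * (Artin.toCox cs (ψ y))⁻¹)
      calc Artin.toCox cs (φ y) * Artin.toCox cs (ψ y) * r *
            (Artin.toCox cs (φ y) * Artin.toCox cs (ψ y))⁻¹
          = Artin.toCox cs (φ y) * (Artin.toCox cs (ψ y) * r * (Artin.toCox cs (ψ y))⁻¹) *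
            (Artin.toCox cs (φ y))⁻¹ := by group
        _ = (Artin.toCox cs (ψ y) * r * (Artin.toCox cs (ψ y))⁻¹) * Artin.toCox cs (φ y) *
            (Artin.toCox cs (φ y))⁻¹ := by rw [h2]
        _ = _ := by group
    rw [h1]
    exact cocyc_inv_of_commute cs μ (φ x) (ψ y) (hcomm x y) (fun w => (hs x).comm w) r
  · intro r hr
    obtain ⟨i, w, _, hw⟩ := cocyc_support cs μ (φ x) r hr
    exact ⟨i, w, hw⟩

include cs in
theorem propX [Finite W] (hM : Irr M) (hB : 2 ≤ Fintype.card B) (φ ψ : Artin M →* Artin M)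
    (hcomm : ∀ x y, φ x * ψ y = ψ y * φ x) (hprod : ∀ x, φ x * ψ x = x)
    (hz : ∀ z ∈ Subgroup.center (Artin M), ∀ μ : Artin M →* Multiplicative ℤ, μ (φ z) = 1)
    (ν : Artin M →* Multiplicative ℤ) (hν : ∀ x, ν (φ x) = ν x) (x : Artin M) : ν x = 1 := by
  classical
  have : Fintype W := Fintype.ofFinite W
  have hne : Nonempty B := Fintype.card_pos_iff.mp (by omega)
  obtain ⟨p, hp2, hp⟩ := exists_dvd_class_sum cs hM hB
  have hp0 : (p : ℤ) ≠ 0 := by
    have : 0 < p := by omega
    exact_mod_cast this.ne'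
  have hcase := scal_or_scal cs hM ((Artin.toCox cs).comp φ) ((Artin.toCox cs).comp ψ)
    (fun x y => by
      simp only [MonoidHom.comp_apply]
      rw [← map_mul, ← map_mul, hcomm])
    (fun x => by
      simp only [MonoidHom.comp_apply]
      rw [← map_mul, hprod])
  rcases hcase with h | h
  · -- `φ` has central image in the Coxeter group
    have hdvd := dvd_of_scal cs φ ψ hcomm hprod h hp
    have key : ∀ (k : ℕ) (ν : Artin M →* Multiplicative ℤ), (∀ x, ν (φ x) = ν x) → ∀ x,
        ((p : ℤ) ^ k) ∣ (ν x).toAdd := by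
      intro k
      induction k with
      | zero => intro ν _ x; simp
      | succ k ih =>
        intro ν hν x
        have h1 : ∀ x, (p : ℤ) ∣ (ν x).toAdd := by
          intro x
          rw [← hν x]
          exact hdvd ν x
        obtain ⟨ν', hν'⟩ := exists_div_hom ν h1
        have h2 : ∀ x, ν' (φ x) = ν' x := by
          intro x
          have h3 := congrArg Multiplicative.toAdd (hν x)
          rw [hν', hν'] at h3
          exact Multiplicative.toAdd.injective (mul_left_cancel₀ hp0 h3)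
        rw [hν' x, pow_succ']
        exact mul_dvd_mul_left _ (ih ν' h2 x)
    have h0 := int_eq_zero_of_pow_dvd hp2 (fun k => key k ν hν x)
    exact Multiplicative.toAdd.injective (by simpa using h0)
  · -- `ψ` has central image in the Coxeter group: impossible
    exfalso
    have hdvd := dvd_of_scal cs ψ φ (fun x y => (hcomm y x).symm)
      (fun x => by rw [← hcomm]; exact hprod x) h hp
    obtain ⟨z, hzc, hlen⟩ := exists_central_len cs
    have key : ∀ (k : ℕ) (μ : Artin M →* Multiplicative ℤ), ((p : ℤ) ^ k) ∣ (μ z).toAdd := by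
      intro k
      induction k with
      | zero => intro μ; simp
      | succ k ih =>
        intro μ
        obtain ⟨μ', hμ'⟩ := exists_div_hom (μ.comp ψ) (fun x => hdvd μ x)
        have h1 : (μ z).toAdd = (p : ℤ) * (μ' z).toAdd := by
          rw [← hμ' z]
          conv_lhs => rw [← hprod z, map_mul, hz z hzc μ, one_mul]
          rfl
        rw [h1, pow_succ']
        exact mul_dvd_mul_left _ (ih μ')
    have h0 := int_eq_zero_of_pow_dvd hp2 (fun k => key k (lenHom M))
    exact hlen (Multiplicative.toAdd.injective (by simpa using h0))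

end Pool.Agent.Helper741
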