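import Pool.Agent.Helper741.Reduction

set_option autoImplicit false

namespace Pool.Agent.Helper741

open CoxeterSystem TExt
open scoped commutatorElement

variable {B : Type*} {M : CoxeterMatrix B}
variable {W : Type*} [Group W] (cs : CoxeterSystem M W)

/-- The kernel of the map to the Coxeter group is the normal closure of the squares. -/
lemma ker_toCox : (Artin.toCox cs).ker ≤ Subgroup.normalClosure
    (Set.range (fun i => Artin.gen M i * Artin.gen M i)) := by
  set N := Subgroup.normalClosure (Set.range (fun i => Artin.gen M i * Artin.gen M i)) with hN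
  set q : B → Artin M ⧸ N := fun i => (QuotientGroup.mk' N) (Artin.gen M i) with hq
  have hsq : ∀ i, q i * q i = 1 := by
    intro i
    rw [hq]
    simp only
    rw [← map_mul]
    exact (QuotientGroup.eq_one_iff _).mpr (Subgroup.subset_normalClosure ⟨i, rfl⟩)
  have hl : M.IsLiftable q := by
    intro i j
    have h1 : alt (q i) (q j) (M i j) = alt (q j) (q i) (M i j) := by
      have := congrArg (QuotientGroup.mk' N) (Artin.rel (M := M) i j)
      rwa [map_alt, map_alt] at this
    -- alternating products of involutions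
    have h2 : ∀ (a b : Artin M ⧸ N), a * a = 1 → b * b = 1 → ∀ m : ℕ,
        alt a b m = alt b a m → (a * b) ^ m = 1 := by
      intro a b ha hb m hm
      rcases Nat.eq_zero_or_pos m with rfl | hpos
      · simp
      obtain ⟨k, rfl⟩ : ∃ k, m = k + 1 := ⟨m - 1, by omega⟩
      rw [← refl_mul_alt ha hb k, alt_succ b a k] at hm
      have h3 := mul_right_cancel hm
      rw [pow_succ, ← mul_assoc, h3, hb]
    exact h2 _ _ (hsq i) (hsq j) _ h1
  have hcomp : (cs.lift ⟨q, hl⟩).comp (Artin.toCox cs) = QuotientGroup.mk' N := by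
    apply Artin.hom_ext
    intro i
    rw [MonoidHom.comp_apply, Artin.toCox_gen]
    exact cs.lift_apply_simple hl i
  intro x hx
  rw [MonoidHom.mem_ker] at hx
  have h1 := DFunLike.congr_fun hcomp x
  rw [MonoidHom.comp_apply, hx, map_one] at h1
  exact (QuotientGroup.eq_one_iff _).mp h1.symm

variable [Fintype B] [DecidableEq B]

/-- pure conjugation invariance modulo the commutator subgroup of the pure Artin group -/
lemma sq_conj {u : W} {i j : B} (h : u * cs.simple i = cs.simple j * u) :
    sec cs u * (Artin.gen M i * Artin.gen M i) * (sec cs u)⁻¹ =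
      Artin.gen M j * Artin.gen M j := by
  have key : ∀ u : W, u * cs.simple i = cs.simple j * u →
      cs.length u < cs.length (u * cs.simple i) →
      sec cs u * Artin.gen M i = Artin.gen M j * sec cs u := by
    intro u h hl
    rw [← sec_mul_simple cs u i hl, h, sec_simple_mul cs u j (by rwa [← h])]
  have key2 : ∀ u : W, sec cs u * Artin.gen M i = Artin.gen M j * sec cs u →
      sec cs u * (Artin.gen M i * Artin.gen M i) * (sec cs u)⁻¹ =
      Artin.gen M j * Artin.gen M j := by
    intro u h
    rw [← mul_assoc, h, mul_assoc (Artin.gen M j), h]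
    group
  by_cases hl : cs.length u < cs.length (u * cs.simple i)
  · exact key2 u (key u h hl)
  · have hl' : cs.length (u * cs.simple i) < cs.length u := by
      rcases cs.length_mul_simple u i with h1 | h1 <;> omega
    have h1 : (u * cs.simple i) * cs.simple i = cs.simple j * (u * cs.simple i) := by
      rw [h, mul_assoc, h, ← mul_assoc]
    have h2 := key _ h1 (by rwa [cs.simple_mul_simple_cancel_right])
    have h3 : sec cs u = sec cs (u * cs.simple i) * Artin.gen M i := by
      conv_lhs => rw [← cs.simple_mul_simple_cancel_right (w := u) i]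
      apply sec_mul_simple
      rwa [cs.simple_mul_simple_cancel_right]
    rw [h3, ← key2 _ h2]
    group

lemma toCox_sec (w : W) : Artin.toCox cs (sec cs w) = w := by
  have h : ∀ ω : List B, Artin.toCox cs ((ω.map (Artin.gen M)).prod) = cs.wordProd ω := by
    intro ω
    induction ω with
    | nil => simp
    | cons i ω ih => rw [List.map_cons, List.prod_cons, map_mul, ih, Artin.toCox_gen,
        cs.wordProd_cons]
  rw [sec, h, rword_prod]

/-- commutator subgroup of the pure Artin group, as a subgroup of the Artin group -/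
abbrev PP : Subgroup (Artin M) := ⁅(Artin.toCox cs).ker, (Artin.toCox cs).ker⁆

lemma meridian_eq (g g' : Artin M) (i j : B)
    (h : Artin.toCox cs g * cs.simple i * (Artin.toCox cs g)⁻¹ =
      Artin.toCox cs g' * cs.simple j * (Artin.toCox cs g')⁻¹) :
    (g * (Artin.gen M i * Artin.gen M i) * g⁻¹)⁻¹ * (g' * (Artin.gen M j * Artin.gen M j) * g'⁻¹) ∈
      PP cs := by
  have hnormal : (PP cs).Normal := inferInstance
  set π := QuotientGroup.mk' (PP cs) with hπ
  have hcomm : ∀ a b : Artin M, a ∈ (Artin.toCox cs).ker → b ∈ (Artin.toCox cs).ker →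
      π a * π b = π b * π a := by
    intro a b ha hb
    have h1 : ⁅a, b⁆ ∈ PP cs := Subgroup.commutator_mem_commutator ha hb
    have h2 : π ⁅a, b⁆ = 1 := (QuotientGroup.eq_one_iff _).mpr h1
    rw [map_commutatorElement, commutatorElement_eq_one_iff_mul_comm] at h2
    exact h2
  have hsqk : ∀ i, Artin.gen M i * Artin.gen M i ∈ (Artin.toCox cs).ker := by
    intro i
    rw [MonoidHom.mem_ker, map_mul, Artin.toCox_gen, cs.simple_mul_simple_self]
  suffices hs : π (g * (Artin.gen M i * Artin.gen M i) * g⁻¹) =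
      π (g' * (Artin.gen M j * Artin.gen M j) * g'⁻¹) by
    rw [← QuotientGroup.eq_one_iff]
    change π _ = 1
    rw [map_mul, map_inv, hs, inv_mul_cancel]
  set u := (Artin.toCox cs g')⁻¹ * Artin.toCox cs g with hu
  have hui : u * cs.simple i = cs.simple j * u := by
    rw [hu]
    calc (Artin.toCox cs g')⁻¹ * Artin.toCox cs g * cs.simple i
        = (Artin.toCox cs g')⁻¹ * (Artin.toCox cs g * cs.simple i * (Artin.toCox cs g)⁻¹) *
          Artin.toCox cs g := by group
      _ = (Artin.toCox cs g')⁻¹ * (Artin.toCox cs g' * cs.simple j * (Artin.toCox cs g')⁻¹) *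
          Artin.toCox cs g := by rw [h]
      _ = _ := by group
  set k := (sec cs u)⁻¹ * (g'⁻¹ * g) with hk
  have hkk : k ∈ (Artin.toCox cs).ker := by
    rw [MonoidHom.mem_ker, hk, map_mul, map_inv, toCox_sec, map_mul, map_inv, hu]
    group
  have hg : g = g' * sec cs u * k := by rw [hk]; group
  have e1 : g * (Artin.gen M i * Artin.gen M i) * g⁻¹ =
      g' * (sec cs u * (k * (Artin.gen M i * Artin.gen M i) * k⁻¹) * (sec cs u)⁻¹) * g'⁻¹ := by
    rw [hg]; group
  have e2 : π (k * (Artin.gen M i * Artin.gen M i) * k⁻¹) = π (Artin.gen M i * Artin.gen M i) := by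
    rw [map_mul, map_mul π k, hcomm _ _ hkk (hsqk i), map_inv]
    group
  rw [e1, map_mul, map_mul, map_mul π (sec cs u * _), map_mul π (sec cs u), e2, ← map_mul,
    ← map_mul, sq_conj cs hui, ← map_mul, ← map_mul]

lemma sq_mem_ker (i : B) : Artin.gen M i * Artin.gen M i ∈ (Artin.toCox cs).ker := by
  rw [MonoidHom.mem_ker, map_mul, Artin.toCox_gen, cs.simple_mul_simple_self]

lemma meridian_mem_ker (g : Artin M) (i : B) :
    g * (Artin.gen M i * Artin.gen M i) * g⁻¹ ∈ (Artin.toCox cs).ker :=
  (MonoidHom.normal_ker _).conj_mem _ (sq_mem_ker cs i) g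

/-- class of an element of the pure Artin group in its abelianization -/
noncomputable abbrev cl (x : Artin M) (hx : x ∈ (Artin.toCox cs).ker) :
    Abelianization (Artin.toCox cs).ker := Abelianization.of ⟨x, hx⟩

lemma cl_eq_one_iff (x : Artin M) (hx : x ∈ (Artin.toCox cs).ker) :
    cl cs x hx = 1 ↔ x ∈ PP cs := by
  have h1 : cl cs x hx = 1 ↔ (⟨x, hx⟩ : (Artin.toCox cs).ker) ∈ commutator (Artin.toCox cs).ker :=
    QuotientGroup.eq_one_iff _
  rw [h1]
  have h2 := Subgroup.map_subtype_commutator (Artin.toCox cs).ker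
  rw [PP, ← h2]
  constructor
  · intro h
    exact ⟨_, h, rfl⟩
  · rintro ⟨y, hy, hyx⟩
    have : y = ⟨x, hx⟩ := Subtype.ext hyx
    rw [← this]
    exact hy

lemma cl_mul (x y : Artin M) (hx : x ∈ (Artin.toCox cs).ker) (hy : y ∈ (Artin.toCox cs).ker)
    (hxy : x * y ∈ (Artin.toCox cs).ker) : cl cs (x * y) hxy = cl cs x hx * cl cs y hy := by
  unfold cl
  rw [← map_mul]
  rfl

lemma cl_inv (x : Artin M) (hx : x ∈ (Artin.toCox cs).ker)
    (hx' : x⁻¹ ∈ (Artin.toCox cs).ker) : cl cs x⁻¹ hx' = (cl cs x hx)⁻¹ := by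
  unfold cl
  rw [← map_inv]
  rfl

open Classical in
/-- class of the meridian attached to a reflection -/
noncomputable def mer (r : W) : Abelianization (Artin.toCox cs).ker :=
  if h : ∃ p : Artin M × B,
      r = Artin.toCox cs p.1 * cs.simple p.2 * (Artin.toCox cs p.1)⁻¹ then
    cl cs _ (meridian_mem_ker cs h.choose.1 h.choose.2)
  else 1

lemma mer_eq (g : Artin M) (i : B) :
    mer cs (Artin.toCox cs g * cs.simple i * (Artin.toCox cs g)⁻¹) =
      cl cs _ (meridian_mem_ker cs g i) := by
  have h : ∃ p : Artin M × B, Artin.toCox cs g * cs.simple i * (Artin.toCox cs g)⁻¹ =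
      Artin.toCox cs p.1 * cs.simple p.2 * (Artin.toCox cs p.1)⁻¹ := ⟨(g, i), rfl⟩
  unfold mer
  rw [dif_pos h]
  have h1 := meridian_eq cs _ _ _ _ h.choose_spec.symm
  have h2 : ((h.choose.1 * (Artin.gen M h.choose.2 * Artin.gen M h.choose.2) * h.choose.1⁻¹)⁻¹ *
      (g * (Artin.gen M i * Artin.gen M i) * g⁻¹)) ∈ (Artin.toCox cs).ker :=
    Subgroup.mul_mem _ (Subgroup.inv_mem _ (meridian_mem_ker cs _ _)) (meridian_mem_ker cs _ _)
  have h3 := (cl_eq_one_iff cs _ h2).mpr h1
  rw [cl_mul cs _ _ (Subgroup.inv_mem _ (meridian_mem_ker cs _ _)) (meridian_mem_ker cs _ _),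
    cl_inv cs _ (meridian_mem_ker cs _ _)] at h3
  exact (inv_mul_eq_one.mp h3)

/-- The universal cocycle, `s ↦ (δ_s, s)`. -/
noncomputable abbrev uc : Artin M →* TExt ℤ W := cocyc cs (lenHom M)

lemma uc_meridian (g : Artin M) (i : B) :
    (uc cs (g * (Artin.gen M i * Artin.gen M i) * g⁻¹)).v =
      Finsupp.single (Artin.toCox cs g * cs.simple i * (Artin.toCox cs g)⁻¹) 2 := by
  have h0 : (uc cs (Artin.gen M i * Artin.gen M i)).v = Finsupp.single (cs.simple i) 2 := by
    rw [map_mul, cocyc_gen, mul_v, el_v, el_w, act_single, mul_inv_cancel_right,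
      ← Finsupp.single_add, lenHom_gen]
    rfl
  have h1 : (uc cs (Artin.gen M i * Artin.gen M i)).w = 1 := by
    rw [cocyc_w, map_mul, Artin.toCox_gen, cs.simple_mul_simple_self]
  rw [map_mul, map_mul, mul_v, mul_v, mul_w, h0, h1, map_inv, inv_v, mul_one, act_single, cocyc_w]
  have h2 : act (Artin.toCox cs g) (-act (Artin.toCox cs g)⁻¹ (uc cs g).v) = - (uc cs g).v := by
    ext r
    simp only [act_apply, Finsupp.neg_apply, inv_inv]
    congr 2
    group
  rw [h2]
  abel

lemma cl_formula (x : Artin M) (hx : x ∈ (Artin.toCox cs).ker) :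
    ∃ v' : W →₀ ℤ, (uc cs x).v = (2 : ℤ) • v' ∧
      cl cs x hx = v'.prod (fun r n => (mer cs r) ^ n) := by
  classical
  have hx' := ker_toCox cs hx
  rw [Subgroup.normalClosure] at hx'
  -- carry membership in the kernel along
  have hmem : ∀ y ∈ Subgroup.closure (Group.conjugatesOfSet
      (Set.range (fun i => Artin.gen M i * Artin.gen M i))), y ∈ (Artin.toCox cs).ker := by
    intro y hy
    have h1 : Subgroup.normalClosure (Set.range (fun i => Artin.gen M i * Artin.gen M i)) ≤
        (Artin.toCox cs).ker := by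
      apply Subgroup.normalClosure_le_normal
      rintro _ ⟨i, rfl⟩
      exact sq_mem_ker cs i
    exact h1 hy
  induction hx' using Subgroup.closure_induction with
  | mem y hy =>
    rw [Group.mem_conjugatesOfSet_iff] at hy
    obtain ⟨a, ⟨i, rfl⟩, hc⟩ := hy
    obtain ⟨g, hg⟩ := isConj_iff.mp hc
    subst hg
    refine ⟨Finsupp.single (Artin.toCox cs g * cs.simple i * (Artin.toCox cs g)⁻¹) 1, ?_, ?_⟩
    · rw [uc_meridian, Finsupp.smul_single]
      rfl
    · rw [Finsupp.prod_single_index (by simp), zpow_one, mer_eq]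
  | one =>
    refine ⟨0, by simp, ?_⟩
    rw [Finsupp.prod_zero_index]
    exact (cl_eq_one_iff cs _ _).mpr (Subgroup.one_mem _)
  | mul a b ha hb iha ihb =>
    obtain ⟨va, ha1, ha2⟩ := iha (hmem a ha)
    obtain ⟨vb, hb1, hb2⟩ := ihb (hmem b hb)
    refine ⟨va + vb, ?_, ?_⟩
    · have hw : (uc cs a).w = 1 := by rw [cocyc_w]; exact hmem a ha
      rw [map_mul, mul_v, hw, act_one, ha1, hb1, smul_add]
    · rw [cl_mul cs a b (hmem a ha) (hmem b hb), ha2, hb2, Finsupp.prod_add_index']
      · intro r; simp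
      · intro r m n; rw [zpow_add]
  | inv a ha iha =>
    obtain ⟨va, ha1, ha2⟩ := iha (hmem a ha)
    refine ⟨-va, ?_, ?_⟩
    · have hw : (uc cs a).w = 1 := by rw [cocyc_w]; exact hmem a ha
      rw [map_inv, inv_v, hw, inv_one, act_one, ha1, smul_neg]
    · rw [cl_inv cs a (hmem a ha), ha2, Finsupp.prod_neg_index (by simp), ← Finsupp.prod_inv]
      simp

/-- An element of the pure Artin group killed by the universal cocycle is in the commutator
subgroup of the pure Artin group. -/
theorem mem_PP_of_uc {x : Artin M} (hx : x ∈ (Artin.toCox cs).ker) (h : (uc cs x).v = 0) :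
    x ∈ PP cs := by
  obtain ⟨v', h1, h2⟩ := cl_formula cs x hx
  rw [h] at h1
  have h3 : v' = 0 := by
    ext r
    have := DFunLike.congr_fun h1 r
    simp only [Finsupp.zero_apply, Finsupp.smul_apply, smul_eq_mul] at this
    simp only [Finsupp.zero_apply]
    omega
  rw [h3, Finsupp.prod_zero_index] at h2
  exact (cl_eq_one_iff cs x hx).mp h2

end Pool.Agent.Helper741
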