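import Pool.Agent.Helper741.PropX

set_option autoImplicit false

namespace Pool.Agent.Helper741

open CoxeterSystem

variable {B : Type*}

/-- restriction of a Coxeter matrix -/
def subM (M : CoxeterMatrix B) (T : Set B) : CoxeterMatrix T where
  M := Matrix.of fun i j => M i.1 j.1
  isSymm := by
    ext i j
    simp only [Matrix.transpose_apply, Matrix.of_apply]
    exact M.symmetric _ _
  diagonal i := by simp
  off_diagonal i i' h := by
    simp only [Matrix.of_apply]
    exact M.off_diagonal _ _ (fun h' => h (Subtype.ext h'))

@[simp] lemma subM_apply (M : CoxeterMatrix B) (T : Set B) (i j : T) :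
    subM M T i j = M i.1 j.1 := rfl

/-- `T` is a union of components -/
def Closed (M : CoxeterMatrix B) (T : Set B) : Prop := ∀ i ∈ T, ∀ j ∉ T, M i j = 2

lemma Closed.compl {M : CoxeterMatrix B} {T : Set B} (h : Closed M T) : Closed M Tᶜ := by
  intro i hi j hj
  rw [M.symmetric]
  exact h j (by simpa using hj) i hi

variable (M : CoxeterMatrix B) (T : Set B)

/-- inclusion of a standard parabolic -/
def incl : Artin (subM M T) →* Artin M :=
  Artin.lift (fun t => Artin.gen M t.1) (fun i j => Artin.rel i.1 j.1)

@[simp] lemma incl_gen (t : T) : incl M T (Artin.gen _ t) = Artin.gen M t.1 :=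
  Artin.lift_gen _ _ t

variable {M T}

lemma alt_one_one {G : Type*} [Monoid G] (m : ℕ) : alt (1 : G) 1 m = 1 := by
  induction m with
  | zero => simp
  | succ m ih => rw [alt_succ, ih, mul_one]

open Classical in
lemma proj_rel (hT : Closed M T) {G : Type*} [Group G] (f : T → G)
    (hf : ∀ i j : T, alt (f i) (f j) (M i.1 j.1) = alt (f j) (f i) (M i.1 j.1)) (i j : B) :
    alt (if h : i ∈ T then f ⟨i, h⟩ else 1) (if h : j ∈ T then f ⟨j, h⟩ else 1) (M i j) =
    alt (if h : j ∈ T then f ⟨j, h⟩ else 1) (if h : i ∈ T then f ⟨i, h⟩ else 1) (M i j) := by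
  by_cases hi : i ∈ T <;> by_cases hj : j ∈ T
  · simp only [hi, hj, dif_pos]
    exact hf ⟨i, hi⟩ ⟨j, hj⟩
  · simp only [hi, hj, dif_pos, dif_neg, not_false_eq_true]
    rw [hT i hi j hj, alt_two, alt_two, one_mul, mul_one]
  · simp only [hi, hj, dif_pos, dif_neg, not_false_eq_true]
    rw [M.symmetric, hT j hj i hi, alt_two, alt_two, one_mul, mul_one]
  · simp only [hi, hj, dif_neg, not_false_eq_true]

open Classical in
/-- projection onto a union of components -/
noncomputable def proj (hT : Closed M T) : Artin M →* Artin (subM M T) :=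
  Artin.lift (fun i => if h : i ∈ T then Artin.gen (subM M T) ⟨i, h⟩ else 1)
    (proj_rel hT _ (fun i j => Artin.rel (M := subM M T) i j))

lemma proj_gen_mem (hT : Closed M T) {i : B} (h : i ∈ T) :
    proj hT (Artin.gen M i) = Artin.gen (subM M T) ⟨i, h⟩ :=
  (Artin.lift_gen _ _ i).trans (dif_pos h)

lemma proj_gen_not_mem (hT : Closed M T) {i : B} (h : i ∉ T) : proj hT (Artin.gen M i) = 1 :=
  (Artin.lift_gen _ _ i).trans (dif_neg h)

lemma proj_incl (hT : Closed M T) (x : Artin (subM M T)) : proj hT (incl M T x) = x := by
  have : (proj hT).comp (incl M T) = MonoidHom.id _ := by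
    apply Artin.hom_ext
    intro i
    rw [MonoidHom.comp_apply, incl_gen, proj_gen_mem hT i.2]
    rfl
  exact DFunLike.congr_fun this x

/-- retraction onto a union of components, as an endomorphism -/
noncomputable def retr (hT : Closed M T) : Artin M →* Artin M := (incl M T).comp (proj hT)

lemma retr_gen_mem (hT : Closed M T) {i : B} (h : i ∈ T) :
    retr hT (Artin.gen M i) = Artin.gen M i := by
  rw [retr, MonoidHom.comp_apply, proj_gen_mem hT h, incl_gen]

lemma retr_gen_not_mem (hT : Closed M T) {i : B} (h : i ∉ T) : retr hT (Artin.gen M i) = 1 := by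
  rw [retr, MonoidHom.comp_apply, proj_gen_not_mem hT h, map_one]

lemma retr_incl (hT : Closed M T) (x : Artin (subM M T)) : retr hT (incl M T x) = incl M T x := by
  rw [retr, MonoidHom.comp_apply, proj_incl]

lemma gen_comm_of_two {i j : B} (h : M i j = 2) :
    Artin.gen M i * Artin.gen M j = Artin.gen M j * Artin.gen M i := by
  have := Artin.rel (M := M) i j
  rwa [h, alt_two, alt_two] at this

lemma retr_comm (hT : Closed M T) (x y : Artin M) :
    retr hT x * retr hT.compl y = retr hT.compl y * retr hT x := by
  have h1 : ∀ i j : B, Commute (retr hT (Artin.gen M i)) (retr hT.compl (Artin.gen M j)) := by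
    intro i j
    by_cases hi : i ∈ T
    · by_cases hj : j ∈ T
      · rw [retr_gen_not_mem hT.compl (by simpa using hj)]
        exact Commute.one_right _
      · rw [retr_gen_mem hT hi, retr_gen_mem hT.compl hj]
        exact gen_comm_of_two (hT i hi j hj)
    · rw [retr_gen_not_mem hT hi]
      exact Commute.one_left _
  have h2 : ∀ (i : B) (y : Artin M), Commute (retr hT (Artin.gen M i)) (retr hT.compl y) := by
    intro i y
    induction y using Artin.induction with
    | one => rw [map_one]; exact Commute.one_right _
    | gen j => exact h1 i j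
    | mul x y hx hy => rw [map_mul]; exact hx.mul_right hy
    | inv x hx => rw [map_inv]; exact hx.inv_right
  have h3 : Commute (retr hT x) (retr hT.compl y) := by
    induction x using Artin.induction with
    | one => rw [map_one]; exact Commute.one_left _
    | gen i => exact h2 i y
    | mul x y hx hy => rw [map_mul]; exact hx.mul_left hy
    | inv x hx => rw [map_inv]; exact hx.inv_left
  exact h3

lemma retr_mul_retr (hT : Closed M T) (x : Artin M) : retr hT x * retr hT.compl x = x := by
  induction x using Artin.induction with
  | one => simp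
  | gen i =>
    by_cases hi : i ∈ T
    · rw [retr_gen_mem hT hi, retr_gen_not_mem hT.compl (by simpa using hi), mul_one]
    · rw [retr_gen_not_mem hT hi, retr_gen_mem hT.compl hi, one_mul]
  | mul x y hx hy =>
    rw [map_mul, map_mul]
    calc retr hT x * retr hT y * (retr hT.compl x * retr hT.compl y)
        = retr hT x * (retr hT y * retr hT.compl x) * retr hT.compl y := by
          simp only [mul_assoc]
      _ = retr hT x * (retr hT.compl x * retr hT y) * retr hT.compl y := by rw [retr_comm hT y x]
      _ = (retr hT x * retr hT.compl x) * (retr hT y * retr hT.compl y) := by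
          simp only [mul_assoc]
      _ = x * y := by rw [hx, hy]
  | inv x hx =>
    rw [map_inv, map_inv]
    apply inv_injective
    rw [mul_inv_rev, inv_inv, inv_inv, inv_inv, ← retr_comm hT x x, hx]

lemma retr_retr (hT : Closed M T) (x : Artin M) : retr hT (retr hT x) = retr hT x := by
  have : (retr hT).comp (retr hT) = retr hT := by
    apply Artin.hom_ext
    intro i
    rw [MonoidHom.comp_apply]
    by_cases hi : i ∈ T
    · rw [retr_gen_mem hT hi, retr_gen_mem hT hi]
    · rw [retr_gen_not_mem hT hi, map_one]
  exact DFunLike.congr_fun this x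

lemma retr_retr_compl (hT : Closed M T) (x : Artin M) : retr hT (retr hT.compl x) = 1 := by
  have : (retr hT).comp (retr hT.compl) = 1 := by
    apply Artin.hom_ext
    intro i
    rw [MonoidHom.comp_apply]
    by_cases hi : i ∈ T
    · rw [retr_gen_not_mem hT.compl (by simpa using hi), map_one]; rfl
    · rw [retr_gen_mem hT.compl hi, retr_gen_not_mem hT hi]; rfl
  exact DFunLike.congr_fun this x

lemma mem_center_of_gen {z : Artin M} (h : ∀ i, z * Artin.gen M i = Artin.gen M i * z) :
    z ∈ Subgroup.center (Artin M) := by
  rw [Subgroup.mem_center_iff]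
  intro x
  have h3 : Commute x z := by
    induction x using Artin.induction with
    | one => exact Commute.one_left _
    | gen i => exact (h i).symm
    | mul x y hx hy => exact hx.mul_left hy
    | inv x hx => exact hx.inv_left
  exact h3

/-- central elements of a component are central -/
lemma incl_center (hT : Closed M T) {z : Artin (subM M T)}
    (hz : z ∈ Subgroup.center (Artin (subM M T))) : incl M T z ∈ Subgroup.center (Artin M) := by
  apply mem_center_of_gen
  intro i
  by_cases hi : i ∈ T
  · rw [← incl_gen M T ⟨i, hi⟩, ← map_mul, ← map_mul, (Subgroup.mem_center_iff.mp hz) _]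
  · rw [← retr_incl hT, ← retr_gen_mem hT.compl hi, retr_comm hT]

/-- Coxeter group of a component of a finite Coxeter group is finite. -/
lemma finite_sub (hT : Closed M T) [Finite M.Group] : Finite (subM M T).Group := by
  classical
  let cs := M.toCoxeterSystem
  let cs' := (subM M T).toCoxeterSystem
  have hl : M.IsLiftable (fun i => if h : i ∈ T then cs'.simple ⟨i, h⟩ else 1) := by
    intro i j
    by_cases hi : i ∈ T <;> by_cases hj : j ∈ T
    · simp only [hi, hj, dif_pos]
      exact cs'.simple_mul_simple_pow ⟨i, hi⟩ ⟨j, hj⟩
    · simp only [hi, hj, dif_pos, dif_neg, not_false_eq_true]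
      rw [hT i hi j hj, mul_one, cs'.simple_sq]
    · simp only [hi, hj, dif_pos, dif_neg, not_false_eq_true]
      rw [M.symmetric, hT j hj i hi, one_mul, cs'.simple_sq]
    · simp only [hi, hj, dif_neg, not_false_eq_true]
      rw [one_mul, one_pow]
  let F : M.Group →* (subM M T).Group := cs.lift ⟨_, hl⟩
  apply Finite.of_surjective F
  rw [← MonoidHom.range_eq_top, eq_top_iff, ← cs'.subgroup_closure_range_simple,
    Subgroup.closure_le]
  rintro _ ⟨i, rfl⟩
  refine ⟨cs.simple i.1, ?_⟩
  have := cs.lift_apply_simple hl i.1
  change F (cs.simple i.1) = _ at this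
  rw [this]
  simp

/-- the component of a vertex -/
def comp (M : CoxeterMatrix B) (i₀ : B) : Set B :=
  {j | Relation.ReflTransGen (fun a b => a ≠ b ∧ M a b ≠ 2) i₀ j}

lemma mem_comp_self (i₀ : B) : i₀ ∈ comp M i₀ := Relation.ReflTransGen.refl

lemma comp_closed (i₀ : B) : Closed M (comp M i₀) := by
  intro i hi j hj
  by_contra h
  apply hj
  have hij : i ≠ j := by rintro rfl; exact hj hi
  exact Relation.ReflTransGen.tail hi ⟨hij, h⟩

lemma comp_irr (i₀ : B) : Irr (subM M (comp M i₀)) := by
  intro U hU
  -- membership in `U` is constant along edges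
  have hedge : ∀ a b : comp M i₀, a.1 ≠ b.1 ∧ M a.1 b.1 ≠ 2 → (a ∈ U ↔ b ∈ U) := by
    intro a b ⟨_, h2⟩
    constructor
    · intro ha
      by_contra hb
      exact h2 (hU a ha b hb)
    · intro hb
      by_contra ha
      apply h2
      rw [M.symmetric]
      exact hU b hb a ha
  have hconst : ∀ j (hj : j ∈ comp M i₀),
      ((⟨j, hj⟩ : comp M i₀) ∈ U ↔ (⟨i₀, mem_comp_self i₀⟩ : comp M i₀) ∈ U) := by
    intro j hj
    induction hj with
    | refl => exact Iff.rfl
    | tail hb hbc ih =>
      rw [← ih]
      exact (hedge _ _ hbc).symm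
  by_cases h : (⟨i₀, mem_comp_self i₀⟩ : comp M i₀) ∈ U
  · right
    ext ⟨j, hj⟩
    simp only [Set.mem_univ, iff_true]
    exact (hconst j hj).mpr h
  · left
    ext ⟨j, hj⟩
    simp only [Set.mem_empty_iff_false, iff_false]
    exact fun h' => h ((hconst j hj).mp h')

/-- The spherical side of the argument. -/
theorem spherical_side [Fintype B] [Finite M.Group] (f h : Artin M →* Artin M)
    (hcomm : ∀ x y, f x * h y = h y * f x) (hprod : ∀ x, f x * h x = x)
    (hfh : ∀ x, f (h x) = 1)
    (hkey : ∀ μ : Artin M →* Multiplicative ℤ, (∀ x, μ (h x) = 1) →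
      ∀ z ∈ Subgroup.center (Artin M), μ z = 1)
    (ν : Artin M →* Multiplicative ℤ) (hν : ∀ x, ν (h x) = 1) : ν = 1 := by
  classical
  apply Artin.hom_ext
  intro i₀
  rw [MonoidHom.one_apply]
  by_contra hi₀
  set T := comp M i₀ with hTdef
  have hT : Closed M T := comp_closed i₀
  have hirr : Irr (subM M T) := comp_irr i₀
  have hfin : Finite (subM M T).Group := finite_sub hT
  have hmem : i₀ ∈ T := mem_comp_self i₀
  have hνf : ∀ x, ν (f x) = ν x := by
    intro x
    conv_rhs => rw [← hprod x, map_mul, hν, mul_one]
  by_cases hcard : 2 ≤ Fintype.card T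
  · set φ : Artin (subM M T) →* Artin (subM M T) := (proj hT).comp (f.comp (incl M T)) with hφ
    set ψ : Artin (subM M T) →* Artin (subM M T) := (proj hT).comp (h.comp (incl M T)) with hψ
    have hφa : ∀ x, φ x = proj hT (f (incl M T x)) := fun x => rfl
    have hψa : ∀ x, ψ x = proj hT (h (incl M T x)) := fun x => rfl
    have h1 := propX (subM M T).toCoxeterSystem hirr hcard φ ψ
      (by
        intro x y
        rw [hφa, hψa, ← map_mul, hcomm, map_mul])
      (by
        intro x
        rw [hφa, hψa, ← map_mul, hprod, proj_incl])
      (by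
        intro z hz μ
        have h2 := hkey (μ.comp ((proj hT).comp f)) (by
          intro x
          simp only [MonoidHom.comp_apply]
          rw [hfh, map_one, map_one]) (incl M T z) (incl_center hT hz)
        exact h2)
      (ν.comp (incl M T))
      (by
        intro x
        simp only [MonoidHom.comp_apply]
        rw [hφa]
        -- the complementary part is central
        have hc : retr hT.compl (f (incl M T x)) ∈ Subgroup.center (Artin M) := by
          apply mem_center_of_gen
          intro i
          by_cases hi : i ∈ T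
          · rw [← retr_gen_mem hT hi, retr_comm hT]
          · have e1 : incl M T x * Artin.gen M i = Artin.gen M i * incl M T x := by
              rw [← retr_incl hT, ← retr_gen_mem hT.compl hi, retr_comm hT]
            have e2 : f (incl M T x) * f (Artin.gen M i) = f (Artin.gen M i) * f (incl M T x) := by
              rw [← map_mul, e1, map_mul]
            have e3 : f (incl M T x) * Artin.gen M i = Artin.gen M i * f (incl M T x) := by
              conv_lhs => rw [← hprod (Artin.gen M i)]
              conv_rhs => rw [← hprod (Artin.gen M i)]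
              rw [← mul_assoc, e2, mul_assoc, hcomm, mul_assoc]
            have e4 := congrArg (retr hT.compl) e3
            rw [map_mul, map_mul, retr_gen_mem hT.compl hi] at e4
            exact e4
        have h3 := hkey ν hν _ hc
        have h4 : ν (f (incl M T x)) = ν (retr hT (f (incl M T x))) := by
          conv_lhs => rw [← retr_mul_retr hT (f (incl M T x)), map_mul, h3, mul_one]
        rw [← hνf (incl M T x), h4]
        rfl)
      (Artin.gen _ ⟨i₀, hmem⟩)
    rw [MonoidHom.comp_apply, incl_gen] at h1
    exact hi₀ h1
  · -- rank one component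
    have hsub : Subsingleton T := by
      rw [← Fintype.card_le_one_iff_subsingleton]
      omega
    apply hi₀
    apply hkey ν hν
    apply mem_center_of_gen
    intro j
    by_cases hj : j ∈ T
    · have : (⟨j, hj⟩ : T) = ⟨i₀, hmem⟩ := Subsingleton.elim _ _
      have : j = i₀ := congrArg Subtype.val this
      rw [this]
    · exact gen_comm_of_two (hT i₀ hmem j hj)

/-- **Main theorem.** -/
theorem main {B' : Type*} [Fintype B] [Fintype B'] (M : CoxeterMatrix B) (M' : CoxeterMatrix B')
    [Finite M'.Group] (e : Artin M ≃* Artin M') : Finite M.Group := by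
  classical
  by_contra hinf
  set cs := M.toCoxeterSystem with hcs
  set S : Set B := {i | (Set.range (fun w : M.Group => w * cs.simple i * w⁻¹)).Infinite} with hS
  have hSc : Closed M S := by
    intro i hi j hj
    by_contra h2
    have hij : i ≠ j := by rintro rfl; exact hj hi
    have hj' : (Set.range (fun w : M.Group => w * cs.simple j * w⁻¹)).Finite := by
      by_contra hcon
      exact hj hcon
    exact hi (class_finite_of_adj cs hij.symm (by rwa [M.symmetric]) hj')
  have hSne : ∃ i, i ∈ S := by
    by_contra hcon
    push Not at hcon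
    apply hinf
    apply finite_of_classes_finite cs
    intro i
    by_contra hc
    exact hcon i hc
  have hkey : ∀ μ : Artin M →* Multiplicative ℤ, (∀ x, μ (retr hSc.compl x) = 1) →
      ∀ z ∈ Subgroup.center (Artin M), μ z = 1 := by
    intro μ hμ z hz
    apply hom_center_eq_one cs μ _ z hz
    intro i hi
    by_contra hcon
    apply hi
    have : i ∉ S := hcon
    rw [← retr_gen_mem hSc.compl this]
    exact hμ _
  -- transport
  have hcen : ∀ z, z ∈ Subgroup.center (Artin M') → e.symm z ∈ Subgroup.center (Artin M) := by
    intro z hz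
    rw [Subgroup.mem_center_iff] at hz ⊢
    intro g
    have := hz (e g)
    have h2 := congrArg e.symm this
    simpa using h2
  have h1 := spherical_side (M := M') (e.toMonoidHom.comp ((retr hSc).comp e.symm.toMonoidHom))
    (e.toMonoidHom.comp ((retr hSc.compl).comp e.symm.toMonoidHom))
    (by
      intro x y
      simp only [MonoidHom.comp_apply, MulEquiv.toMonoidHom_eq_coe, MonoidHom.coe_coe]
      rw [← map_mul, ← map_mul, retr_comm])
    (by
      intro x
      simp only [MonoidHom.comp_apply, MulEquiv.toMonoidHom_eq_coe, MonoidHom.coe_coe]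
      rw [← map_mul, retr_mul_retr, MulEquiv.apply_symm_apply])
    (by
      intro x
      simp only [MonoidHom.comp_apply, MulEquiv.toMonoidHom_eq_coe, MonoidHom.coe_coe]
      rw [MulEquiv.symm_apply_apply, retr_retr_compl, map_one])
    (by
      intro μ hμ z hz
      have h2 := hkey (μ.comp e.toMonoidHom) (by
        intro x
        have := hμ (e x)
        simpa using this) (e.symm z) (hcen z hz)
      simpa using h2)
    ((lenHom M).comp ((retr hSc).comp e.symm.toMonoidHom))
    (by
      intro x
      simp only [MonoidHom.comp_apply, MulEquiv.toMonoidHom_eq_coe, MonoidHom.coe_coe]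
      rw [MulEquiv.symm_apply_apply, retr_retr_compl, map_one])
  obtain ⟨i, hi⟩ := hSne
  have h2 := DFunLike.congr_fun h1 (e (Artin.gen M i))
  simp only [MonoidHom.comp_apply, MulEquiv.toMonoidHom_eq_coe, MonoidHom.coe_coe] at h2
  rw [MulEquiv.symm_apply_apply, retr_gen_mem hSc hi, lenHom_gen, MonoidHom.one_apply] at h2
  have h3 := congrArg Multiplicative.toAdd h2
  simp at h3

end Pool.Agent.Helper741
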