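import Pool.Agent.Helper741.Alt

set_option autoImplicit false

namespace Pool.Agent.Helper741

/-- The group of pairs `(v, w)`, `v` a finitely supported `C`-valued function on `W`, with
product `(v, w) (v', w') = (v + w v' w⁻¹, w w')`. -/
@[ext] structure TExt (C W : Type*) [AddCommGroup C] [Group W] where
  v : W →₀ C
  w : W

namespace TExt

variable {C W : Type*} [AddCommGroup C] [Group W]

/-- conjugation action on finitely supported functions -/
noncomputable def act (w : W) (f : W →₀ C) : W →₀ C := f.equivMapDomain (MulAut.conj w).toEquiv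

@[simp] lemma act_apply (w : W) (f : W →₀ C) (r : W) : act w f r = f (w⁻¹ * r * w) := by
  simp [act, Finsupp.equivMapDomain_apply]

lemma act_single (w r : W) (c : C) : act w (Finsupp.single r c) = Finsupp.single (w * r * w⁻¹) c := by
  simp [act, Finsupp.equivMapDomain_single]

lemma act_add (w : W) (f g : W →₀ C) : act w (f + g) = act w f + act w g := by
  ext r; simp

lemma act_act (w w' : W) (f : W →₀ C) : act w (act w' f) = act (w * w') f := by
  ext r; simp [mul_assoc]

@[simp] lemma act_one (f : W →₀ C) : act 1 f = f := by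
  ext r; simp

@[simp] lemma act_zero (w : W) : act w (0 : W →₀ C) = 0 := by
  ext r; simp

noncomputable instance : Mul (TExt C W) := ⟨fun x y => ⟨x.v + act x.w y.v, x.w * y.w⟩⟩
noncomputable instance : One (TExt C W) := ⟨⟨0, 1⟩⟩
noncomputable instance : Inv (TExt C W) := ⟨fun x => ⟨- act x.w⁻¹ x.v, x.w⁻¹⟩⟩

@[simp] lemma mul_v (x y : TExt C W) : (x * y).v = x.v + act x.w y.v := rfl
@[simp] lemma mul_w (x y : TExt C W) : (x * y).w = x.w * y.w := rfl
@[simp] lemma one_v : (1 : TExt C W).v = 0 := rfl
@[simp] lemma one_w : (1 : TExt C W).w = 1 := rfl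
@[simp] lemma inv_v (x : TExt C W) : (x⁻¹).v = - act x.w⁻¹ x.v := rfl
@[simp] lemma inv_w (x : TExt C W) : (x⁻¹).w = x.w⁻¹ := rfl

noncomputable instance : Group (TExt C W) :=
  Group.ofLeftAxioms
    (by
      intro x y z
      apply TExt.ext
      · simp only [mul_v, mul_w, act_add, act_act, add_assoc]
      · simp only [mul_w, mul_assoc])
    (by
      intro x
      apply TExt.ext
      · simp
      · simp)
    (by
      intro x
      apply TExt.ext
      · simp
      · simp)

/-- projection to `W` -/
noncomputable def toW : TExt C W →* W where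
  toFun x := x.w
  map_one' := rfl
  map_mul' _ _ := rfl

@[simp] lemma toW_apply (x : TExt C W) : toW x = x.w := rfl

/-- sum of all values -/
noncomputable def total : TExt C W →* Multiplicative C where
  toFun x := Multiplicative.ofAdd (x.v.sum fun _ c => c)
  map_one' := by simp
  map_mul' x y := by
    rw [← ofAdd_add]
    congr 1
    rw [mul_v, Finsupp.sum_add_index' (by simp) (by simp)]
    congr 1
    rw [act, Finsupp.equivMapDomain_eq_mapDomain, Finsupp.sum_mapDomain_index (by simp) (by simp)]

lemma total_apply (x : TExt C W) : total x = Multiplicative.ofAdd (x.v.sum fun _ c => c) := rfl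

/-- The basic elements `(c δ_s, s)`. -/
noncomputable def el (c : C) (s : W) : TExt C W := ⟨Finsupp.single s c, s⟩

@[simp] lemma el_v (c : C) (s : W) : (el c s).v = Finsupp.single s c := rfl
@[simp] lemma el_w (c : C) (s : W) : (el c s).w = s := rfl

lemma alt_w (x y : TExt C W) (k : ℕ) : (alt x y k).w = alt x.w y.w k := by
  have := map_alt (toW (C := C) (W := W)) x y k
  simpa using this

lemma alt_el_v {a b : W} (ha : a * a = 1) (hb : b * b = 1) (c d : C) (k : ℕ) :
    (alt (el c a) (el d b) k).v =
      ∑ t ∈ Finset.range k, Finsupp.single ((a * b) ^ t * a) (if Even t then c else d) := by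
  induction k with
  | zero => simp
  | succ k ih =>
    rw [alt_succ', mul_v, ih, Finset.sum_range_succ]
    congr 1
    have h := alt_conj ha hb k
    rw [alt_w]
    by_cases hk : Even k
    · simp only [hk, if_true] at h ⊢
      rw [el_v, act_single]
      simp only [el_w]
      rw [h]
    · simp only [hk, if_false] at h ⊢
      rw [el_v, act_single]
      simp only [el_w]
      rw [h]

lemma alt_el_comm {a b : W} (ha : a * a = 1) (hb : b * b = 1) {m : ℕ} (hm : (a * b) ^ m = 1)
    (c d : C) (hcd : Odd m → c = d) :
    alt (el c a) (el d b) m = alt (el d b) (el c a) m := by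
  apply TExt.ext
  · rw [alt_el_v ha hb, alt_el_v hb ha]
    rw [← Finset.sum_range_reflect]
    apply Finset.sum_congr rfl
    intro t ht
    have htm : t < m := Finset.mem_range.mp ht
    have key : (a * b) ^ (m - 1 - t) * a = (b * a) ^ t * b := by
      have h1 : (b * a) ^ t = ((a * b) ^ t)⁻¹ := by
        have : b * a = (a * b)⁻¹ := by
          rw [mul_inv_rev, inv_eq_of_mul_eq_one_left ha, inv_eq_of_mul_eq_one_left hb]
        rw [this, inv_pow]
      rw [h1]
      have h2 : (a * b) ^ t * ((a * b) ^ (m - 1 - t) * (a * b)) = 1 := by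
        rw [← pow_succ, ← pow_add, ← hm]
        congr 1
        omega
      have h3 : (a * b) ^ (m - 1 - t) * (a * b) = ((a * b) ^ t)⁻¹ := by
        rw [eq_comm, inv_eq_iff_mul_eq_one]
        exact h2
      rw [← h3]
      calc (a * b) ^ (m - 1 - t) * a = (a * b) ^ (m - 1 - t) * a * (b * b) := by rw [hb, mul_one]
        _ = _ := by simp only [mul_assoc]
    rw [key]
    congr 1
    by_cases hmo : Odd m
    · rw [hcd hmo]; simp
    · rw [Nat.not_odd_iff_even] at hmo
      by_cases hte : Even t
      · have : ¬ Even (m - 1 - t) := by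
          obtain ⟨x, hx⟩ := hmo
          obtain ⟨y, hy⟩ := hte
          rintro ⟨z, hz⟩
          omega
        simp [hte, this]
      · have : Even (m - 1 - t) := by
          rw [Nat.not_even_iff_odd] at hte
          obtain ⟨x, hx⟩ := hmo
          obtain ⟨y, hy⟩ := hte
          exact ⟨x - 1 - y, by omega⟩
        simp [hte, this]
  · rw [alt_w, alt_w]
    exact alt_comm_of_pow ha hb hm

end TExt

end Pool.Agent.Helper741
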